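import Pool.Agent.TH996.Rec.Defs

/-!
Forward chains in an infinitely accessible triple (helper75, job 1276).
-/

set_option autoImplicit false

namespace Pool.Agent.TH996.Park

open Pool.Agent.TH996.Parking

/-- there is a `K`-positive path of length `n` from `x` to `y` -/
def chain75R {V : Type*} (K : V → V → ℝ) (n : ℕ) (x y : V) : Prop :=
  ∃ z : ℕ → V, z 0 = x ∧ z n = y ∧ ∀ i < n, 0 < K (z i) (z (i + 1))

theorem chain75_succ {V : Type*} {K : V → V → ℝ} {n : ℕ} {x y : V} (h : chain75R K (n + 1) x y) :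
    ∃ w, chain75R K n x w ∧ 0 < K w y := by
  obtain ⟨z, h0, hn, hz⟩ := h
  refine ⟨z n, ⟨z, h0, rfl, fun i hi => hz i (by omega)⟩, ?_⟩
  rw [← hn]
  exact hz n (by omega)

theorem chain75_snoc {V : Type*} {K : V → V → ℝ} {n : ℕ} {x w y : V} (h : chain75R K n x w)
    (hw : 0 < K w y) : chain75R K (n + 1) x y := by
  obtain ⟨z, h0, hn, hz⟩ := h
  refine ⟨fun k => if k ≤ n then z k else y, by simp [h0], by simp, fun i hi => ?_⟩
  by_cases h1 : i + 1 ≤ n
  · simp only [h1, if_true, show i ≤ n by omega]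
    exact hz i (by omega)
  · have h2 : i = n := by omega
    subst h2
    simp only [le_refl, if_true, h1, if_false, hn]
    exact hw

theorem chain75_finite {V : Type*} (G : SimpleGraph V) [G.LocallyFinite] {K : V → V → ℝ}
    (hK : IsKernel G K) (n : ℕ) (x : V) : {y | chain75R K n x y}.Finite := by
  induction n with
  | zero =>
    refine (Set.finite_singleton x).subset ?_
    rintro y ⟨z, h0, hn, -⟩
    show y = x
    rw [← h0, ← hn]
  | succ n ih =>
    refine (ih.biUnion (t := fun w => (G.neighborFinset w : Set V))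
      (fun w _ => Finset.finite_toSet _)).subset ?_
    intro y hy
    obtain ⟨w, hw, hwy⟩ := chain75_succ hy
    simp only [Set.mem_iUnion]
    refine ⟨w, hw, ?_⟩
    simp only [Finset.mem_coe, SimpleGraph.mem_neighborFinset]
    by_contra hcon
    rw [hK.supp _ _ hcon] at hwy
    exact lt_irrefl _ hwy

theorem chain75_acc {V : Type*} {G : SimpleGraph V} {K : V → V → ℝ} {x y : V}
    (h : Accessible G K x y) : ∃ n, chain75R K n x y := by
  unfold Accessible at h
  induction h with
  | refl => exact ⟨0, fun _ => x, rfl, rfl, fun i hi => absurd hi (Nat.not_lt_zero i)⟩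
  | tail _ h2 ih =>
    obtain ⟨n, hn⟩ := ih
    exact ⟨n + 1, chain75_snoc hn h2.2⟩

theorem chain75_map {V : Type*} {G : SimpleGraph V} {K : V → V → ℝ}
    {Γ : Subgroup (Equiv.Perm V)} (hA : IsAut G K Γ) {φ : Equiv.Perm V} (hφ : φ ∈ Γ) {x y : V}
    (h : Accessible G K x y) : Accessible G K (φ x) (φ y) := by
  unfold Accessible at h ⊢
  refine Relation.ReflTransGen.lift φ ?_ _ _ h
  intro a b hab
  refine ⟨(hA.adj φ hφ a b).2 hab.1, ?_⟩
  rw [hA.ker φ hφ]
  exact hab.2

theorem chain75_cut {V : Type*} {K : V → V → ℝ} {n : ℕ} {x y : V} {z : ℕ → V} (h0 : z 0 = x)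
    (hn : z n = y) (hz : ∀ i < n, 0 < K (z i) (z (i + 1))) {i j : ℕ} (hij : i < j) (hj : j ≤ n)
    (he : z i = z j) : chain75R K (n - (j - i)) x y := by
  refine ⟨fun k => if k ≤ i then z k else z (k + (j - i)), by simp [h0], ?_, ?_⟩
  · by_cases h1 : n - (j - i) ≤ i
    · have h2 : n - (j - i) = i := by omega
      have h3 : n = j := by omega
      simp only [h2, le_refl, if_true]
      rw [he, ← h3, hn]
    · simp only [h1, if_false]
      rw [show n - (j - i) + (j - i) = n by omega, hn]
  · intro k hk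
    by_cases h1 : k + 1 ≤ i
    · simp only [h1, if_true, show k ≤ i by omega]
      exact hz k (by omega)
    · by_cases h2 : k ≤ i
      · have h3 : k = i := by omega
        subst h3
        simp only [le_refl, if_true, h1, if_false]
        rw [he, show k + 1 + (j - k) = j + 1 by omega]
        exact hz j (by omega)
      · simp only [h1, h2, if_false]
        rw [show k + 1 + (j - i) = k + (j - i) + 1 by omega]
        exact hz _ (by omega)

theorem chain75_inf {V : Type*} (G : SimpleGraph V) (K : V → V → ℝ)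
    (Γ : Subgroup (Equiv.Perm V)) (hA : IsAut G K Γ) (hT : IsTransitive Γ)
    (hI : IsInfinitelyAccessible G K Γ) (o : V) : {y | Accessible G K o y}.Infinite := by
  obtain ⟨φ, hφ, u, hinf, hacc⟩ := hI
  have hf : ∀ n : ℕ, Accessible G K u ((φ⁻¹ ^ n) u) := by
    intro n
    induction n with
    | zero => exact Relation.ReflTransGen.refl
    | succ n ih =>
      have h1 := chain75_map hA (Γ.pow_mem (Γ.inv_mem hφ) (n + 1)) hacc
      have h2 : (φ⁻¹ ^ (n + 1)) (φ u) = (φ⁻¹ ^ n) u := by
        rw [pow_succ, Equiv.Perm.mul_apply]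
        simp
      rw [h2] at h1
      exact Relation.ReflTransGen.trans ih h1
  have hper : ∀ m : ℕ, 0 < m → (φ ^ m) u ≠ u := by
    intro m hm he
    apply hinf
    refine ((Set.finite_Iio m).image (fun n : ℕ => (φ ^ n) u)).subset ?_
    rintro y ⟨n, rfl⟩
    refine ⟨n % m, Nat.mod_lt _ hm, ?_⟩
    have h1 : ∀ q : ℕ, (φ ^ (m * q)) u = u := by
      intro q
      induction q with
      | zero => simp
      | succ q ih => rw [Nat.mul_succ, pow_add, Equiv.Perm.mul_apply, he, ih]
    show (φ ^ (n % m)) u = (φ ^ n) u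
    conv_rhs => rw [← Nat.mod_add_div n m, pow_add, Equiv.Perm.mul_apply, h1]
  have hlt : ∀ i j : ℕ, i < j → (φ⁻¹ ^ i) u ≠ (φ⁻¹ ^ j) u := by
    intro i j hij he
    have h1 : (φ ^ j) ((φ⁻¹ ^ i) u) = (φ ^ j) ((φ⁻¹ ^ j) u) := by rw [he]
    rw [← Equiv.Perm.mul_apply, ← Equiv.Perm.mul_apply,
      show φ ^ j * φ⁻¹ ^ j = 1 by rw [inv_pow, mul_inv_cancel],
      show φ ^ j * φ⁻¹ ^ i = φ ^ (j - i) by
        rw [inv_pow, ← pow_sub φ hij.le], Equiv.Perm.one_apply] at h1
    exact hper (j - i) (by omega) h1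
  have hinj : Function.Injective (fun n : ℕ => (φ⁻¹ ^ n) u) := by
    intro i j he
    rcases lt_trichotomy i j with h | h | h
    · exact absurd he (hlt i j h)
    · exact h
    · exact absurd he.symm (hlt j i h)
  obtain ⟨ψ, hψ, hψu⟩ := hT u o
  have hinj2 : Function.Injective (fun n : ℕ => ψ ((φ⁻¹ ^ n) u)) := ψ.injective.comp hinj
  refine (Set.infinite_range_of_injective hinj2).mono ?_
  rintro y ⟨n, rfl⟩
  have := chain75_map hA hψ (hf n)
  rw [hψu] at this
  exact this

theorem exists_chain {V : Type*} (G : SimpleGraph V) [G.LocallyFinite] (K : V → V → ℝ)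
    (Γ : Subgroup (Equiv.Perm V)) (hK : IsKernel G K) (hA : IsAut G K Γ) (hT : IsTransitive Γ)
    (hI : IsInfinitelyAccessible G K Γ) (o : V) (N : ℕ) :
    ∃ z : ℕ → V, z 0 = o ∧ (∀ i < N, 0 < K (z i) (z (i + 1))) ∧ Set.InjOn z (Set.Iic N) := by
  classical
  have h1 := chain75_inf G K Γ hA hT hI o
  have h2 : (⋃ n ∈ Set.Iic N, {y | chain75R K n o y}).Finite :=
    (Set.finite_Iic N).biUnion (fun n _ => chain75_finite G hK n o)
  obtain ⟨v, hv1, hv2⟩ := (h1.sdiff h2).nonempty
  have hex : ∃ n, chain75R K n o v := chain75_acc hv1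
  have hmin : ∀ n, chain75R K n o v → N < n := by
    intro n hn
    by_contra hcon
    push Not at hcon
    apply hv2
    simp only [Set.mem_iUnion]
    exact ⟨n, hcon, hn⟩
  set n := Nat.find hex with hn
  obtain ⟨z, z0, zn, hz⟩ := Nat.find_spec hex
  have hNn : N < n := hmin n (Nat.find_spec hex)
  have hne : ∀ i j, i < j → j ≤ N → z i ≠ z j := by
    intro i j hij hj he
    have h3 := chain75_cut z0 zn hz hij (by omega) he
    have h4 := Nat.find_min' hex h3
    omega
  refine ⟨z, z0, fun i hi => hz i (by omega), ?_⟩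
  intro i hi j hj he
  have hi' : i ≤ N := hi
  have hj' : j ≤ N := hj
  rcases lt_trichotomy i j with h | h | h
  · exact absurd he (hne i j h hj')
  · exact h
  · exact absurd he.symm (hne j i h hi')

end Pool.Agent.TH996.Park
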