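import Pool.Agent.TH996.Rec.Fin
import Pool.Agent.TH996.Rec.Chain

/-!
The number of visits is finite in mean for every density below one half.
-/

namespace Pool.Agent.TH996.Park

open MeasureTheory Measure Finset Filter
open scoped ENNReal Topology

section

variable {V : Type*} [DecidableEq V]

/-- the positive values of the kernel are bounded below -/
lemma exists_kmin (S : Tri V) (o : V) : ∃ k : ℝ, 0 < k ∧ ∀ x y, 0 < S.K x y → k ≤ S.K x y := by
  classical
  set A := (S.nb o).filter fun v => 0 < S.K o v with hA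
  have hne : A.Nonempty := by
    by_contra h
    rw [not_nonempty_iff_eq_empty] at h
    have h1 : ∑ y ∈ S.nb o, S.K o y = 0 := by
      refine sum_eq_zero fun y hy => ?_
      by_contra hne
      have hpos : 0 < S.K o y := lt_of_le_of_ne (S.nonneg _ _) (Ne.symm hne)
      have : y ∈ A := mem_filter.2 ⟨hy, hpos⟩
      rw [h] at this
      exact absurd this (notMem_empty _)
    rw [S.sum_one] at h1
    exact one_ne_zero h1
  obtain ⟨v, hv, hmin⟩ := A.exists_min_image (fun v => S.K o v) hne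
  refine ⟨S.K o v, (mem_filter.1 hv).2, fun x y hxy => ?_⟩
  obtain ⟨γ, hγ, hx⟩ := S.trans x o
  have h1 : S.K o (γ y) = S.K x y := by rw [← hx, S.inv_K γ hγ]
  rw [← h1]
  refine hmin (γ y) (mem_filter.2 ⟨?_, by rw [h1]; exact hxy⟩)
  by_contra h
  rw [← h1, S.supp o (γ y) h] at hxy
  exact absurd hxy (lt_irrefl _)

variable [MeasurableSpace V] [MeasurableSingletonClass V] [Countable V]

/-- removing the killing -/
lemma integral_emb_le (S : Tri V) {p : ℝ} (hp : 0 ≤ p ∧ p ≤ 1) (o : V) {M κs : ℝ}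
    (hκs : 0 < κs) (T : ℕ)
    (h : ∀ κ : ℝ, 0 < κ → κ ≤ κs → mT S p κ o T ≤ M) :
    ∫ ω, Dn S T o (emb ω) ∂(S.law0 p) ≤ M := by
  choose A hA using fun t => exists_finite_dep S.nb t o
  set AA := (range T).biUnion A with hAA
  have hDb : BM (Dn S T o) := BM.sum _ fun t _ => bm_C S.nb t o
  have key : ∀ κ : ℝ, 0 < κ → κ ≤ κs → κ ≤ 1 → (1 - κ) ^ AA.card *
      ∫ ω, Dn S T o (emb ω) ∂(S.law0 p) ≤ M := by
    intro κ k0 ks k1
    have hκ : 0 ≤ κ ∧ κ ≤ 1 := ⟨k0.le, k1⟩
    have := law_prob S hp hκ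
    refine le_trans ?_ (h κ k0 ks)
    have h1 := killed_ge S hp hκ (Dn S T o) hDb (fun ω => Dn_nonneg S T o ω) AA ?_
    · refine h1.trans (le_of_eq ?_)
      unfold Dn mT aT
      exact integral_finsetSum _ fun t _ => (bm_C S.nb t o).integrable _
    · intro ω hω
      unfold Dn
      refine sum_congr rfl fun t ht => ?_
      have := (hA t (c0 ω.1) (f0 ω.1) (c0_le ω.1) ω.2.1 ω.2.2
        (fun a ha => hω a (mem_biUnion.2 ⟨t, ht, ha⟩))).1
      exact_mod_cast this
  set I := ∫ ω, Dn S T o (emb ω) ∂(S.law0 p)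
  set c := min κs 1 with hc
  have hc0 : 0 < c := lt_min hκs one_pos
  have l0 : Tendsto (fun n : ℕ => c * (1 / ((n : ℝ) + 1))) atTop (𝓝 (c * 0)) :=
    tendsto_one_div_add_atTop_nhds_zero_nat.const_mul c
  have l1 : Tendsto (fun n : ℕ => (1 - c * (1 / ((n : ℝ) + 1))) ^ AA.card * I) atTop
      (𝓝 ((1 - c * 0) ^ AA.card * I)) :=
    ((tendsto_const_nhds.sub l0).pow _).mul_const _
  have hb : ∀ n : ℕ, 0 < c * (1 / ((n : ℝ) + 1)) ∧ c * (1 / ((n : ℝ) + 1)) ≤ c := by
    intro n
    have h1 : (0 : ℝ) ≤ n := Nat.cast_nonneg _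
    refine ⟨by positivity, ?_⟩
    have h2 : 1 / ((n : ℝ) + 1) ≤ 1 := by rw [div_le_one (by positivity)]; linarith
    calc c * (1 / ((n : ℝ) + 1)) ≤ c * 1 := mul_le_mul_of_nonneg_left h2 hc0.le
      _ = c := mul_one _
  have := le_of_tendsto' l1 fun n => key _ (hb n).1 ((hb n).2.trans (min_le_left _ _))
    ((hb n).2.trans (min_le_right _ _))
  simpa using this

/-- at density zero there are no cars -/
lemma aT_zero_density (S : Tri V) (x : V) (t : ℕ) : aT S 0 0 x t ≤ 0 := by
  have hp : (0 : ℝ) ≤ 0 ∧ (0 : ℝ) ≤ 1 := ⟨le_rfl, zero_le_one⟩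
  have := law_prob S hp hp
  induction t with
  | zero =>
    have h1 : ∀ ω : Om V, (Cn S.nb 0 x ω : ℝ) = 1 / 2 * eta x ω + 1 / 2 := by
      intro ω
      have h2 : Cn S.nb 0 x ω = c0 ω.1 x := rfl
      rw [h2]
      unfold eta c0 f0
      split_ifs <;> norm_num
    unfold aT
    simp_rw [h1]
    rw [integral_add (((bm_eta x).smul _).integrable _) (integrable_const _),
      integral_const_mul, integral_eta S hp hp]
    simp
  | succ t ih =>
    refine (aT_succ S hp hp x t).trans ?_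
    linarith

end

section

open Pool.Agent.TH996.Parking

/-- **The expected number of visits is finite below one half.** -/
theorem visits_finite {V : Type*} [MeasurableSpace V] [DiscreteMeasurableSpace V]
    (G : SimpleGraph V) [G.LocallyFinite] (hG : G.Connected) (K : V → V → ℝ)
    (Γ : Subgroup (Equiv.Perm V)) (hK : IsKernel G K) (hA : IsAut G K Γ)
    (hT : IsTransitive Γ) (hU : IsUnimodular Γ) (hI : IsInfinitelyAccessible G K Γ)
    (p : ℝ) (hp0 : 0 ≤ p) (hp1 : p < 1 / 2) (x : V) :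
    expectedVisits G K p x < ⊤ := by
  classical
  have : Countable V := countable_of_connected G hG
  have hp : 0 ≤ p ∧ p ≤ 1 := ⟨hp0, by linarith⟩
  set S := mkTri G K Γ hK hA hT hU with hS
  suffices h : ∃ C : ℝ, ∀ T, ∑ t ∈ range T, aT S p 0 x t ≤ C by
    obtain ⟨C, hC⟩ := h
    exact (expectedVisits_le G K Γ hK hA hT hU hp x C hC).trans_lt ENNReal.ofReal_lt_top
  rcases hp0.eq_or_lt with h0 | h0
  · refine ⟨0, fun T => ?_⟩
    subst h0
    exact sum_nonpos fun t _ => aT_zero_density S x t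
  -- a bound for the process without killing gives the claim
  have hred : ∀ C : ℝ, (∀ T, ∫ ω, Dn S T x (emb ω) ∂(S.law0 p) ≤ C) →
      ∀ T, ∑ t ∈ range T, aT S p 0 x t ≤ C := by
    intro C hC T
    have := law_prob S hp (κ := 0) ⟨le_rfl, zero_le_one⟩
    have hD : BM (Dn S T x) := BM.sum _ fun t _ => bm_C S.nb t x
    refine le_trans (le_of_eq ?_) (hC T)
    rw [← law_emb S hp hD]
    unfold Dn
    rw [integral_finsetSum _ fun t _ => (bm_C S.nb t x).integrable _]
    rfl
  by_cases htr : ∃ B : ℝ, ∀ J, S.U 1 x J x ≤ B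
  · obtain ⟨B, hB⟩ := htr
    have hpos : 0 < 1 - 2 * p := by linarith
    refine ⟨4 * B / (1 - 2 * p), hred _ fun T => ?_⟩
    have h1 := sum_cars_le S hp hp1 B x (fun κ k0 k1 J =>
      (U_le_one S (by linarith) (by linarith) x J x).trans (hB J)) T
    rw [le_div_iff₀ hpos]
    linarith
  · push Not at htr
    obtain ⟨k, hk, hk1⟩ := exists_kmin S x
    obtain ⟨M, κs, hκs, hM⟩ := mT_rec S h0 hp1 x hk hk1
      (fun N => exists_chain G K Γ hK hA hT hI x N) (fun B => by
        obtain ⟨J, hJ⟩ := htr B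
        refine ⟨J + 1, by omega, hJ.le.trans ?_⟩
        exact S.U_le_succ zero_le_one x J x)
    exact ⟨M, hred M fun T => integral_emb_le S hp x hκs T fun κ k0 ks => hM κ k0 ks T⟩

end

end Pool.Agent.TH996.Park
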