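import Mathlib

/-!
# The differential inequality argument (pure real analysis)

Part of the project of helper996 on `MP_971c94_pr`; written by helper298.
-/

set_option autoImplicit false

namespace Pool.Agent.TH996.Park

/-- the pointwise inequality -/
lemma analysis_pointwise {C κ x y : ℝ} (hC : 0 < C) (J0 : ℕ) (hκ : 0 < κ) (hx : x ≤ 1 / κ) (hy : 0 ≤ y)
    (hxM : ((J0 : ℝ) + 2 + 8 * C) ^ 16 ≤ x)
    (hJ : ∀ J : ℕ, J0 ≤ J → 1 ≤ J → 2 * κ * J ≤ 1 → x ≤ C * (J * √(x + y) + y / √J)) :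
    min 1 (1 / (8 * C)) * x ^ (9 / 8 : ℝ) ≤ y := by
  by_contra hcon
  push Not at hcon
  have hJ00 : (0:ℝ) ≤ J0 := Nat.cast_nonneg _
  have hS2 : 2 ≤ (J0 : ℝ) + 2 + 8 * C := by linarith
  have hx0 : 0 < x := lt_of_lt_of_le (by positivity) hxM
  set s : ℝ := x ^ (1 / 16 : ℝ) with hs
  have hs0 : 0 < s := Real.rpow_pos_of_pos hx0 _
  have hxs : x = s ^ 16 := by
    rw [hs, ← Real.rpow_natCast, ← Real.rpow_mul hx0.le]; norm_num
  have hx98 : x ^ (9 / 8 : ℝ) = s ^ 18 := by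
    rw [hs, ← Real.rpow_natCast, ← Real.rpow_mul hx0.le]; norm_num
  have hsS : (J0 : ℝ) + 2 + 8 * C ≤ s := by
    rw [hxs] at hxM
    exact le_of_pow_le_pow_left₀ (by norm_num) hs0.le hxM
  have hs2 : 2 ≤ s := by linarith
  have hs4 : s ≤ s ^ 4 := by
    have : 1 ≤ s ^ 3 := one_le_pow₀ (by linarith)
    nlinarith
  have hs3 : s ≤ s ^ 3 := by
    have : 1 ≤ s ^ 2 := one_le_pow₀ (by linarith)
    nlinarith
  -- the choice of `J`
  set J : ℕ := ⌊s ^ 4⌋₊ with hJd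
  have hJle : (J : ℝ) ≤ s ^ 4 := Nat.floor_le (by positivity)
  have hJge : s ^ 4 - 1 < J := by
    have := Nat.lt_floor_add_one (s ^ 4)
    linarith
  have hJge' : s ^ 4 / 2 ≤ J := by linarith
  have hJ1 : 1 ≤ J := by
    rw [hJd, Nat.one_le_floor_iff]
    linarith
  have hJ0' : J0 ≤ J := by
    rw [hJd]
    apply Nat.le_floor
    linarith
  have hκ2 : 2 * κ * J ≤ 1 := by
    have h1 : κ * x ≤ 1 := by
      rw [le_div_iff₀ hκ] at hx; linarith
    have h2 : κ * s ^ 16 ≤ 1 := by rw [← hxs]; exact h1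
    have h3 : 2 ≤ s ^ 12 := by
      have : (2:ℝ) ^ 12 ≤ s ^ 12 := pow_le_pow_left₀ (by norm_num) hs2 12
      linarith [show (2:ℝ) ^ 12 = 4096 by norm_num]
    have h4 : 2 * κ * J ≤ 2 * κ * s ^ 4 := by gcongr
    have h5 : 2 * κ * s ^ 4 ≤ s ^ 12 * κ * s ^ 4 := by gcongr
    have h6 : s ^ 12 * κ * s ^ 4 = κ * s ^ 16 := by ring
    linarith
  have h7 := hJ J hJ0' hJ1 hκ2
  rw [hx98] at hcon
  set c : ℝ := min 1 (1 / (8 * C)) with hc
  have hc1 : c ≤ 1 := min_le_left _ _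
  have hc2 : c ≤ 1 / (8 * C) := min_le_right _ _
  have hc0 : 0 < c := lt_min one_pos (by positivity)
  have hy1 : y ≤ s ^ 18 := by
    have : c * s ^ 18 ≤ 1 * s ^ 18 := by gcongr
    linarith
  -- the square roots
  have hr1 : √(x + y) ≤ 2 * s ^ 9 := by
    rw [Real.sqrt_le_left (by positivity)]
    have h8 : s ^ 16 ≤ s ^ 18 := pow_le_pow_right₀ (by linarith) (by norm_num)
    have : (2 * s ^ 9) ^ 2 = 4 * s ^ 18 := by ring
    rw [this, hxs]
    have : 0 < s ^ 18 := by positivity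
    linarith
  have hr2 : s ^ 2 / 2 ≤ √J := by
    apply Real.le_sqrt_of_sq_le
    have : (s ^ 2 / 2) ^ 2 = s ^ 4 / 4 := by ring
    rw [this]
    have : 0 < s ^ 4 := by positivity
    linarith
  have hr3 : y / √J ≤ 2 * c * s ^ 16 := by
    have h8 : 0 < s ^ 2 / 2 := by positivity
    rw [div_le_iff₀ (lt_of_lt_of_le h8 hr2)]
    calc y ≤ c * s ^ 18 := hcon.le
      _ = 2 * c * s ^ 16 * (s ^ 2 / 2) := by ring
      _ ≤ _ := by gcongr
  have h8 : C * (J * √(x + y) + y / √J) ≤ C * (s ^ 4 * (2 * s ^ 9) + 2 * c * s ^ 16) := by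
    gcongr
  have h9 : C * (s ^ 4 * (2 * s ^ 9)) ≤ s ^ 16 / 4 := by
    have h10 : 8 * C ≤ s ^ 3 := by linarith
    calc C * (s ^ 4 * (2 * s ^ 9)) = (8 * C) * s ^ 13 / 4 := by ring
      _ ≤ s ^ 3 * s ^ 13 / 4 := by gcongr
      _ = _ := by ring
  have h10 : C * (2 * c * s ^ 16) ≤ s ^ 16 / 4 := by
    have h11 : C * c ≤ 1 / 8 := by
      calc C * c ≤ C * (1 / (8 * C)) := by gcongr
        _ = 1 / 8 := by field_simp
    calc C * (2 * c * s ^ 16) = (C * c) * (2 * s ^ 16) := by ring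
      _ ≤ 1 / 8 * (2 * s ^ 16) := by gcongr
      _ = _ := by ring
  have h11 : 0 < s ^ 16 := by positivity
  have h12 : x ≤ s ^ 16 / 4 + s ^ 16 / 4 := by
    calc x ≤ C * (J * √(x + y) + y / √J) := h7
      _ ≤ C * (s ^ 4 * (2 * s ^ 9) + 2 * c * s ^ 16) := h8
      _ = C * (s ^ 4 * (2 * s ^ 9)) + C * (2 * c * s ^ 16) := by ring
      _ ≤ _ := add_le_add h9 h10
  rw [hxs] at h12
  linarith

theorem final_analysis {C p0 p1 : ℝ} (hC : 0 < C) (J0 : ℕ) (h : p0 < p1) :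
    ∃ M : ℝ, ∀ (κ : ℝ) (m m' : ℝ → ℝ), 0 < κ → κ ≤ 1 / 4 →
      (∀ p ∈ Set.Icc p0 p1, HasDerivAt m (m' p) p) →
      (∀ p ∈ Set.Icc p0 p1, 0 ≤ m' p ∧ 0 ≤ m p ∧ m p ≤ 1 / κ) →
      (∀ p ∈ Set.Icc p0 p1, ∀ J : ℕ, J0 ≤ J → 1 ≤ J → 2 * κ * J ≤ 1 →
        m p ≤ C * (J * √(m p + m' p) + m' p / √J)) → m p0 ≤ M := by
  set c : ℝ := min 1 (1 / (8 * C)) with hc
  have hc0 : 0 < c := lt_min one_pos (by positivity)
  have hJ00 : (0:ℝ) ≤ J0 := Nat.cast_nonneg _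
  set M0 : ℝ := ((J0 : ℝ) + 2 + 8 * C) ^ 16 with hM0
  have hM0pos : 0 < M0 := by positivity
  refine ⟨max M0 ((8 / (c * (p1 - p0))) ^ 8), fun κ m m' hκ _ hd hb hJ => ?_⟩
  by_cases hm0 : m p0 ≤ M0
  · exact hm0.trans (le_max_left _ _)
  push Not at hm0
  refine le_trans ?_ (le_max_right _ _)
  have hcont : ContinuousOn m (Set.Icc p0 p1) := fun p hp => (hd p hp).continuousAt.continuousWithinAt
  have hmono : MonotoneOn m (Set.Icc p0 p1) := by
    refine monotoneOn_of_deriv_nonneg (convex_Icc _ _) hcont ?_ ?_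
    · intro p hp
      rw [interior_Icc] at hp
      exact (hd p (Set.Ioo_subset_Icc_self hp)).differentiableAt.differentiableWithinAt
    · intro p hp
      rw [interior_Icc] at hp
      rw [(hd p (Set.Ioo_subset_Icc_self hp)).deriv]
      exact (hb p (Set.Ioo_subset_Icc_self hp)).1
  have hge : ∀ p ∈ Set.Icc p0 p1, M0 ≤ m p := fun p hp =>
    hm0.le.trans (hmono (Set.left_mem_Icc.mpr h.le) hp hp.1)
  have hpos : ∀ p ∈ Set.Icc p0 p1, 0 < m p := fun p hp => hM0pos.trans_le (hge p hp)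
  have hder : ∀ p ∈ Set.Icc p0 p1, c * (m p) ^ (9 / 8 : ℝ) ≤ m' p := fun p hp =>
    analysis_pointwise hC J0 hκ (hb p hp).2.2 (hb p hp).1 (hge p hp) (hJ p hp)
  -- the auxiliary function
  set ψ : ℝ → ℝ := fun p => -(m p) ^ (-(1 / 8) : ℝ) - c / 8 * p with hψ
  have hψd : ∀ p ∈ Set.Icc p0 p1, HasDerivAt ψ (-(m' p * (-(1 / 8) : ℝ) * (m p) ^ ((-(1 / 8) : ℝ) - 1)) - c / 8) p := by
    intro p hp
    have h1 := ((hd p hp).rpow_const (p := (-(1 / 8) : ℝ)) (Or.inl (hpos p hp).ne')).neg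
    have h2 := (hasDerivAt_id p).const_mul (c / 8)
    have h3 := h1.sub h2
    rw [mul_one] at h3
    exact h3
  have hψmono : MonotoneOn ψ (Set.Icc p0 p1) := by
    refine monotoneOn_of_deriv_nonneg (convex_Icc _ _) (fun p hp => (hψd p hp).continuousAt.continuousWithinAt) ?_ ?_
    · intro p hp
      rw [interior_Icc] at hp
      exact (hψd p (Set.Ioo_subset_Icc_self hp)).differentiableAt.differentiableWithinAt
    · intro p hp
      rw [interior_Icc] at hp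
      have hp' := Set.Ioo_subset_Icc_self hp
      rw [(hψd p hp').deriv]
      have h1 := hder p hp'
      have h2 : 0 < (m p) ^ ((-(1 / 8) : ℝ) - 1) := Real.rpow_pos_of_pos (hpos p hp') _
      have h3 : (m p) ^ (9 / 8 : ℝ) * (m p) ^ ((-(1 / 8) : ℝ) - 1) = 1 := by
        rw [← Real.rpow_add (hpos p hp')]; norm_num
      have h4 : c * (m p) ^ (9 / 8 : ℝ) * (m p) ^ ((-(1 / 8) : ℝ) - 1) ≤ m' p * (m p) ^ ((-(1 / 8) : ℝ) - 1) :=
        mul_le_mul_of_nonneg_right h1 h2.le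
      rw [mul_assoc, h3, mul_one] at h4
      have h5 : -(m' p * (-(1 / 8) : ℝ) * (m p) ^ ((-(1 / 8) : ℝ) - 1)) - c / 8 =
        (m' p * (m p) ^ ((-(1 / 8) : ℝ) - 1) - c) / 8 := by ring
      rw [h5]
      linarith
  have h1 := hψmono (Set.left_mem_Icc.mpr h.le) (Set.right_mem_Icc.mpr h.le) h.le
  simp only [hψ] at h1
  have hm1 : 0 < (m p1) ^ (-(1 / 8) : ℝ) := Real.rpow_pos_of_pos (hpos p1 (Set.right_mem_Icc.mpr h.le)) _
  have hmp0 := hpos p0 (Set.left_mem_Icc.mpr h.le)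
  set t : ℝ := (m p0) ^ (1 / 8 : ℝ) with ht
  have ht0 : 0 < t := Real.rpow_pos_of_pos hmp0 _
  have ht1 : (m p0) ^ (-(1 / 8) : ℝ) = t⁻¹ := by rw [ht, Real.rpow_neg hmp0.le]
  have ht8 : m p0 = t ^ 8 := by
    rw [ht, ← Real.rpow_natCast, ← Real.rpow_mul hmp0.le]; norm_num
  rw [ht1] at h1
  have hpp : 0 < c * (p1 - p0) := mul_pos hc0 (by linarith)
  have h2 : c * (p1 - p0) / 8 ≤ t⁻¹ := by linarith
  have h3 : t ≤ 8 / (c * (p1 - p0)) := by
    rw [le_div_iff₀ hpp]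
    have h4 : c * (p1 - p0) / 8 * t ≤ t⁻¹ * t := mul_le_mul_of_nonneg_right h2 ht0.le
    rw [inv_mul_cancel₀ ht0.ne'] at h4
    linarith
  rw [ht8]
  exact pow_le_pow_left₀ ht0.le h3 8

end Pool.Agent.TH996.Park
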