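import Pool.Agent.TH996.Rec.Sec

/-!
Correlation of the noise with the number of departures.
-/

namespace Pool.Agent.TH996.Park

open MeasureTheory Measure Finset
open scoped ENNReal

variable {V : Type*} [DecidableEq V]

/-! ### deterministic part -/

lemma stt_dir (nb : V → Finset V) (α : ℕ × V × ℕ) (ω : Om V) (w w' : V) (t : ℕ) :
    stt nb t (upd α ω (w, true)) = stt nb t (upd α ω (w', true)) := by
  induction t with
  | zero => rfl
  | succ t ih =>
    have e0 : ∀ ω : Om V, stt nb (t + 1) ω = stp nb ω.2.1 ω.2.2 t (stt nb t ω) := fun _ => rfl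
    rw [e0, e0, ih]
    have e2 : ∀ x, arr nb (upd α ω (w, true)).2.1 (upd α ω (w, true)).2.2
        (stt nb t (upd α ω (w', true))).1 t x =
        arr nb (upd α ω (w', true)).2.1 (upd α ω (w', true)).2.2
        (stt nb t (upd α ω (w', true))).1 t x := by
      intro x
      unfold arr
      refine sum_congr rfl fun y _ => ?_
      congr 1
      refine filter_congr fun i _ => ?_
      by_cases hne : ((t, y, i) : ℕ × V × ℕ) = α
      · simp [upd, hne]
      · simp [upd, Function.update_of_ne hne]
    unfold stp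
    simp only [e2]

lemma Cn_dir (nb : V → Finset V) (α : ℕ × V × ℕ) (ω : Om V) (w w' : V) (t : ℕ) (x : V) :
    Cn nb t x (upd α ω (w, true)) = Cn nb t x (upd α ω (w', true)) :=
  congrFun (congrArg Prod.fst (stt_dir nb α ω w w' t)) x

lemma Fn_dir (nb : V → Finset V) (α : ℕ × V × ℕ) (ω : Om V) (w w' : V) (t : ℕ) (x : V) :
    Fn nb t x (upd α ω (w, true)) = Fn nb t x (upd α ω (w', true)) :=
  congrFun (congrArg Prod.snd (stt_dir nb α ω w w' t)) x

lemma Nv_dir (nb : V → Finset V) (α : ℕ × V × ℕ) (ω : Om V) (w w' : V) (k s : ℕ)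
    (hs : α.1 < s) (v x : V) :
    Nv nb k s v x (upd α ω (w, true)) = Nv nb k s v x (upd α ω (w', true)) := by
  induction k generalizing s v with
  | zero => rfl
  | succ k ih =>
    have hne : ∀ n, ((s, v, n) : ℕ × V × ℕ) ≠ α := by
      rintro n rfl
      exact absurd hs (lt_irrefl _)
    rw [Nv_succ, Nv_succ, Cn_dir nb α ω w w', Fn_dir nb α ω w w', ih (s + 1) (by omega) v]
    have e1 : ∀ w n, (upd α ω (w, true)).2.2 (s, v, n) = ω.2.2 (s, v, n) := by
      intro w n
      simp [upd, Function.update_of_ne (hne n)]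
    have e2 : ∀ w n, (upd α ω (w, true)).2.1 (s, v, n) = ω.2.1 (s, v, n) := by
      intro w n
      simp [upd, Function.update_of_ne (hne n)]
    rw [e1, e1, e2, e2, ih (s + 1) (by omega)]

lemma Dn_dir (S : Tri V) (α : ℕ × V × ℕ) (ω : Om V) (w w' : V) (T : ℕ) (x : V) :
    Dn S T x (upd α ω (w, true)) = Dn S T x (upd α ω (w', true)) := by
  unfold Dn
  exact sum_congr rfl fun t _ => by rw [Cn_dir S.nb α ω w w' t x]

lemma dpk_congr (nb : V → Finset V) {ξ ξ' : ℕ × V × ℕ → V} {b b' : ℕ × V × ℕ → Bool} (k s : ℕ)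
    (h : ∀ t, s ≤ t → ∀ y i, ξ (t, y, i) = ξ' (t, y, i) ∧ b (t, y, i) = b' (t, y, i))
    (σ : (V → ℕ) × (V → ℕ)) (x : V) : dpk nb ξ b k s σ x = dpk nb ξ' b' k s σ x := by
  induction k generalizing s σ with
  | zero => rfl
  | succ k ih =>
    have e : stp nb ξ b s σ = stp nb ξ' b' s σ := by
      have e2 : ∀ x, arr nb ξ b σ.1 s x = arr nb ξ' b' σ.1 s x := by
        intro x
        unfold arr
        refine sum_congr rfl fun y _ => ?_
        congr 1
        refine filter_congr fun i _ => ?_
        rw [(h s le_rfl y i).1, (h s le_rfl y i).2]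
      unfold stp
      simp only [e2]
    unfold dpk
    rw [e, ih (s + 1) fun t ht => h t (by omega)]

lemma dpk_stt (nb : V → Finset V) (k s : ℕ) (ω : Om V) (x : V) :
    dpk nb ω.2.1 ω.2.2 k s (stt nb s ω) x = ∑ j ∈ range k, Cn nb (s + j) x ω := by
  induction k generalizing s with
  | zero => rfl
  | succ k ih =>
    have e0 : stt nb (s + 1) ω = stp nb ω.2.1 ω.2.2 s (stt nb s ω) := rfl
    unfold dpk
    rw [← e0, ih, sum_range_succ', add_comm]
    congr 1
    exact sum_congr rfl fun j _ => by rw [show s + 1 + j = s + (j + 1) by ring]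

lemma Dn_split (S : Tri V) (T t : ℕ) (ht : t < T) (x : V) (ω : Om V) :
    Dn S T x ω = ∑ j ∈ range (t + 1), (Cn S.nb j x ω : ℝ) +
      (dpk S.nb ω.2.1 ω.2.2 (T - t - 1) (t + 1) (stt S.nb (t + 1) ω) x : ℕ) := by
  rw [dpk_stt]
  push_cast
  unfold Dn
  have h : T = (t + 1) + (T - t - 1) := by omega
  conv_lhs => rw [h]
  rw [sum_range_add]

lemma arr_card (nb : V → Finset V) (hnb : ∀ x y, y ∈ nb x → x ∈ nb y)
    (α : ℕ × V × ℕ) (ω : Om V) (w : V) (hw : w ∈ nb α.2.1) (c : V → ℕ) (hi : α.2.2 < c α.2.1)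
    (x : V) :
    arr nb (upd α ω (w, false)).2.1 (upd α ω (w, false)).2.2 c α.1 x =
      arr nb (upd α ω (w, true)).2.1 (upd α ω (w, true)).2.2 c α.1 x + if x = w then 1 else 0 := by
  obtain ⟨t, y, i⟩ := α
  simp only at hw hi ⊢
  unfold arr
  by_cases hx : x = w
  · subst hx
    have hy : y ∈ nb x := hnb _ _ hw
    rw [if_pos rfl, ← add_sum_erase _ _ hy, ← add_sum_erase (nb x) (fun y' =>
      ((range (c y')).filter fun i' => (upd (t, y, i) ω (x, true)).2.2 (t, y', i') = false ∧
        (upd (t, y, i) ω (x, true)).2.1 (t, y', i') = x).card) hy]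
    have e1 : ∑ y' ∈ (nb x).erase y, ((range (c y')).filter fun i' =>
        (upd (t, y, i) ω (x, false)).2.2 (t, y', i') = false ∧
        (upd (t, y, i) ω (x, false)).2.1 (t, y', i') = x).card =
        ∑ y' ∈ (nb x).erase y, ((range (c y')).filter fun i' =>
        (upd (t, y, i) ω (x, true)).2.2 (t, y', i') = false ∧
        (upd (t, y, i) ω (x, true)).2.1 (t, y', i') = x).card := by
      refine sum_congr rfl fun y' hy' => ?_
      congr 1
      refine filter_congr fun i' _ => ?_
      have hne : ((t, y', i') : ℕ × V × ℕ) ≠ (t, y, i) := by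
        intro e
        simp only [Prod.mk.injEq] at e
        exact ne_of_mem_erase hy' e.2.1
      simp [upd, Function.update_of_ne hne]
    have e2 : (range (c y)).filter (fun i' => (upd (t, y, i) ω (x, false)).2.2 (t, y, i') = false ∧
        (upd (t, y, i) ω (x, false)).2.1 (t, y, i') = x) =
        insert i ((range (c y)).filter fun i' => (upd (t, y, i) ω (x, true)).2.2 (t, y, i') = false ∧
        (upd (t, y, i) ω (x, true)).2.1 (t, y, i') = x) := by
      ext i'
      rw [mem_insert, mem_filter, mem_filter]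
      by_cases hii : i' = i
      · subst hii
        simp [upd, hi]
      · have hne : ((t, y, i') : ℕ × V × ℕ) ≠ (t, y, i) := by
          intro e
          simp only [Prod.mk.injEq] at e
          exact hii e.2.2
        simp [upd, hii]
    rw [e1, e2, card_insert_of_notMem]
    · omega
    · intro hmem
      rw [mem_filter] at hmem
      simp [upd] at hmem
  · rw [if_neg hx, add_zero]
    refine sum_congr rfl fun y' _ => ?_
    congr 1
    refine filter_congr fun i' _ => ?_
    by_cases hne : ((t, y', i') : ℕ × V × ℕ) = (t, y, i)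
    · rw [hne]
      simp [upd, Ne.symm hx]
    · simp [upd, Function.update_of_ne hne]

/-- keeping or killing the car `α` -/
lemma Dn_diff (S : Tri V) (α : ℕ × V × ℕ) (ω : Om V) (w : V) (hw : w ∈ S.nb α.2.1)
    (hi : α.2.2 < Cn S.nb α.1 α.2.1 ω) (T : ℕ) (hT : α.1 < T) (x : V) :
    Dn S T x (upd α ω (w, false)) = Dn S T x (upd α ω (w, true)) +
      Nv S.nb (T - α.1 - 1) (α.1 + 1) w x (upd α ω (w, true)) := by
  have hst : ∀ q : V × Bool, ∀ s ≤ α.1, stt S.nb s (upd α ω q) = stt S.nb s ω := by
    intro q s hs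
    refine st_congr S.nb (c0 ω.1) (f0 ω.1) s ?_
    intro t' ht' y' i'
    have hne : ((t', y', i') : ℕ × V × ℕ) ≠ α := by
      rintro rfl
      simp only at hs
      omega
    simp [upd, Function.update_of_ne hne]
  have hC : ∀ j ∈ range (α.1 + 1), (Cn S.nb j x (upd α ω (w, false)) : ℝ) =
      Cn S.nb j x (upd α ω (w, true)) := by
    intro j hj
    rw [mem_range] at hj
    have h1 : stt S.nb j (upd α ω (w, false)) = stt S.nb j (upd α ω (w, true)) := by
      rw [hst _ j (by omega), hst _ j (by omega)]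
    have h2 : Cn S.nb j x (upd α ω (w, false)) = Cn S.nb j x (upd α ω (w, true)) :=
      congrFun (congrArg Prod.fst h1) x
    rw [h2]
  have hp : stt S.nb (α.1 + 1) (upd α ω (w, false)) =
      pert w (stt S.nb (α.1 + 1) (upd α ω (w, true))) := by
    have e0 : ∀ ω : Om V, stt S.nb (α.1 + 1) ω = stp S.nb ω.2.1 ω.2.2 α.1 (stt S.nb α.1 ω) :=
      fun _ => rfl
    rw [e0, e0, hst _ _ le_rfl, hst _ _ le_rfl]
    exact pert_of_arr w fun x => arr_card S.nb S.symm α ω w hw _ hi x
  rw [Dn_split S T α.1 hT x (upd α ω (w, false)), Dn_split S T α.1 hT x (upd α ω (w, true)),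
    sum_congr rfl hC, hp]
  rw [dpk_congr S.nb (ξ := (upd α ω (w, false)).2.1) (ξ' := (upd α ω (w, true)).2.1)
    (b := (upd α ω (w, false)).2.2) (b' := (upd α ω (w, true)).2.2), Nv_eq S.nb S.symm, add_assoc]
  intro t ht y i
  have hne : ((t, y, i) : ℕ × V × ℕ) ≠ α := by
    rintro rfl
    simp only at ht
    omega
  simp [upd, Function.update_of_ne hne]

/-! ### excursions -/

lemma exc_aux (S : Tri V) (z x : V) (k : ℕ) : ∀ (u h : V → ℝ) (L : Finset V),
    (∀ v, v ∉ L → u v = 0) → (∀ v, 0 ≤ h v) → (∀ v, v ≠ z → u v + S.P h v ≤ h v) →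
    ∑ v ∈ L, u v * gk S z x k v ≤ h x := by
  induction k with
  | zero =>
    intro u h L _ h0 _
    simpa [gk] using h0 x
  | succ k ih =>
    intro u h L hu h0 hh
    set u1 : V → ℝ := fun v => if v = z then 0 else u v with hu1
    have hu1L : ∀ v, v ∉ L → u1 v = 0 := fun v hv => by
      simp only [hu1]; split_ifs; · rfl
      exact hu v hv
    set L' := L ∪ L.biUnion S.nb with hL'
    have hsub : ∀ v ∈ L, S.nb v ⊆ L' := fun v hv =>
      (subset_biUnion_of_mem S.nb hv).trans subset_union_right
    have e1 : ∑ v ∈ L, u v * gk S z x (k + 1) v =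
        u1 x + ∑ v ∈ L', S.P u1 v * gk S z x k v := by
      have e2 := S.rev.adj u1 (gk S z x k) L L' hu1L hsub
      have e3 : ∑ v ∈ L', S.P u1 v * gk S z x k v = ∑ v ∈ L, u1 v * S.Q (gk S z x k) v := e2
      rw [e3]
      have e4 : ∀ v ∈ L, u v * gk S z x (k + 1) v =
          (if v = x then u1 v else 0) + u1 v * S.Q (gk S z x k) v := by
        intro v _
        rw [gk]
        simp only [hu1]
        by_cases hvz : v = z
        · simp [hvz]
        · by_cases hvx : v = x
          · rw [if_neg hvz, if_neg hvz, if_pos hvx, if_pos hvx]; ring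
          · rw [if_neg hvz, if_neg hvz, if_neg hvx, if_neg hvx]; ring
      rw [sum_congr rfl e4, sum_add_distrib, sum_ite_eq']
      congr 1
      split_ifs with hx
      · rfl
      · exact (hu1L x hx).symm
    rw [e1]
    have hP : ∀ v, S.P (fun y => h y - u1 y) v = S.P h v - S.P u1 v := by
      intro v
      simp only [Tri.P, mul_sub, sum_sub_distrib]
    have hP0 : ∀ v, 0 ≤ S.P h v := fun v =>
      sum_nonneg fun y _ => mul_nonneg (S.nonneg _ _) (h0 _)
    have h3 := ih (S.P u1) (fun y => h y - u1 y) L' ?_ ?_ ?_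
    · linarith
    · intro v hv
      refine sum_eq_zero fun y hy => ?_
      rw [hu1L y, mul_zero]
      intro hyL
      exact hv (hsub y hyL (S.symm _ _ hy))
    · intro v
      simp only [hu1]
      split_ifs with hvz
      · simpa using h0 v
      · have := hh v hvz
        have := hP0 v
        linarith
    · intro v hv
      rw [hP]
      have h4 := hh v hv
      have h5 : u1 v = u v := by simp only [hu1, if_neg hv]
      rw [h5]
      linarith

/-- mean number of visits to `x` during an excursion from `z` -/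
lemma Q_gk_le (S : Tri V) (z x : V) (k : ℕ) :
    S.Q (gk S z x k) z ≤ if x = z then 0 else 1 := by
  refine exc_aux S z x k (fun v => S.K z v) (fun v => if v = z then 0 else 1) (S.nb z) ?_ ?_ ?_
  · intro v hv
    exact S.supp z v hv
  · intro v
    split_ifs <;> norm_num
  · intro v hv
    rw [if_neg hv]
    have h1 : S.P (fun v => if v = z then (0 : ℝ) else 1) v = 1 - S.K z v := by
      unfold Tri.P
      have e : ∀ y ∈ S.nb v, S.K y v * (if y = z then (0 : ℝ) else 1) =
          S.K y v - if y = z then S.K y v else 0 := by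
        intro y _
        split_ifs <;> simp
      rw [sum_congr rfl e, sum_sub_distrib, S.col_one, sum_ite_eq']
      split_ifs with hz
      · rfl
      · rw [S.supp z v fun h => hz (S.symm _ _ h)]
    rw [h1]
    linarith

end Pool.Agent.TH996.Park
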