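import Pool.Agent.TH996.Rec.Corr

/-!
Correlation of the noise with the number of departures: the estimate.
-/

namespace Pool.Agent.TH996.Park

open MeasureTheory Measure Finset
open scoped ENNReal

variable {V : Type*} [DecidableEq V] [MeasurableSpace V] [MeasurableSingletonClass V] [Countable V]

section

variable (S : Tri V) {p κ : ℝ}

/-- the car `α` exists and is killed -/
noncomputable def Yk (α : ℕ × V × ℕ) (ω : Om V) : ℝ :=
  ind S α ω * if ω.2.2 α = true then 1 else 0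

omit [MeasurableSpace V] [MeasurableSingletonClass V] [Countable V] in
lemma ind_nonneg (α : ℕ × V × ℕ) (ω : Om V) : 0 ≤ ind S α ω := by
  unfold ind; split_ifs <;> norm_num

omit [MeasurableSpace V] [MeasurableSingletonClass V] [Countable V] in
lemma Yk_nonneg (α : ℕ × V × ℕ) (ω : Om V) : 0 ≤ Yk S α ω :=
  mul_nonneg (ind_nonneg S α ω) (by split_ifs <;> norm_num)

omit [Countable V] in
lemma bm_Yk (α : ℕ × V × ℕ) : BM (Yk S α) := by
  refine (bm_ind S α).mul ⟨?_, 1, fun ω => by split_ifs <;> simp⟩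
  exact Measurable.ite (meas_b α (measurableSet_singleton true)) measurable_const measurable_const

omit [MeasurableSpace V] [MeasurableSingletonClass V] [Countable V] in
lemma ad_Yk (α : ℕ × V × ℕ) : Ad S.nb (Yk S α) := by
  intro β ω q h
  unfold Yk ind
  rw [Cn_unused S.nb β ω q h]
  by_cases hβ : α = β
  · subst hβ
    rw [if_neg (not_lt.2 h)]
    simp
  · congr 2
    simp [upd, Function.update_of_ne hβ]

omit [MeasurableSpace V] [MeasurableSingletonClass V] [Countable V] in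
lemma Fn_of_Yk (α : ℕ × V × ℕ) (ω : Om V) (h : Yk S α ω ≠ 0) : Fn S.nb α.1 α.2.1 ω = 0 := by
  by_contra hne
  have h1 : Cn S.nb α.1 α.2.1 ω = 0 := cs_eq_zero S.nb ω.2.1 ω.2.2 (c0 ω.1) (f0 ω.1) α.2.1
    (c0_add_f0 ω.1 α.2.1) α.1 α.1 le_rfl (Nat.pos_of_ne_zero hne)
  refine h ?_
  unfold Yk ind
  rw [h1]
  simp

/-- mean number of departures from `x` due to an additional car at `v` after the step of `α` -/
noncomputable def ea (p κ : ℝ) (T : ℕ) (α : ℕ × V × ℕ) (v x : V) : ℝ :=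
  ∫ ω, ind S α ω * Nv S.nb (T - α.1 - 1) (α.1 + 1) v x (upd α ω (v, true)) ∂(S.law p κ)

variable (hp : 0 ≤ p ∧ p ≤ 1) (hκ : 0 ≤ κ ∧ κ ≤ 1)

include hp hκ in
lemma integral_Yk (α : ℕ × V × ℕ) :
    ∫ ω, Yk S α ω ∂(S.law p κ) = κ * ∫ ω, ind S α ω ∂(S.law p κ) := by
  have := law_prob S hp hκ
  rw [integral_avg S hp hκ (bm_Yk S α) α, ← integral_const_mul]
  congr 1
  funext ω
  have e : ∀ w ∈ S.nb α.2.1, S.K α.2.1 w * (κ * Yk S α (upd α ω (w, true)) +
      (1 - κ) * Yk S α (upd α ω (w, false))) = S.K α.2.1 w * (κ * ind S α ω) := by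
    intro w _
    unfold Yk
    rw [ind_upd S α α le_rfl, ind_upd S α α le_rfl]
    simp [upd]
  rw [sum_congr rfl e, ← sum_mul, S.sum_one, one_mul]

include hp hκ in
lemma integral_Yk_Nv (T : ℕ) (α : ℕ × V × ℕ) (v x : V) :
    ∫ ω, Yk S α ω * Nv S.nb (T - α.1 - 1) (α.1 + 1) v x ω ∂(S.law p κ) =
      κ * ea S p κ T α v x := by
  have := law_prob S hp hκ
  unfold ea
  rw [integral_avg S hp hκ ((bm_Yk S α).mul (bm_Nv S.nb _ _ v x)) α, ← integral_const_mul]
  congr 1
  funext ω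
  have e : ∀ w ∈ S.nb α.2.1, S.K α.2.1 w * (κ * (Yk S α (upd α ω (w, true)) *
      Nv S.nb (T - α.1 - 1) (α.1 + 1) v x (upd α ω (w, true))) +
      (1 - κ) * (Yk S α (upd α ω (w, false)) *
      Nv S.nb (T - α.1 - 1) (α.1 + 1) v x (upd α ω (w, false)))) =
      S.K α.2.1 w * (κ * (ind S α ω *
        Nv S.nb (T - α.1 - 1) (α.1 + 1) v x (upd α ω (v, true)))) := by
    intro w _
    unfold Yk
    rw [ind_upd S α α le_rfl, ind_upd S α α le_rfl,
      Nv_dir S.nb α ω w v _ _ (Nat.lt_succ_self _)]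
    simp [upd]
  rw [sum_congr rfl e, ← sum_mul, S.sum_one, one_mul]

omit [MeasurableSingletonClass V] [Countable V] in
lemma ea_nonneg (T : ℕ) (α : ℕ × V × ℕ) (v x : V) : 0 ≤ ea S p κ T α v x :=
  integral_nonneg fun ω => mul_nonneg (ind_nonneg S α ω) (Nv_nonneg _ _ _ _ _ _)

omit [MeasurableSingletonClass V] [Countable V] in
lemma E1_nonneg (α : ℕ × V × ℕ) : 0 ≤ ∫ ω, ind S α ω ∂(S.law p κ) :=
  integral_nonneg fun ω => ind_nonneg S α ω

include hp in
lemma ea_start (hκ0 : 0 < κ) (hκ1 : κ ≤ 1) (T : ℕ) (α : ℕ × V × ℕ) (z v x : V) :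
    ea S p κ T α v x ≤ ea S p κ T α z x +
      gk S z x (T - α.1 - 1) v * ∫ ω, ind S α ω ∂(S.law p κ) := by
  have hκ : 0 ≤ κ ∧ κ ≤ 1 := ⟨hκ0.le, hκ1⟩
  have h := Nv_start S (x := x) hp hκ z (T - α.1 - 1) (α.1 + 1) v (Yk S α) (bm_Yk S α) (ad_Yk S α)
    (Yk_nonneg S α)
  rw [integral_Yk_Nv S hp hκ, integral_Yk_Nv S hp hκ, integral_Yk S hp hκ] at h
  have h2 : κ * ea S p κ T α v x ≤ κ * (ea S p κ T α z x +
      gk S z x (T - α.1 - 1) v * ∫ ω, ind S α ω ∂(S.law p κ)) := by linarith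
  exact le_of_mul_le_mul_left h2 hκ0

include hp in
lemma ea_lower (hκ0 : 0 < κ) (hκ1 : κ ≤ 1) (T : ℕ) (α : ℕ × V × ℕ) (x : V) :
    ea S p κ T α α.2.1 x ≤ (if α.2.1 = x then 1 else 0) * ∫ ω, ind S α ω ∂(S.law p κ) +
      (1 - κ) * S.Q (fun w => ea S p κ T α w x) α.2.1 := by
  have hκ : 0 ≤ κ ∧ κ ≤ 1 := ⟨hκ0.le, hκ1⟩
  have h := Nv_later S (x := x) hp hκ (T - α.1 - 1) α.1 α.2.1 (Yk S α) (bm_Yk S α) (ad_Yk S α)
    (Yk_nonneg S α)
  rw [integral_Nv_succ S hp hκ (bm_Yk S α) (ad_Yk S α) _ _ _ (Fn_of_Yk S α),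
    integral_Yk_Nv S hp hκ, integral_Yk S hp hκ] at h
  simp_rw [integral_Yk_Nv S hp hκ] at h
  rw [Q_smul] at h
  have h2 : κ * ea S p κ T α α.2.1 x ≤ κ * ((if α.2.1 = x then 1 else 0) *
      ∫ ω, ind S α ω ∂(S.law p κ) + (1 - κ) * S.Q (fun w => ea S p κ T α w x) α.2.1) := by
    linarith
  exact le_of_mul_le_mul_left h2 hκ0

include hp in
lemma ea_total (hκ0 : 0 < κ) (hκ1 : κ ≤ 1) (T : ℕ) (α : ℕ × V × ℕ) (v : V) (L : Finset V) :
    κ * ∑ x ∈ L, ea S p κ T α v x ≤ ∫ ω, ind S α ω ∂(S.law p κ) := by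
  have hκ : 0 ≤ κ ∧ κ ≤ 1 := ⟨hκ0.le, hκ1⟩
  have h := Nv_total S hp hκ0.le hκ1 L (T - α.1 - 1) (α.1 + 1) v (Yk S α) (bm_Yk S α) (ad_Yk S α)
    (Yk_nonneg S α)
  simp_rw [integral_Yk_Nv S hp hκ] at h
  rw [integral_Yk S hp hκ, ← mul_sum] at h
  have h2 : κ * (κ * ∑ x ∈ L, ea S p κ T α v x) ≤ κ * ∫ ω, ind S α ω ∂(S.law p κ) := h
  exact le_of_mul_le_mul_left h2 hκ0

include hp in
/-- oscillation over the possible steps -/
lemma ea_osc (hκ0 : 0 < κ) (hκ1 : κ ≤ 1) (T : ℕ) (α : ℕ × V × ℕ) (x : V) :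
    ∑ w ∈ S.nb α.2.1, S.K α.2.1 w *
      |ea S p κ T α w x - (1 - κ) * S.Q (fun w => ea S p κ T α w x) α.2.1| ≤
      2 * ∫ ω, ind S α ω ∂(S.law p κ) := by
  set y := α.2.1 with hy
  set E := ∫ ω, ind S α ω ∂(S.law p κ) with hE
  have hE0 : 0 ≤ E := E1_nonneg S α
  set c := (1 - κ) * S.Q (fun w => ea S p κ T α w x) y with hc
  have hQ0 : 0 ≤ S.Q (fun w => ea S p κ T α w x) y := by
    have := S.Q_mono (f := fun _ => 0) (fun w => ea_nonneg S (p := p) (κ := κ) T α w x) y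
    rwa [S.Q_zero] at this
  have h1 : ∀ w, ea S p κ T α w x - c ≤ ((if y = x then 1 else 0) +
      gk S y x (T - α.1 - 1) w) * E := by
    intro w
    have a1 := ea_start S hp hκ0 hκ1 T α y w x
    have a2 := ea_lower S hp hκ0 hκ1 T α x
    rw [← hE] at a1 a2
    rw [← hy] at a2
    linarith
  have h2 : ∀ w, |ea S p κ T α w x - c| ≤ 2 * (((if y = x then 1 else 0) +
      gk S y x (T - α.1 - 1) w) * E) - (ea S p κ T α w x - c) := by
    intro w
    have a0 : 0 ≤ ((if y = x then (1 : ℝ) else 0) + gk S y x (T - α.1 - 1) w) * E := by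
      refine mul_nonneg (add_nonneg (by split_ifs <;> norm_num) (gk_nonneg S y _ w)) hE0
    have a1 := h1 w
    rcases abs_cases (ea S p κ T α w x - c) with ⟨h, _⟩ | ⟨h, _⟩ <;> rw [h] <;> linarith
  have h3 := S.Q_mono h2 y
  have e1 : S.Q (fun w => 2 * (((if y = x then 1 else 0) +
      gk S y x (T - α.1 - 1) w) * E) - (ea S p κ T α w x - c)) y =
      2 * E * ((if y = x then 1 else 0) + S.Q (gk S y x (T - α.1 - 1)) y) -
        (S.Q (fun w => ea S p κ T α w x) y - c) := by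
    have e2 : ∀ w, 2 * (((if y = x then (1 : ℝ) else 0) +
      gk S y x (T - α.1 - 1) w) * E) - (ea S p κ T α w x - c) =
      (2 * E * (if y = x then 1 else 0) + c) + (2 * E * gk S y x (T - α.1 - 1) w +
        (-1) * ea S p κ T α w x) := by intro w; ring
    simp_rw [e2]
    rw [Q_add S (fun _ => 2 * E * (if y = x then (1 : ℝ) else 0) + c)
      (fun w => 2 * E * gk S y x (T - α.1 - 1) w + (-1) * ea S p κ T α w x),
      Q_add S (fun w => 2 * E * gk S y x (T - α.1 - 1) w) (fun w => (-1) * ea S p κ T α w x),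
      Q_const, Q_smul, Q_smul]
    ring
  rw [e1] at h3
  have h4 := Q_gk_le S y x (T - α.1 - 1)
  have h5 : (if y = x then (1 : ℝ) else 0) + S.Q (gk S y x (T - α.1 - 1)) y ≤ 1 := by
    by_cases hyx : y = x
    · rw [if_pos hyx.symm] at h4; rw [if_pos hyx]; linarith
    · rw [if_neg (Ne.symm hyx)] at h4; rw [if_neg hyx]; linarith
  have h6 : 2 * E * ((if y = x then 1 else 0) + S.Q (gk S y x (T - α.1 - 1)) y) ≤ 2 * E * 1 :=
    mul_le_mul_of_nonneg_left h5 (by linarith)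
  have h7 : 0 ≤ S.Q (fun w => ea S p κ T α w x) y - c := by
    rw [hc]
    have : 0 ≤ κ * S.Q (fun w => ea S p κ T α w x) y := mul_nonneg hκ0.le hQ0
    linarith
  calc _ = S.Q (fun w => |ea S p κ T α w x - c|) y := rfl
    _ ≤ _ := by linarith

include hp hκ in
/-- covariance of a martingale increment with the number of departures -/
lemma integral_inc_Dn (o x : V) (J T : ℕ) (α : ℕ × V × ℕ) (hT : α.1 < T) :
    ∫ ω, inc S (1 - κ) o J α ω * Dn S T x ω ∂(S.law p κ) =
      (1 - κ) * S.Q (fun w => (S.U (1 - κ) o J w - hb S (1 - κ) o J α.2.1) *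
        ea S p κ T α w x) α.2.1 := by
  have := law_prob S hp hκ
  have ha : 0 ≤ 1 - κ := by linarith [hκ.2]
  have ha1 : 1 - κ ≤ 1 := by linarith [hκ.1]
  have hDb : BM (Dn S T x) := BM.sum _ fun t _ => bm_C S.nb t x
  set y := α.2.1 with hy
  set b := hb S (1 - κ) o J y with hbd
  have hN : ∀ w, BM (fun ω => ind S α ω *
      Nv S.nb (T - α.1 - 1) (α.1 + 1) w x (upd α ω (w, true))) := fun w =>
    (bm_ind S α).mul (bm_upd (bm_Nv S.nb _ _ w x) α (w, true))
  rw [integral_avg S hp hκ ((bm_inc S ha ha1 o J α).mul hDb) α]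
  have key : ∀ ω : Om V, ∑ w ∈ S.nb y, S.K y w *
      (κ * (inc S (1 - κ) o J α (upd α ω (w, true)) * Dn S T x (upd α ω (w, true))) +
      (1 - κ) * (inc S (1 - κ) o J α (upd α ω (w, false)) * Dn S T x (upd α ω (w, false)))) =
      (1 - κ) * S.Q (fun w => (S.U (1 - κ) o J w - b) * (ind S α ω *
        Nv S.nb (T - α.1 - 1) (α.1 + 1) w x (upd α ω (w, true)))) y := by
    intro ω
    have e1 : ∀ w ∈ S.nb y, S.K y w *
      (κ * (inc S (1 - κ) o J α (upd α ω (w, true)) * Dn S T x (upd α ω (w, true))) +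
      (1 - κ) * (inc S (1 - κ) o J α (upd α ω (w, false)) * Dn S T x (upd α ω (w, false)))) =
      S.K y w * (ind S α ω * Dn S T x (upd α ω (y, true)) *
        ((1 - κ) * S.U (1 - κ) o J w - b)) +
      (1 - κ) * (S.K y w * ((S.U (1 - κ) o J w - b) * (ind S α ω *
        Nv S.nb (T - α.1 - 1) (α.1 + 1) w x (upd α ω (w, true))))) := by
      intro w hw
      have i1 : inc S (1 - κ) o J α (upd α ω (w, true)) = ind S α ω * (0 - b) := by
        unfold inc
        rw [ind_upd S α α le_rfl]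
        simp [hf, upd, hbd, hy]
      have i2 : inc S (1 - κ) o J α (upd α ω (w, false)) =
          ind S α ω * (S.U (1 - κ) o J w - b) := by
        unfold inc
        rw [ind_upd S α α le_rfl]
        have hw' : w ∈ S.nb α.2.1 := hw
        simp [hf, upd, hbd, hy, hw']
      rw [i1, i2]
      by_cases hi : α.2.2 < Cn S.nb α.1 α.2.1 ω
      · rw [Dn_diff S α ω w hw hi T hT x, Dn_dir S α ω w y T x]
        ring
      · have : ind S α ω = 0 := by unfold ind; rw [if_neg hi]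
        rw [this]; ring
    rw [sum_congr rfl e1, sum_add_distrib, ← mul_sum]
    have e2 : ∑ w ∈ S.nb y, S.K y w * (ind S α ω * Dn S T x (upd α ω (y, true)) *
        ((1 - κ) * S.U (1 - κ) o J w - b)) = 0 := by
      have e3 : ∑ w ∈ S.nb y, S.K y w * (ind S α ω * Dn S T x (upd α ω (y, true)) *
        ((1 - κ) * S.U (1 - κ) o J w - b)) = ind S α ω * Dn S T x (upd α ω (y, true)) *
        S.Q (fun w => (1 - κ) * S.U (1 - κ) o J w + (-b)) y := by
        unfold Tri.Q
        rw [mul_sum]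
        exact sum_congr rfl fun w _ => by ring
      rw [e3, Q_add, Q_smul, Q_const]
      have : (1 - κ) * S.Q (fun w => S.U (1 - κ) o J w) y = b := rfl
      rw [this]; ring
    rw [e2, zero_add]
    rfl
  rw [integral_congr_ae (Filter.Eventually.of_forall key), integral_const_mul]
  congr 1
  unfold Tri.Q
  rw [integral_finsetSum _ fun w _ => (((hN w).smul _).smul _).integrable _]
  refine sum_congr rfl fun w _ => ?_
  rw [integral_const_mul, integral_const_mul]
  rfl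

include hp in
/-- bound for one increment -/
lemma integral_inc_Dn_le (hκ0 : 0 < κ) (hκ1 : κ ≤ 1) (o x : V) (J T : ℕ) (α : ℕ × V × ℕ)
    (hT : α.1 < T) {g : ℝ} (hg : ∀ y, S.U (1 - κ) o J y ≤ g) :
    ∫ ω, inc S (1 - κ) o J α ω * Dn S T x ω ∂(S.law p κ) ≤
      2 * (∫ ω, ind S α ω ∂(S.law p κ)) * S.lam (1 - κ) o J α.2.1 +
      g * (κ * S.Q (fun w => ea S p κ T α w x) α.2.1) := by
  have hκ : 0 ≤ κ ∧ κ ≤ 1 := ⟨hκ0.le, hκ1⟩
  have ha : 0 ≤ 1 - κ := by linarith [hκ.2]
  rw [integral_inc_Dn S hp hκ o x J T α hT]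
  have hosc := ea_osc S hp hκ0 hκ1 T α x
  set y := α.2.1 with hy
  set E := ∫ ω, ind S α ω ∂(S.law p κ) with hE
  set e := fun w => ea S p κ T α w x with he
  set U := S.U (1 - κ) o J with hU
  have hE0 : 0 ≤ E := E1_nonneg S α
  have hQ0 : 0 ≤ S.Q e y := by
    have := S.Q_mono (f := fun _ => 0) (fun w => ea_nonneg S (p := p) (κ := κ) T α w x) y
    rwa [S.Q_zero] at this
  have hU0 : 0 ≤ U y := S.U_nonneg ha o J y
  have id1 : S.Q (fun w => (U w - hb S (1 - κ) o J y) * e w) y =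
      S.Q (fun w => (U w - U y) * (e w - (1 - κ) * S.Q e y)) y + κ * U y * S.Q e y := by
    have h1 : ∀ w, (U w - hb S (1 - κ) o J y) * e w =
        (U w - U y) * (e w - (1 - κ) * S.Q e y) +
        (((1 - κ) * S.Q e y) * U w + ((U y - hb S (1 - κ) o J y) * e w +
          (-(((1 - κ) * S.Q e y) * U y)))) := by
      intro w; ring
    simp_rw [h1]
    rw [Q_add, Q_add, Q_add, Q_smul, Q_smul, Q_const]
    have h2 : hb S (1 - κ) o J y = (1 - κ) * S.Q (fun w => U w) y := rfl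
    rw [h2]
    ring
  rw [id1]
  have hterm : ∀ w ∈ S.nb y, S.K y w * ((U w - U y) * (e w - (1 - κ) * S.Q e y)) ≤
      if 0 < S.K y w then |U w - U y| * (2 * E) else 0 := by
    intro w hw
    by_cases hk : 0 < S.K y w
    · rw [if_pos hk]
      have a1 : S.K y w * |e w - (1 - κ) * S.Q e y| ≤ 2 * E := by
        refine le_trans ?_ hosc
        exact single_le_sum (f := fun w => S.K y w * |e w - (1 - κ) * S.Q e y|)
          (fun w _ => mul_nonneg (S.nonneg _ _) (abs_nonneg _)) hw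
      calc S.K y w * ((U w - U y) * (e w - (1 - κ) * S.Q e y)) ≤
          |S.K y w * ((U w - U y) * (e w - (1 - κ) * S.Q e y))| := le_abs_self _
        _ = |U w - U y| * (S.K y w * |e w - (1 - κ) * S.Q e y|) := by
            rw [abs_mul, abs_mul, abs_of_pos hk]; ring
        _ ≤ _ := mul_le_mul_of_nonneg_left a1 (abs_nonneg _)
    · have : S.K y w = 0 := le_antisymm (not_lt.1 hk) (S.nonneg _ _)
      rw [this]; simp
  have h3 : S.Q (fun w => (U w - U y) * (e w - (1 - κ) * S.Q e y)) y ≤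
      S.lam (1 - κ) o J y * (2 * E) := by
    calc _ ≤ ∑ w ∈ S.nb y, (if 0 < S.K y w then |U w - U y| * (2 * E) else 0) :=
          sum_le_sum hterm
      _ = _ := by
          unfold Tri.lam
          rw [← sum_filter, sum_mul]
  have h4 : κ * U y * S.Q e y ≤ g * (κ * S.Q e y) := by
    have := mul_le_mul_of_nonneg_right (hg y) (mul_nonneg hκ0.le hQ0)
    calc _ = U y * (κ * S.Q e y) := by ring
      _ ≤ _ := this
  have h5 : 0 ≤ S.lam (1 - κ) o J y := sum_nonneg fun _ _ => abs_nonneg _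
  have hg0 : 0 ≤ g := hU0.trans (hg y)
  have h6 : 0 ≤ S.lam (1 - κ) o J y * (2 * E) + g * (κ * S.Q e y) := by positivity
  calc _ ≤ (1 - κ) * (S.lam (1 - κ) o J y * (2 * E) + g * (κ * S.Q e y)) :=
        mul_le_mul_of_nonneg_left (add_le_add h3 h4) ha
    _ ≤ 1 * (S.lam (1 - κ) o J y * (2 * E) + g * (κ * S.Q e y)) :=
        mul_le_mul_of_nonneg_right (by linarith) h6
    _ = _ := by ring

/-! ### invariance -/

omit [MeasurableSpace V] [MeasurableSingletonClass V] [Countable V] in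
lemma shift_upd (γ : Equiv.Perm V) (t i : ℕ) (y v : V) (β : Bool) (ω : Om V) :
    upd (t, γ y, i) (shift γ ω) (γ v, β) = shift γ (upd (t, y, i) ω (v, β)) := by
  unfold upd shift
  refine Prod.ext rfl (Prod.ext ?_ ?_)
  · funext a
    obtain ⟨t', y', i'⟩ := a
    simp only
    by_cases h : ((t', y', i') : ℕ × V × ℕ) = (t, γ y, i)
    · simp only [Prod.mk.injEq] at h
      obtain ⟨rfl, rfl, rfl⟩ := h
      simp
    · have h2 : ((t', γ.symm y', i') : ℕ × V × ℕ) ≠ (t, y, i) := by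
        intro e
        simp only [Prod.mk.injEq] at e
        refine h ?_
        rw [Prod.mk.injEq, Prod.mk.injEq]
        refine ⟨e.1, ?_, e.2.2⟩
        rw [← e.2.1]; simp
      rw [Function.update_of_ne h, Function.update_of_ne h2]
  · funext a
    obtain ⟨t', y', i'⟩ := a
    simp only
    by_cases h : ((t', y', i') : ℕ × V × ℕ) = (t, γ y, i)
    · simp only [Prod.mk.injEq] at h
      obtain ⟨rfl, rfl, rfl⟩ := h
      simp
    · have h2 : ((t', γ.symm y', i') : ℕ × V × ℕ) ≠ (t, y, i) := by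
        intro e
        simp only [Prod.mk.injEq] at e
        refine h ?_
        rw [Prod.mk.injEq, Prod.mk.injEq]
        refine ⟨e.1, ?_, e.2.2⟩
        rw [← e.2.1]; simp
      rw [Function.update_of_ne h, Function.update_of_ne h2]

omit [MeasurableSpace V] [MeasurableSingletonClass V] [Countable V] in
lemma Nv_shift {γ : Equiv.Perm V} (hγ : γ ∈ S.Γ) (k s : ℕ) (v x : V) (ω : Om V) :
    Nv S.nb k s (γ v) (γ x) (shift γ ω) = Nv S.nb k s v x ω := by
  induction k generalizing s v with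
  | zero => rfl
  | succ k ih =>
    rw [Nv_succ, Nv_succ, Cn_shift S hγ, Fn_shift S hγ, ih]
    have e1 : (shift γ ω).2.2 (s, γ v, Cn S.nb s v ω) = ω.2.2 (s, v, Cn S.nb s v ω) := by
      simp [shift]
    have e2 : (shift γ ω).2.1 (s, γ v, Cn S.nb s v ω) = γ (ω.2.1 (s, v, Cn S.nb s v ω)) := by
      simp [shift]
    have e3 : (γ v = γ x) = (v = x) := by simp
    have e4 : (γ (ω.2.1 (s, v, Cn S.nb s v ω)) ∈ S.nb (γ v)) =
        (ω.2.1 (s, v, Cn S.nb s v ω) ∈ S.nb v) := by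
      rw [S.inv_nb γ hγ]; simp
    rw [e1, e2, ih]
    simp only [e3, e4]

include hp hκ in
lemma ea_inv {γ : Equiv.Perm V} (hγ : γ ∈ S.Γ) (T t i : ℕ) (y v x : V) :
    ea S p κ T (t, γ y, i) (γ v) (γ x) = ea S p κ T (t, y, i) v x := by
  unfold ea
  have hb : BM (fun ω => ind S (t, γ y, i) ω *
      Nv S.nb (T - t - 1) (t + 1) (γ v) (γ x) (upd (t, γ y, i) ω (γ v, true))) :=
    (bm_ind S _).mul (bm_upd (bm_Nv S.nb _ _ (γ v) (γ x)) _ _)
  rw [← integral_shift S hγ hp.1 hp.2 hκ.1 hκ.2 hb]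
  congr 1
  funext ω
  have e1 : ind S (t, γ y, i) (shift γ ω) = ind S (t, y, i) ω := by
    unfold ind
    simp only [Cn_shift S hγ]
  rw [e1, shift_upd, Nv_shift S hγ]

/-- mean number of visits after all steps from `y` -/
noncomputable def Hb (p κ : ℝ) (T N : ℕ) (y x : V) : ℝ :=
  ∑ t ∈ range T, ∑ i ∈ range N, S.Q (fun w => ea S p κ T (t, y, i) w x) y

include hp hκ in
lemma Hb_inv {γ : Equiv.Perm V} (hγ : γ ∈ S.Γ) (T N : ℕ) (y x : V) :
    Hb S p κ T N (γ y) (γ x) = Hb S p κ T N y x := by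
  unfold Hb
  refine sum_congr rfl fun t _ => sum_congr rfl fun i _ => ?_
  unfold Tri.Q
  rw [S.inv_nb γ hγ, sum_image (fun a _ b _ h => γ.injective h)]
  refine sum_congr rfl fun w _ => ?_
  dsimp only
  rw [S.inv_K γ hγ, ea_inv S hp hκ hγ]

omit [MeasurableSingletonClass V] [Countable V] in
lemma Hb_nonneg (T N : ℕ) (y x : V) : 0 ≤ Hb S p κ T N y x := by
  refine sum_nonneg fun t _ => sum_nonneg fun i _ => ?_
  have := S.Q_mono (f := fun _ => 0) (fun w => ea_nonneg S (p := p) (κ := κ) T (t, y, i) w x) y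
  rwa [S.Q_zero] at this

include hp hκ in
/-- the mean number of cars is at least the sum of the first `N` indicators -/
lemma sum_E1_le (t N : ℕ) (y o : V) :
    ∑ i ∈ range N, ∫ ω, ind S (t, y, i) ω ∂(S.law p κ) ≤ aT S p κ o t := by
  have := law_prob S hp hκ
  rw [← integral_finsetSum _ fun i _ => (bm_ind S (t, y, i)).integrable _]
  unfold aT
  rw [mean_inv S hp hκ t o y]
  refine integral_mono ((BM.sum _ fun i _ => bm_ind S (t, y, i)).integrable _)
    ((bm_C S.nb t y).integrable _) fun ω => ?_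
  have h1 := ind_sum S t y (max N (bd S.nb t y)) (le_max_right _ _) ω (fun _ => 1)
  simp only [mul_one, sum_const, card_range, nsmul_eq_mul] at h1
  simp only
  rw [← h1]
  refine sum_le_sum_of_subset_of_nonneg (range_subset_range.2 (le_max_left _ _)) ?_
  intro i _ _
  exact ind_nonneg S _ ω

include hp in
lemma Hb_sum_le (hκ0 : 0 < κ) (hκ1 : κ ≤ 1) (T N : ℕ) (o : V) (L : Finset V) :
    κ * ∑ y ∈ L, Hb S p κ T N y o ≤ mT S p κ o T := by
  have hκ : 0 ≤ κ ∧ κ ≤ 1 := ⟨hκ0.le, hκ1⟩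
  have h1 : ∀ B : Finset V, ∑ x ∈ B, κ * Hb S p κ T N o x ≤ mT S p κ o T := by
    intro B
    unfold Hb mT
    simp_rw [mul_sum]
    rw [Finset.sum_comm]
    refine sum_le_sum fun t _ => ?_
    rw [Finset.sum_comm]
    refine le_trans (sum_le_sum fun i _ => ?_) (sum_E1_le S hp hκ t N o o)
    have e : ∑ x ∈ B, κ * S.Q (fun w => ea S p κ T (t, o, i) w x) o =
        S.Q (fun w => κ * ∑ x ∈ B, ea S p κ T (t, o, i) w x) o := by
      unfold Tri.Q
      simp_rw [mul_sum]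
      rw [Finset.sum_comm]
      refine sum_congr rfl fun w _ => sum_congr rfl fun x _ => by ring
    rw [e]
    exact S.Q_le_const (fun w => ea_total S hp hκ0 hκ1 T (t, o, i) w B) o
  have h := mtp S.trans S.fin S.unimod (fun y x => ENNReal.ofReal (κ * Hb S p κ T N y x))
    (fun γ hγ x y => by rw [Hb_inv S hp hκ hγ]) o
  have hn : ∀ y x, 0 ≤ κ * Hb S p κ T N y x := fun y x =>
    mul_nonneg hκ0.le (Hb_nonneg S T N y x)
  have h2 : ∑' y, ENNReal.ofReal (κ * Hb S p κ T N o y) ≤ ENNReal.ofReal (mT S p κ o T) := by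
    rw [ENNReal.tsum_eq_iSup_sum]
    refine iSup_le fun B => ?_
    rw [← ENNReal.ofReal_sum_of_nonneg fun _ _ => hn _ _]
    exact ENNReal.ofReal_le_ofReal (h1 B)
  rw [h] at h2
  have h3 : ∑ y ∈ L, ENNReal.ofReal (κ * Hb S p κ T N y o) ≤ ENNReal.ofReal (mT S p κ o T) :=
    (ENNReal.sum_le_tsum L).trans h2
  rw [← ENNReal.ofReal_sum_of_nonneg fun _ _ => hn _ _] at h3
  rw [mul_sum]
  exact (ENNReal.ofReal_le_ofReal_iff (mT_nonneg S o T)).1 h3

include hp in
/-- **The noise and the number of departures are weakly correlated.** -/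
theorem noise_Dn_le (hκ0 : 0 < κ) (hκ1 : κ ≤ 1) (o : V) (J T : ℕ) {g Λ : ℝ}
    (hg : ∀ y, S.U (1 - κ) o J y ≤ g) (hΛ : ∀ L : Finset V, ∑ y ∈ L, S.lam (1 - κ) o J y ≤ Λ) :
    ∫ ω, S.R (1 - κ) J (fun x => Nz S (1 - κ) T x ω) o * Dn S T o ω ∂(S.law p κ) ≤
      (2 * Λ + g) * mT S p κ o T := by
  have hκ : 0 ≤ κ ∧ κ ≤ 1 := ⟨hκ0.le, hκ1⟩
  have ha : 0 ≤ 1 - κ := by linarith [hκ.2]
  have ha1 : 1 - κ ≤ 1 := by linarith [hκ.1]
  have := law_prob S hp hκ
  have hDb : BM (Dn S T o) := BM.sum _ fun t _ => bm_C S.nb t o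
  obtain ⟨N, hN⟩ := noise_identity S (1 - κ) o J T
  simp_rw [hN, sum_mul]
  rw [integral_finsetSum _ fun α _ => ((bm_inc S ha ha1 o J α).mul hDb).integrable _]
  have hg0 : 0 ≤ g := (S.U_nonneg ha o J o).trans (hg o)
  have hm0 := mT_nonneg S (p := p) (κ := κ) o T
  set B := S.ball o (J + 1) with hB
  calc ∑ α ∈ range T ×ˢ (B ×ˢ range N), ∫ ω, inc S (1 - κ) o J α ω * Dn S T o ω ∂(S.law p κ)
      ≤ ∑ α ∈ range T ×ˢ (B ×ˢ range N),
        (2 * (∫ ω, ind S α ω ∂(S.law p κ)) * S.lam (1 - κ) o J α.2.1 +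
        g * (κ * S.Q (fun w => ea S p κ T α w o) α.2.1)) := by
        refine sum_le_sum fun α hα => ?_
        refine integral_inc_Dn_le S hp hκ0 hκ1 o o J T α ?_ hg
        exact mem_range.1 (mem_product.1 hα).1
    _ = ∑ α ∈ range T ×ˢ (B ×ˢ range N),
        2 * (∫ ω, ind S α ω ∂(S.law p κ)) * S.lam (1 - κ) o J α.2.1 +
        g * (κ * ∑ y ∈ B, Hb S p κ T N y o) := by
        rw [sum_add_distrib]
        congr 1
        have e3 : ∑ y ∈ B, Hb S p κ T N y o = ∑ α ∈ range T ×ˢ (B ×ˢ range N),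
            S.Q (fun w => ea S p κ T α w o) α.2.1 := by
          unfold Hb
          rw [sum_product, Finset.sum_comm]
          exact sum_congr rfl fun t _ => by rw [sum_product]
        rw [e3, mul_sum, mul_sum]
    _ ≤ 2 * Λ * mT S p κ o T + g * mT S p κ o T := by
        refine add_le_add ?_ (mul_le_mul_of_nonneg_left (Hb_sum_le S hp hκ0 hκ1 T N o B) hg0)
        rw [sum_product]
        have h1 : ∀ t ∈ range T, ∑ q ∈ B ×ˢ range N,
            2 * (∫ ω, ind S (t, q) ω ∂(S.law p κ)) * S.lam (1 - κ) o J q.1 ≤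
            2 * aT S p κ o t * Λ := by
          intro t _
          rw [sum_product]
          calc _ ≤ ∑ y ∈ B, 2 * aT S p κ o t * S.lam (1 - κ) o J y := by
                refine sum_le_sum fun y _ => ?_
                dsimp only
                rw [← sum_mul, ← mul_sum]
                refine mul_le_mul_of_nonneg_right ?_ (sum_nonneg fun _ _ => abs_nonneg _)
                exact mul_le_mul_of_nonneg_left (sum_E1_le S hp hκ t N y o) (by norm_num)
            _ = 2 * aT S p κ o t * ∑ y ∈ B, S.lam (1 - κ) o J y := by rw [mul_sum]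
            _ ≤ _ := by
                refine mul_le_mul_of_nonneg_left (hΛ B) ?_
                have := aT_nonneg S (p := p) (κ := κ) o t
                linarith
        calc _ ≤ ∑ t ∈ range T, 2 * aT S p κ o t * Λ := sum_le_sum h1
          _ = _ := by
              unfold mT
              rw [← sum_mul, ← mul_sum]
              ring
    _ = _ := by ring

end

end Pool.Agent.TH996.Park
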