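import Pool.Agent.TH996.Limit
import Pool.Agent.TH996.Link

/-!
Definitions for the recurrent case.
-/

namespace Pool.Agent.TH996.Park

open MeasureTheory Measure Finset
open scoped ENNReal

variable {V : Type*} [DecidableEq V]

namespace Tri

/-- the reversed kernel -/
def rev (S : Tri V) : Tri V where
  nb := S.nb
  K := fun x y => S.K y x
  symm := S.symm
  nonneg := fun x y => S.nonneg y x
  supp := fun x y h => S.supp y x fun h' => h (S.symm _ _ h')
  sum_one := S.col_one
  Γ := S.Γ
  inv_nb := S.inv_nb
  inv_K := fun γ hγ x y => S.inv_K γ hγ y x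
  trans := S.trans
  fin := S.fin
  unimod := S.unimod

/-- probability that the walk from `x` does not visit `o` at the times `0, ..., n` -/
def hn (S : Tri V) (o : V) : ℕ → V → ℝ
  | 0, x => if x = o then 0 else 1
  | n + 1, x => if x = o then 0 else S.Q (hn S o n) x

/-- total variation of the truncated Green function over the edges of the walk -/
noncomputable def lam (S : Tri V) (a : ℝ) (o : V) (J : ℕ) (y : V) : ℝ :=
  ∑ v ∈ (S.nb y).filter (fun v => 0 < S.K y v), |S.U a o J v - S.U a o J y|

end Tri

/-- The influence of the initial state of `x` on the number of departures from `z`. -/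
noncomputable def inflD [MeasurableSpace V] (S : Tri V) (p κ : ℝ) (T : ℕ) (x z : V) : ℝ :=
  ∫ ω, (Dn S T z (upe x ω true) - Dn S T z (upe x ω false)) ∂(S.law p κ)

end Pool.Agent.TH996.Park
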