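import Pool.Agent.TH996.Rec.Defs

/-!
A Nash type bound: the truncated Green function at the diagonal is at most of order `√J`.
-/

namespace Pool.Agent.TH996.Park

open Finset

section

variable {V : Type*} [DecidableEq V]

/-- variance decomposition at one vertex -/
lemma Nash_var (S : Tri V) (u : V → ℝ) (y : V) :
    ∑ v ∈ S.nb y, S.K y v * (u v - u y) ^ 2 =
      (S.Q (fun z => u z ^ 2) y - (S.Q u y) ^ 2) + (S.Q u y - u y) ^ 2 := by
  have h1 : ∑ v ∈ S.nb y, S.K y v * (u v - u y) ^ 2 =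
      S.Q (fun z => u z ^ 2) y - 2 * u y * S.Q u y + u y ^ 2 * ∑ v ∈ S.nb y, S.K y v := by
    unfold Tri.Q
    rw [mul_sum, mul_sum, ← sum_sub_distrib, ← sum_add_distrib]
    exact sum_congr rfl fun v _ => by ring
  rw [h1, S.sum_one]; ring

/-- increments of the truncated Green function are at most one -/
lemma Nash_inc_le (S : Tri V) (o : V) (J : ℕ) (x : V) :
    S.U 1 o (J + 1) x - S.U 1 o J x ≤ 1 := by
  induction J generalizing x with
  | zero =>
    have : S.U 1 o 1 x = if x = o then 1 else 0 := by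
      rw [S.U_succ]
      have h : S.Q (S.U 1 o 0) x = 0 := S.Q_zero x
      rw [h]; simp
    have h0 : S.U 1 o 0 x = 0 := rfl
    rw [zero_add, this, h0]
    split_ifs <;> norm_num
  | succ J ih =>
    rw [S.U_succ 1 o (J + 1), S.U_succ 1 o J]
    have e : S.Q (S.U 1 o (J + 1)) x - S.Q (S.U 1 o J) x =
        S.Q (fun y => S.U 1 o (J + 1) y - S.U 1 o J y) x := by
      unfold Tri.Q
      rw [← sum_sub_distrib]
      exact sum_congr rfl fun v _ => by ring
    have h := S.Q_le_const ih x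
    rw [← e] at h
    linarith

lemma Nash_SJ_one (J : ℕ) : Tri.SJ 1 J = J := by
  simp [Tri.SJ]

/-- the diffusion part of the energy -/
lemma Nash_diff (S : Tri V) (o : V) (J : ℕ) (L : Finset V) (hL : S.ball o (J + 1) ⊆ L) :
    ∑ y ∈ L, (S.Q (S.U 1 o J) y - S.U 1 o J y) ^ 2 ≤ 2 := by
  have ho : o ∈ L := hL (S.mem_ball o _)
  have h1 : ∀ y ∈ L, (S.Q (S.U 1 o J) y - S.U 1 o J y) ^ 2 ≤
      (S.U 1 o (J + 1) y - S.U 1 o J y) + (if y = o then 1 else 0) := by
    intro y _
    have h2 := Nash_inc_le S o J y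
    have h3 := S.U_le_succ zero_le_one o J y
    have e : S.Q (S.U 1 o J) y - S.U 1 o J y =
        (S.U 1 o (J + 1) y - S.U 1 o J y) - (if y = o then 1 else 0) := by
      rw [S.U_succ 1 o J]; ring
    rw [e]
    set t := S.U 1 o (J + 1) y - S.U 1 o J y
    have ht0 : 0 ≤ t := by simp only [t]; linarith
    split_ifs
    · nlinarith
    · nlinarith
  refine (sum_le_sum h1).trans ?_
  rw [sum_add_distrib, sum_sub_distrib, S.sum_U 1 o (J + 1) L hL,
    S.sum_U 1 o J L ((S.ball_succ o J).trans hL), Nash_SJ_one, Nash_SJ_one]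
  have : ∑ y ∈ L, (if y = o then (1 : ℝ) else 0) = 1 := by
    rw [sum_ite_eq' L o]; simp [ho]
  rw [this]; push_cast; linarith

/-- the energy of the truncated Green function -/
lemma Nash_energy (S : Tri V) (o : V) (J : ℕ) (L : Finset V) (hL : S.ball o (J + 1) ⊆ L) :
    ∑ y ∈ L, ∑ v ∈ S.nb y, S.K y v * (S.U 1 o J v - S.U 1 o J y) ^ 2 ≤
      2 * S.U 1 o J o + 3 := by
  simp_rw [Nash_var S (S.U 1 o J)]
  rw [sum_add_distrib]
  have h1 := S.noise_det zero_le_one le_rfl o J L hL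
  simp only [one_mul] at h1
  have h2 := Nash_diff S o J L hL
  have h3 := Nash_inc_le S o J o
  linarith

end

theorem nash {V : Type*} [DecidableEq V] (S : Tri V) (o : V) {k : ℝ} (hk : 0 < k)
    (hk1 : ∀ x y, 0 < S.K x y → k ≤ S.K x y)
    (hchain : ∀ N : ℕ, ∃ z : ℕ → V, z 0 = o ∧ (∀ i < N, 0 < S.K (z i) (z (i + 1))) ∧
      Set.InjOn z (Set.Iic N)) (J : ℕ) (hJ : 1 ≤ J) :
    S.U 1 o J o ^ 2 ≤ 40 / k * J := by
  classical
  set u := S.U 1 o J with hu
  set g := u o with hg
  have hu0 : ∀ x, 0 ≤ u x := fun x => S.U_nonneg zero_le_one o J x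
  have hg1 : 1 ≤ g := by
    obtain ⟨n, rfl⟩ : ∃ n, J = n + 1 := ⟨J - 1, by omega⟩
    have h : S.U 1 o (n + 1) o = 1 + S.Q (S.U 1 o n) o := by rw [S.U_succ]; simp
    have h2 : 0 ≤ S.Q (S.U 1 o n) o := by
      refine le_trans ?_ (S.Q_mono (fun x => S.U_nonneg zero_le_one o n x) o)
      rw [S.Q_zero]
    rw [hg, hu, h]; linarith
  obtain ⟨z, hz0, hzK, hzinj⟩ := hchain (2 * J)
  -- mass bound
  have mass : ∀ i, i ≤ 2 * J + 1 → (∀ j < i, g / 2 ≤ u (z j)) → (i : ℝ) * (g / 2) ≤ J := by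
    intro i hi hj
    have hinj : Set.InjOn z (range i : Set ℕ) := by
      intro a ha b hb hab
      rw [mem_coe, mem_range] at ha hb
      exact hzinj (Set.mem_Iic.2 (by omega)) (Set.mem_Iic.2 (by omega)) hab
    have h1 : ∑ x ∈ (range i).image z, u x ≤ ∑ x ∈ S.ball o J ∪ (range i).image z, u x :=
      sum_le_sum_of_subset_of_nonneg subset_union_right fun x _ _ => hu0 x
    rw [hu, S.sum_U 1 o J _ subset_union_left, Nash_SJ_one, ← hu, sum_image hinj] at h1
    have h2 : ∑ j ∈ range i, g / 2 ≤ ∑ j ∈ range i, u (z j) :=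
      sum_le_sum fun j hj' => hj j (mem_range.1 hj')
    rw [sum_const, card_range, nsmul_eq_mul] at h2
    linarith
  -- the first index with a small value
  have hex : ∃ i, i ≤ 2 * J ∧ u (z i) < g / 2 := by
    by_contra hcon
    push Not at hcon
    have h := mass (2 * J + 1) le_rfl fun j hj => hcon j (by omega)
    have hJ' : (1 : ℝ) ≤ J := by exact_mod_cast hJ
    push_cast at h
    nlinarith
  set i := Nat.find hex with hi
  obtain ⟨hi1, hi2⟩ := Nat.find_spec hex
  have hlt : ∀ j < i, g / 2 ≤ u (z j) := by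
    intro j hj
    have := Nat.find_min hex hj
    push Not at this
    exact this (by omega)
  have hm := mass i (by omega) hlt
  -- telescoping
  have htel : g / 2 ≤ ∑ j ∈ range i, |u (z (j + 1)) - u (z j)| := by
    have h1 : u (z 0) - u (z i) = ∑ j ∈ range i, (u (z j) - u (z (j + 1))) := by
      rw [Finset.sum_range_sub']
    have h2 : ∑ j ∈ range i, (u (z j) - u (z (j + 1))) ≤
        ∑ j ∈ range i, |u (z (j + 1)) - u (z j)| :=
      sum_le_sum fun j _ => by rw [abs_sub_comm]; exact le_abs_self _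
    rw [hz0] at h1
    have h3 : u (z i) < g / 2 := hi2
    linarith
  have hcs : (∑ j ∈ range i, |u (z (j + 1)) - u (z j)|) ^ 2 ≤
      i * ∑ j ∈ range i, (u (z (j + 1)) - u (z j)) ^ 2 := by
    have h := sq_sum_le_card_mul_sum_sq (s := range i)
      (f := fun j => |u (z (j + 1)) - u (z j)|)
    simpa only [card_range, sq_abs] using h
  -- energy
  have hinj : Set.InjOn z (range i : Set ℕ) := by
    intro a ha b hb hab
    rw [mem_coe, mem_range] at ha hb
    exact hzinj (Set.mem_Iic.2 (by omega)) (Set.mem_Iic.2 (by omega)) hab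
  set L := S.ball o (J + 1) ∪ (range i).image z with hL
  have hE := Nash_energy S o J L subset_union_left
  rw [← hu, ← hg] at hE
  have hpos : ∀ y, 0 ≤ ∑ v ∈ S.nb y, S.K y v * (u v - u y) ^ 2 := fun y =>
    sum_nonneg fun v _ => mul_nonneg (S.nonneg _ _) (sq_nonneg _)
  have hE2 : ∑ j ∈ range i, k * (u (z (j + 1)) - u (z j)) ^ 2 ≤
      ∑ y ∈ L, ∑ v ∈ S.nb y, S.K y v * (u v - u y) ^ 2 := by
    calc ∑ j ∈ range i, k * (u (z (j + 1)) - u (z j)) ^ 2
        ≤ ∑ j ∈ range i, ∑ v ∈ S.nb (z j), S.K (z j) v * (u v - u (z j)) ^ 2 := by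
          refine sum_le_sum fun j hj => ?_
          have hj' := mem_range.1 hj
          have hK := hzK j (by omega)
          have hmem : z (j + 1) ∈ S.nb (z j) := by
            by_contra hcon
            rw [S.supp _ _ hcon] at hK
            exact lt_irrefl _ hK
          calc k * (u (z (j + 1)) - u (z j)) ^ 2
              ≤ S.K (z j) (z (j + 1)) * (u (z (j + 1)) - u (z j)) ^ 2 :=
                mul_le_mul_of_nonneg_right (hk1 _ _ hK) (sq_nonneg _)
            _ ≤ _ := single_le_sum (f := fun v => S.K (z j) v * (u v - u (z j)) ^ 2)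
                (fun v _ => mul_nonneg (S.nonneg _ _) (sq_nonneg _)) hmem
      _ = ∑ y ∈ (range i).image z, ∑ v ∈ S.nb y, S.K y v * (u v - u y) ^ 2 := by
          rw [sum_image hinj]
      _ ≤ _ := sum_le_sum_of_subset_of_nonneg subset_union_right fun y _ _ => hpos y
  rw [← mul_sum] at hE2
  set D := ∑ j ∈ range i, (u (z (j + 1)) - u (z j)) ^ 2 with hD
  have hD0 : 0 ≤ D := sum_nonneg fun _ _ => sq_nonneg _
  set A := ∑ j ∈ range i, |u (z (j + 1)) - u (z j)| with hA
  have hkD : k * D ≤ 5 * g := by linarith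
  have h1 : (g / 2) ^ 2 ≤ A ^ 2 := by
    have : 0 ≤ g / 2 := by linarith
    exact pow_le_pow_left₀ this htel 2
  have hi0 : (0 : ℝ) ≤ i := Nat.cast_nonneg _
  have h2 : k * (g / 2) ^ 2 ≤ i * (5 * g) := by
    calc k * (g / 2) ^ 2 ≤ k * (i * D) := mul_le_mul_of_nonneg_left (h1.trans hcs) hk.le
      _ = i * (k * D) := by ring
      _ ≤ _ := mul_le_mul_of_nonneg_left hkD hi0
  have h3 : k * g ^ 2 ≤ 40 * J := by nlinarith
  rw [div_mul_eq_mul_div, le_div_iff₀ hk]
  linarith

end Pool.Agent.TH996.Park
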