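import Pool.Agent.TH996.Rec.Defs

/-!
Russo formula, dependence on finitely many initial spots, derivative of the mean number of
departures (helper75, job 1278).
-/

set_option autoImplicit false

namespace Pool.Agent.TH996.Park

open MeasureTheory Measure Finset
open scoped ENNReal

variable {V : Type*} [DecidableEq V] [MeasurableSpace V] [MeasurableSingletonClass V] [Countable V]

/-- conditioning on the initial state of `x` -/
theorem russo75_two (S : Tri V) {p κ : ℝ} (hp : 0 ≤ p ∧ p ≤ 1) (hκ : 0 ≤ κ ∧ κ ≤ 1)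
    {F : Om V → ℝ} (hF : BM F) (x : V) :
    ∫ ω, F ω ∂(S.law p κ) = p * ∫ ω, F (upe x ω true) ∂(S.law p κ) +
      (1 - p) * ∫ ω, F (upe x ω false) ∂(S.law p κ) := by
  have := law_prob S hp hκ
  have := bern_prob hp.1 hp.2
  have b1 := (bm_upe hF x true).integrable (S.law p κ)
  have b0 := (bm_upe hF x false).integrable (S.law p κ)
  rw [(resamp_upe S hp hκ x).integral hF]
  simp_rw [integral_bern hp.1 hp.2]
  rw [integral_add (b1.const_mul _) (b0.const_mul _), integral_const_mul, integral_const_mul]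

omit [MeasurableSpace V] [MeasurableSingletonClass V] [Countable V] in
theorem russo75_comm {x y : V} (h : x ≠ y) (ω : Om V) (a b : Bool) :
    upe x (upe y ω a) b = upe y (upe x ω b) a := by
  unfold upe
  refine Prod.ext ?_ rfl
  exact Function.update_comm (Ne.symm h) _ _ _

theorem russo (S : Tri V) {κ : ℝ} (hκ : 0 ≤ κ ∧ κ ≤ 1) (F : Om V → ℝ) (hF : BM F) (A : Finset V)
    (hA : ∀ ω ω' : Om V, (∀ x ∈ A, ω.1 x = ω'.1 x) → ω.2 = ω'.2 → F ω = F ω') {p : ℝ}
    (hp0 : 0 < p) (hp1 : p < 1) :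
    HasDerivAt (fun p => ∫ ω, F ω ∂(S.law p κ))
      (∑ x ∈ A, ∫ ω, (F (upe x ω true) - F (upe x ω false)) ∂(S.law p κ)) p := by
  have hnear : ∀ᶠ q in nhds p, 0 < q ∧ q < 1 := by
    filter_upwards [Ioo_mem_nhds hp0 hp1] with q hq using hq
  have hpp : 0 ≤ p ∧ p ≤ 1 := ⟨hp0.le, hp1.le⟩
  induction A using Finset.induction_on generalizing F with
  | empty =>
    rw [Finset.sum_empty]
    set ν := (infinitePi fun a : ℕ × V × ℕ => stepLaw S.nb S.K a.2.1).prod
      (infinitePi fun _ : ℕ × V × ℕ => bern κ) with hν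
    have hF2 : ∀ ω : Om V, F ω = F (fun _ => true, ω.2) := fun ω =>
      hA ω _ (fun x hx => absurd hx (Finset.notMem_empty x)) rfl
    have hc : ∀ q : ℝ, 0 ≤ q → q ≤ 1 → ∫ ω, F ω ∂(S.law q κ) =
        ∫ b, F (fun _ => true, b) ∂ν := by
      intro q h0 h1
      have := bern_prob h0 h1
      have := bern_prob hκ.1 hκ.2
      calc ∫ ω, F ω ∂(S.law q κ) = ∫ ω, (fun b => F (fun _ => true, b)) ω.2 ∂(S.law q κ) :=
            integral_congr_ae (ae_of_all _ fun ω => hF2 ω)
        _ = _ := by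
            unfold Tri.law
            refine (integral_fun_snd (fun b => F (fun _ => true, b))).trans ?_
            simp [hν]
    refine (hasDerivAt_const p (∫ b, F (fun _ => true, b) ∂ν)).congr_of_eventuallyEq ?_
    filter_upwards [hnear] with q hq using hc q hq.1.le hq.2.le
  | insert x A hx ih =>
    have hdep : ∀ β : Bool, ∀ ω ω' : Om V, (∀ y ∈ A, ω.1 y = ω'.1 y) → ω.2 = ω'.2 →
        F (upe x ω β) = F (upe x ω' β) := by
      intro β ω ω' h1 h2
      refine hA _ _ (fun y hy => ?_) h2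
      unfold upe
      by_cases hyx : y = x
      · subst hyx; simp
      · simp only [Function.update_of_ne hyx]
        exact h1 y ((Finset.mem_insert.1 hy).resolve_left hyx)
    have d1 := ih (fun ω => F (upe x ω true)) (bm_upe hF x true) (hdep true)
    have d0 := ih (fun ω => F (upe x ω false)) (bm_upe hF x false) (hdep false)
    have hprod := ((hasDerivAt_id p).mul d1).add (((hasDerivAt_id p).const_sub 1).mul d0)
    have hd := hprod.congr_of_eventuallyEq (f₁ := fun q => ∫ ω, F ω ∂(S.law q κ)) (by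
      filter_upwards [hnear] with q hq
      rw [russo75_two S ⟨hq.1.le, hq.2.le⟩ hκ hF x]
      rfl)
    refine hd.congr_deriv ?_
    rw [Finset.sum_insert hx]
    have := law_prob S hpp hκ
    have hy : ∀ y ∈ A, ∫ ω, (F (upe y ω true) - F (upe y ω false)) ∂(S.law p κ) =
        p * ∫ ω, (F (upe x (upe y ω true) true) - F (upe x (upe y ω false) true))
          ∂(S.law p κ) +
        (1 - p) * ∫ ω, (F (upe x (upe y ω true) false) - F (upe x (upe y ω false) false))
          ∂(S.law p κ) := by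
      intro y hy
      have hxy : x ≠ y := fun h => hx (h ▸ hy)
      rw [russo75_two S hpp hκ ((bm_upe hF y true).sub (bm_upe hF y false)) x]
      simp_rw [russo75_comm hxy]
    rw [Finset.sum_congr rfl hy, Finset.sum_add_distrib, ← Finset.mul_sum, ← Finset.mul_sum,
      integral_sub ((bm_upe hF x true).integrable _) ((bm_upe hF x false).integrable _)]
    simp only [id]
    ring

omit [MeasurableSpace V] [MeasurableSingletonClass V] [Countable V] in
theorem exists_eta_dep (nb : V → Finset V) (T : ℕ) (z : V) : ∃ A : Finset V, ∀ ω ω' : Om V,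
    (∀ x ∈ A, ω.1 x = ω'.1 x) → ω.2 = ω'.2 → Cn nb T z ω = Cn nb T z ω' ∧
      Fn nb T z ω = Fn nb T z ω' := by
  induction T generalizing z with
  | zero =>
    refine ⟨{z}, fun ω ω' h _ => ?_⟩
    have h1 := h z (Finset.mem_singleton_self z)
    constructor
    · show c0 ω.1 z = c0 ω'.1 z
      unfold c0
      rw [h1]
    · show f0 ω.1 z = f0 ω'.1 z
      unfold f0
      rw [h1]
  | succ T ih =>
    choose A hA using ih
    refine ⟨A z ∪ (nb z).biUnion A, fun ω ω' h h2 => ?_⟩
    have h3 := (hA z ω ω' (fun x hx => h x (Finset.mem_union_left _ hx)) h2).2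
    have h4 : An nb T z ω = An nb T z ω' := by
      unfold An
      rw [ar_eq, ar_eq]
      refine Finset.sum_congr rfl fun y hy => ?_
      have h5 := (hA y ω ω' (fun x hx => h x (Finset.mem_union_right _
        (Finset.mem_biUnion.2 ⟨y, hy, hx⟩))) h2).1
      unfold Cn at h5
      rw [h5, h2]
    have e1 : Cn nb (T + 1) z ω = An nb T z ω - Fn nb T z ω := rfl
    have e2 : Cn nb (T + 1) z ω' = An nb T z ω' - Fn nb T z ω' := rfl
    have e3 : Fn nb (T + 1) z ω = Fn nb T z ω - An nb T z ω := rfl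
    have e4 : Fn nb (T + 1) z ω' = Fn nb T z ω' - An nb T z ω' := rfl
    rw [e1, e2, e3, e4, h3, h4]
    exact ⟨rfl, rfl⟩

theorem russo75_bm (S : Tri V) (T : ℕ) (z : V) : BM (fun ω : Om V => Dn S T z ω) :=
  BM.sum _ fun t _ => bm_C S.nb t z

theorem russo75_bmd (S : Tri V) (T : ℕ) (x z : V) :
    BM (fun ω : Om V => Dn S T z (upe x ω true) - Dn S T z (upe x ω false)) :=
  (bm_upe (russo75_bm S T z) x true).sub (bm_upe (russo75_bm S T z) x false)

omit [MeasurableSingletonClass V] [Countable V] in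
theorem russo75_nonneg (S : Tri V) (p κ : ℝ) (T : ℕ) (x z : V) : 0 ≤ inflD S p κ T x z := by
  refine integral_nonneg fun ω => ?_
  simp only [Pi.zero_apply, sub_nonneg]
  refine Finset.sum_le_sum fun t _ => ?_
  have := Cn_upe_mono S t x z ω
  exact_mod_cast this

theorem russo75_inv (S : Tri V) {p κ : ℝ} (hp : 0 ≤ p ∧ p ≤ 1) (hκ : 0 ≤ κ ∧ κ ≤ 1)
    {γ : Equiv.Perm V} (hγ : γ ∈ S.Γ) (T : ℕ) (x z : V) :
    inflD S p κ T (γ x) (γ z) = inflD S p κ T x z := by
  unfold inflD
  rw [← integral_shift S hγ hp.1 hp.2 hκ.1 hκ.2 (russo75_bmd S T (γ x) (γ z))]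
  have e : ∀ ω : Om V, Dn S T (γ z) (shift γ ω) = Dn S T z ω := by
    intro ω
    unfold Dn
    refine Finset.sum_congr rfl fun t _ => ?_
    rw [Cn_shift S hγ]
  simp_rw [shift_upe, e]

theorem mT_hasDeriv (S : Tri V) {κ : ℝ} (hκ : 0 ≤ κ ∧ κ ≤ 1) (T : ℕ) (o : V) :
    ∃ Ξ : ℝ → ℝ, ∀ p : ℝ, 0 < p → p < 1 →
      HasDerivAt (fun p => mT S p κ o T) (Ξ p) p ∧ 0 ≤ Ξ p ∧
      ∀ L : Finset V, ∑ z ∈ L, inflD S p κ T o z ≤ Ξ p := by
  choose A hA using fun t => exists_eta_dep S.nb t o
  set B : Finset V := (range T).biUnion A with hB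
  have hdep : ∀ ω ω' : Om V, (∀ x ∈ B, ω.1 x = ω'.1 x) → ω.2 = ω'.2 →
      Dn S T o ω = Dn S T o ω' := by
    intro ω ω' h h2
    unfold Dn
    refine Finset.sum_congr rfl fun t ht => ?_
    rw [(hA t ω ω' (fun x hx => h x (Finset.mem_biUnion.2 ⟨t, ht, hx⟩)) h2).1]
  refine ⟨fun p => ∑ x ∈ B, inflD S p κ T x o, fun p hp0 hp1 => ?_⟩
  have hp : 0 ≤ p ∧ p ≤ 1 := ⟨hp0.le, hp1.le⟩
  have hnn : 0 ≤ ∑ x ∈ B, inflD S p κ T x o :=
    Finset.sum_nonneg fun x _ => russo75_nonneg S p κ T x o
  refine ⟨?_, hnn, ?_⟩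
  · have h1 := russo S hκ (fun ω => Dn S T o ω) (russo75_bm S T o) B hdep hp0 hp1
    refine h1.congr_of_eventuallyEq ?_
    filter_upwards [Ioo_mem_nhds hp0 hp1] with q hq
    have := law_prob S (p := q) ⟨hq.1.le, hq.2.le⟩ hκ
    unfold mT aT Dn
    exact (integral_finsetSum _ fun t _ => (bm_C S.nb t o).integrable _).symm
  · intro L
    have hzero : ∀ x, x ∉ B → inflD S p κ T x o = 0 := by
      intro x hx
      unfold inflD
      have : ∀ ω : Om V, Dn S T o (upe x ω true) - Dn S T o (upe x ω false) = 0 := by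
        intro ω
        rw [sub_eq_zero]
        refine hdep _ _ (fun y hy => ?_) rfl
        have hyx : y ≠ x := fun h => hx (h ▸ hy)
        unfold upe
        simp only
        rw [Function.update_of_ne hyx, Function.update_of_ne hyx]
      simp_rw [this]
      exact integral_zero _ _
    have h := mtp S.trans S.fin S.unimod (fun x y => ENNReal.ofReal (inflD S p κ T x y))
      (fun γ hγ x y => by rw [russo75_inv S hp hκ hγ]) o
    have h2 : ∑' y, ENNReal.ofReal (inflD S p κ T y o) =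
        ENNReal.ofReal (∑ x ∈ B, inflD S p κ T x o) := by
      rw [tsum_eq_sum (s := B), ENNReal.ofReal_sum_of_nonneg fun x _ => russo75_nonneg S p κ T x o]
      intro x hx
      rw [hzero x hx, ENNReal.ofReal_zero]
    have h3 : ∑ z ∈ L, ENNReal.ofReal (inflD S p κ T o z) ≤
        ENNReal.ofReal (∑ x ∈ B, inflD S p κ T x o) := by
      rw [← h2, ← h]
      exact ENNReal.sum_le_tsum L
    rw [← ENNReal.ofReal_sum_of_nonneg fun _ _ => russo75_nonneg S p κ T _ _] at h3
    exact (ENNReal.ofReal_le_ofReal_iff hnn).1 h3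

end Pool.Agent.TH996.Park
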