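import Pool.Agent.TH996.Rec.Star
import Pool.Agent.TH996.Rec.Nash
import Pool.Agent.TH996.Rec.Russo
import Pool.Agent.TH996.Rec.Analysis

/-!
The recurrent case: bound for the killed process, uniformly in the killing.
-/

namespace Pool.Agent.TH996.Park

open MeasureTheory Measure Finset
open scoped ENNReal

variable {V : Type*} [DecidableEq V]

lemma U_le_one (S : Tri V) {a : ℝ} (ha : 0 ≤ a) (ha1 : a ≤ 1) (o : V) (J : ℕ) (x : V) :
    S.U a o J x ≤ S.U 1 o J x := by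
  induction J generalizing x with
  | zero => exact le_rfl
  | succ J ih =>
    rw [Tri.U_succ, Tri.U_succ, one_mul]
    have h1 := S.Q_mono ih x
    have h2 : 0 ≤ S.Q (S.U a o J) x := by
      have := S.Q_mono (f := fun _ => 0) (fun y => S.U_nonneg ha o J y) x
      rwa [S.Q_zero] at this
    nlinarith

lemma SJ_ge {κ : ℝ} (hκ0 : 0 ≤ κ) (hκ1 : κ ≤ 1) (J : ℕ) (h : 2 * κ * J ≤ 1) :
    (J : ℝ) / 2 ≤ Tri.SJ (1 - κ) J := by
  unfold Tri.SJ
  have h1 : ∀ j ∈ range J, (1 / 2 : ℝ) ≤ (1 - κ) ^ j := by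
    intro j hj
    rw [mem_range] at hj
    have h2 := one_add_mul_le_pow (show (-2 : ℝ) ≤ -κ by linarith) j
    have h3 : κ * j ≤ κ * J := mul_le_mul_of_nonneg_left (by exact_mod_cast hj.le) hκ0
    have h4 : (1 : ℝ) + -κ = 1 - κ := by ring
    rw [h4] at h2
    nlinarith
  calc (J : ℝ) / 2 = ∑ _j ∈ range J, (1 / 2 : ℝ) := by simp; ring
    _ ≤ _ := sum_le_sum h1

variable [MeasurableSpace V] [MeasurableSingletonClass V] [Countable V]

section

variable (S : Tri V)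

/-- The number of departures is at most the mean life time. -/
lemma mT_le_inv {p κ : ℝ} (hp : 0 ≤ p ∧ p ≤ 1) (hκ0 : 0 < κ) (hκ1 : κ ≤ 1) (T : ℕ) (o : V) :
    mT S p κ o T ≤ 1 / κ := by
  have hκ : 0 ≤ κ ∧ κ ≤ 1 := ⟨hκ0.le, hκ1⟩
  unfold mT
  calc _ ≤ ∑ t ∈ range T, (1 - κ) ^ t := sum_le_sum fun t _ => aT_le S hp hκ o t
    _ ≤ 1 / κ := by
        rw [le_div_iff₀ hκ0]
        have := mul_neg_geom_sum (1 - κ) T
        rw [sub_sub_cancel] at this
        have h2 : 0 ≤ (1 - κ) ^ T := pow_nonneg (by linarith) T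
        nlinarith

omit [DecidableEq V] [MeasurableSpace V] [MeasurableSingletonClass V] [Countable V] in
/-- the final division -/
lemma fin_alg {δ c1 CN m ξ g Sj q : ℝ} {J : ℕ} (hδ0 : 0 < δ) (hc10 : 0 < c1) (hCN0 : 0 ≤ CN)
    (hm0 : 0 ≤ m) (hξ : 0 ≤ ξ) (hJr : (1 : ℝ) ≤ J) (hgN : g ≤ CN * √J)
    (hSj2 : (J : ℝ) / 2 ≤ Sj) (hg0 : 0 ≤ g)
    (hmain : δ / 2 * Sj * m ≤ J ^ 2 * √(2 * (c1 * m + 1 / 2 * ξ)) + 1 / 2 * g * ξ)
    (hq : q = 4 / δ * (√(2 * c1 + 1) + CN + 1)) :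
    m ≤ q * (J * √(m + ξ) + ξ / √J) := by
  have hJpos : (0 : ℝ) < J := by linarith
  have hsq0 : 0 ≤ √(J : ℝ) := Real.sqrt_nonneg _
  have hsqpos : 0 < √(J : ℝ) := Real.sqrt_pos.2 hJpos
  have hsqJ : √(J : ℝ) * √J = J := Real.mul_self_sqrt hJpos.le
  have hs1 : 0 ≤ √(2 * c1 + 1) := Real.sqrt_nonneg _
  have hs2 : 0 ≤ √(m + ξ) := Real.sqrt_nonneg _
  have hsqrt : √(2 * (c1 * m + 1 / 2 * ξ)) ≤ √(2 * c1 + 1) * √(m + ξ) := by
    rw [← Real.sqrt_mul (by positivity)]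
    refine Real.sqrt_le_sqrt ?_
    have := mul_nonneg hc10.le hξ
    linarith
  have hJ4 : δ / 4 * J * m ≤ δ / 2 * Sj * m := by
    refine mul_le_mul_of_nonneg_right ?_ hm0
    have := mul_le_mul_of_nonneg_left hSj2 (show 0 ≤ δ / 2 by positivity)
    linarith
  have hlast : 1 / 2 * g * ξ ≤ CN * √J * ξ := by
    refine mul_le_mul_of_nonneg_right ?_ hξ
    linarith
  have h1 : (J : ℝ) ^ 2 * √(2 * (c1 * m + 1 / 2 * ξ)) ≤
      J ^ 2 * (√(2 * c1 + 1) * √(m + ξ)) := mul_le_mul_of_nonneg_left hsqrt (by positivity)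
  have hall : δ / 4 * J * m ≤ J ^ 2 * (√(2 * c1 + 1) * √(m + ξ)) + CN * √J * ξ := by
    linarith
  have e1 : ξ / √J * J = √J * ξ := by
    rw [div_mul_eq_mul_div, div_eq_iff hsqpos.ne']
    calc ξ * J = ξ * (√J * √J) := by rw [hsqJ]
      _ = _ := by ring
  have h2 : δ / 4 * m ≤ J * (√(2 * c1 + 1) * √(m + ξ)) + CN * (ξ / √J) := by
    refine le_of_mul_le_mul_left ?_ hJpos
    calc (J : ℝ) * (δ / 4 * m) = δ / 4 * J * m := by ring
      _ ≤ _ := hall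
      _ = J * (J * (√(2 * c1 + 1) * √(m + ξ))) + CN * (√J * ξ) := by ring
      _ = _ := by rw [← e1]; ring
  have hdiv : m ≤ 4 / δ * (J * (√(2 * c1 + 1) * √(m + ξ)) + CN * (ξ / √J)) := by
    calc m = 4 / δ * (δ / 4 * m) := by field_simp
      _ ≤ _ := mul_le_mul_of_nonneg_left h2 (by positivity)
  refine hdiv.trans ?_
  rw [hq, mul_assoc]
  refine mul_le_mul_of_nonneg_left ?_ (by positivity)
  have hx : 0 ≤ J * √(m + ξ) := mul_nonneg hJpos.le hs2
  have hy : 0 ≤ ξ / √J := div_nonneg hξ hsq0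
  have a1 := mul_nonneg hs1 hy
  have a2 := mul_nonneg hCN0 hx
  linarith

/-- The bound for the killed process in the recurrent case. -/
theorem mT_rec {p0 : ℝ} (hp0 : 0 < p0) (hp1 : p0 < 1 / 2) (o : V) {k : ℝ} (hk : 0 < k)
    (hk1 : ∀ x y, 0 < S.K x y → k ≤ S.K x y)
    (hchain : ∀ N : ℕ, ∃ z : ℕ → V, z 0 = o ∧ (∀ i < N, 0 < S.K (z i) (z (i + 1))) ∧
      Set.InjOn z (Set.Iic N))
    (hrec : ∀ B : ℝ, ∃ I : ℕ, 1 ≤ I ∧ B ≤ S.U 1 o I o) :
    ∃ M κs : ℝ, 0 < κs ∧ ∀ κ, 0 < κ → κ ≤ κs → ∀ T, mT S p0 κ o T ≤ M := by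
  set p1 : ℝ := (p0 + 1 / 2) / 2 with hp1d
  have h01 : p0 < p1 := by rw [hp1d]; linarith
  have hp12 : p1 < 1 / 2 := by rw [hp1d]; linarith
  set δ := 1 - 2 * p1 with hδ
  have hδ0 : 0 < δ := by rw [hδ]; linarith
  set d : ℝ := ((S.nb o).card : ℝ) with hd
  have hd0 : 0 ≤ d := Nat.cast_nonneg _
  obtain ⟨I, hI1, hI⟩ := hrec (32 / (k * δ))
  have hUI : 0 < S.U 1 o I o := lt_of_lt_of_le (by positivity) hI
  have hrecI : 4 / (k * S.U 1 o I o) ≤ δ / 8 := by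
    rw [div_le_div_iff₀ (by positivity) (by norm_num)]
    rw [div_le_iff₀ (by positivity)] at hI
    nlinarith
  set c1 : ℝ := 2 * (2 * d * 2 + 2 / k) + 1 with hc1
  have hc10 : 0 < c1 := by positivity
  set CN : ℝ := √(40 / k) with hCN
  have hCN0 : 0 ≤ CN := Real.sqrt_nonneg _
  have hI0 : (0 : ℝ) < I := by exact_mod_cast hI1
  -- the scale from which on the inequality holds
  set J0 : ℕ := I + ⌈64 * d * I / δ⌉₊ + ⌈(16 * CN / δ) ^ 2⌉₊ with hJ0
  set C : ℝ := 4 / δ * (√(2 * c1 + 1) + CN + 1) with hC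
  have hC0 : 0 < C := by positivity
  obtain ⟨M, hM⟩ := final_analysis (C := C) (p0 := p0) (p1 := p1) hC0 J0 h01
  set κs : ℝ := min (1 / 4) (δ / (32 * (d + 1) * I)) with hκs
  have hκs0 : 0 < κs := by
    rw [hκs]
    refine lt_min (by norm_num) (by positivity)
  refine ⟨M, κs, hκs0, fun κ hκ0 hκs1 T => ?_⟩
  have hκ4 : κ ≤ 1 / 4 := hκs1.trans (min_le_left _ _)
  have hκ1 : κ ≤ 1 := by linarith
  have hκ : 0 ≤ κ ∧ κ ≤ 1 := ⟨hκ0.le, hκ1⟩
  have ha : 0 ≤ 1 - κ := by linarith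
  have ha1 : 1 - κ ≤ 1 := by linarith
  have hκI : 4 * d * (κ * I) ≤ δ / 8 := by
    have h1 : κ ≤ δ / (32 * (d + 1) * I) := hκs1.trans (min_le_right _ _)
    rw [le_div_iff₀ (by positivity)] at h1
    nlinarith [mul_pos hκ0 hI0]
  obtain ⟨Ξ, hΞ⟩ := mT_hasDeriv S hκ T o
  refine hM κ (fun p => mT S p κ o T) Ξ hκ0 hκ4 ?_ ?_ ?_
  · intro p hp
    exact (hΞ p (hp0.trans_le hp.1) (by linarith [hp.2])).1
  · intro p hp
    refine ⟨(hΞ p (hp0.trans_le hp.1) (by linarith [hp.2])).2.1, mT_nonneg S o T, ?_⟩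
    exact mT_le_inv S ⟨by linarith [hp.1], by linarith [hp.2]⟩ hκ0 hκ1 T o
  · intro p hp J hJ0' hJ1 hκJ
    have hpp : 0 ≤ p ∧ p ≤ 1 := ⟨by linarith [hp.1], by linarith [hp.2]⟩
    have hp2 : p ≤ 1 / 2 := by linarith [hp.2]
    obtain ⟨_, hΞ0, hΞL⟩ := hΞ p (hp0.trans_le hp.1) (by linarith [hp.2])
    set m := mT S p κ o T with hm
    have hm0 : 0 ≤ m := mT_nonneg S o T
    have hJr : (1 : ℝ) ≤ J := by exact_mod_cast hJ1
    have hJI : I ≤ J := by
      have : I ≤ J0 := by rw [hJ0]; omega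
      exact this.trans hJ0'
    -- noise constant
    have hN : ∫ ω, Nz S (1 - κ) T o ω * Dn S T o ω ∂(S.law p κ) ≤ c1 * m := by
      have h1 := noise_Dn_le S hpp hκ0 hκ1 o 1 T (g := 1)
        (Λ := 2 * d * 2 + 2 / k) (fun y => ?_) (fun L => ?_)
      · have e : ∀ ω : Om V, S.R (1 - κ) 1 (fun x => Nz S (1 - κ) T x ω) o =
            Nz S (1 - κ) T o ω := by
          intro ω
          simp [Tri.R, Tri.P]
        simp_rw [e] at h1
        exact h1
      · have : S.U (1 - κ) o 1 y = if y = o then 1 else 0 := by simp [Tri.U, Tri.Q]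
        rw [this]
        split_ifs <;> norm_num
      · have h2 := sum_lam_le S o hk hk1 ha ha1 1 1 le_rfl le_rfl L
        have e1 : S.U 1 o 1 o = 1 := by simp [Tri.U, Tri.Q]
        have e2 : Tri.SJ (1 - κ) 1 = 1 := by simp [Tri.SJ]
        rw [e1, e2] at h2
        have h3 : 2 * ((S.nb o).card : ℝ) * ((1 - (1 - κ) ^ 1) * 1 + (1 : ℕ)) ≤ 2 * d * 2 := by
          refine mul_le_mul_of_nonneg_left ?_ (by positivity)
          push_cast
          linarith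
        have h4 : 2 / (k * 1) * 1 = 2 / k := by ring
        rw [h4] at h2
        exact h2.trans (add_le_add h3 le_rfl)
    -- Green function
    set g := S.U (1 - κ) o J o with hg
    have hgy : ∀ y, S.U (1 - κ) o J y ≤ g := fun y => S.U_le_diag ha ha1 o J y
    have hg0 : 0 ≤ g := S.U_nonneg ha o J o
    have hgN : g ≤ CN * √J := by
      have h1 : g ≤ S.U 1 o J o := U_le_one S ha ha1 o J o
      have h2 := nash S o hk hk1 hchain J hJ1
      have h3 : S.U 1 o J o ≤ √(40 / k * J) := Real.le_sqrt_of_sq_le h2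
      rw [Real.sqrt_mul (by positivity)] at h3
      exact h1.trans h3
    set Sj := Tri.SJ (1 - κ) J with hSj
    have hSj2 : (J : ℝ) / 2 ≤ Sj := SJ_ge hκ.1 hκ1 J hκJ
    have hSj0 : 0 < Sj := by linarith
    -- total variation
    set Λ : ℝ := 2 * (S.nb o).card * ((1 - (1 - κ) ^ I) * Sj + I) +
      2 / (k * S.U 1 o I o) * Sj with hΛd
    have hΛ : ∀ L : Finset V, ∑ y ∈ L, S.lam (1 - κ) o J y ≤ Λ := fun L =>
      sum_lam_le S o hk hk1 ha ha1 I J hI1 hJI L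
    have hst := star S hpp hp2 hκ0 hκ1 o T J hgy hΛ hN hΞL
    rw [← hm, ← hSj] at hst
    -- estimates
    have hpow : 1 - (1 - κ) ^ I ≤ κ * I := by
      have h2 := one_add_mul_le_pow (show (-2 : ℝ) ≤ -κ by linarith) I
      have h4 : (1 : ℝ) + -κ = 1 - κ := by ring
      rw [h4] at h2
      linarith
    have hJ1' : 64 * d * I / δ ≤ J := by
      have h1 : (⌈64 * d * I / δ⌉₊ : ℝ) ≤ J := by
        have : ⌈64 * d * I / δ⌉₊ ≤ J0 := by rw [hJ0]; omega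
        exact_mod_cast this.trans hJ0'
      exact (Nat.le_ceil _).trans h1
    have hJ2' : (16 * CN / δ) ^ 2 ≤ J := by
      have h1 : (⌈(16 * CN / δ) ^ 2⌉₊ : ℝ) ≤ J := by
        have : ⌈(16 * CN / δ) ^ 2⌉₊ ≤ J0 := by rw [hJ0]; omega
        exact_mod_cast this.trans hJ0'
      exact (Nat.le_ceil _).trans h1
    have hsq0 : 0 ≤ √(J : ℝ) := Real.sqrt_nonneg _
    have hsqpos : 0 < √(J : ℝ) := Real.sqrt_pos.2 (by linarith)
    have hsqJ : √(J : ℝ) * √J = J := Real.mul_self_sqrt (by linarith)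
    have hgS : g ≤ δ / 8 * Sj := by
      have h1 : 16 * CN / δ ≤ √J := by
        rw [← Real.sqrt_sq (show 0 ≤ 16 * CN / δ by positivity)]
        exact Real.sqrt_le_sqrt hJ2'
      rw [div_le_iff₀ hδ0] at h1
      have h2 : 16 * (CN * √J) ≤ δ * J := by
        calc 16 * (CN * √J) = (16 * CN) * √J := by ring
          _ ≤ (√J * δ) * √J := mul_le_mul_of_nonneg_right h1 hsq0
          _ = δ * (√J * √J) := by ring
          _ = δ * J := by rw [hsqJ]
      have h3 : δ / 8 * (J / 2) ≤ δ / 8 * Sj := mul_le_mul_of_nonneg_left hSj2 (by positivity)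
      linarith
    have hΛS : 2 * Λ ≤ 3 * (δ / 8) * Sj := by
      have h1 : 4 * d * ((1 - (1 - κ) ^ I) * Sj) ≤ δ / 8 * Sj := by
        have h2 : 4 * d * ((1 - (1 - κ) ^ I) * Sj) ≤ 4 * d * ((κ * I) * Sj) :=
          mul_le_mul_of_nonneg_left (mul_le_mul_of_nonneg_right hpow hSj0.le) (by positivity)
        have h3 : 4 * d * (κ * I) * Sj ≤ δ / 8 * Sj := mul_le_mul_of_nonneg_right hκI hSj0.le
        linarith
      have h4 : 4 * d * I ≤ δ / 8 * Sj := by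
        rw [div_le_iff₀ hδ0] at hJ1'
        have h5 : δ / 8 * (J / 2) ≤ δ / 8 * Sj := mul_le_mul_of_nonneg_left hSj2 (by positivity)
        linarith
      have h6 : 4 / (k * S.U 1 o I o) * Sj ≤ δ / 8 * Sj :=
        mul_le_mul_of_nonneg_right hrecI hSj0.le
      have e : 2 * Λ = 4 * d * ((1 - (1 - κ) ^ I) * Sj) + 4 * d * I +
          4 / (k * S.U 1 o I o) * Sj := by
        rw [hΛd, hd]; ring
      rw [e]
      linarith
    have hδp : δ ≤ 1 - 2 * p := by rw [hδ]; linarith [hp.2]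
    have hmain : δ / 2 * Sj * m ≤ J ^ 2 * √(2 * (c1 * m + 1 / 2 * Ξ p)) + 1 / 2 * g * Ξ p := by
      have h1 : δ * Sj * m ≤ (1 - 2 * p) * Sj * m :=
        mul_le_mul_of_nonneg_right (mul_le_mul_of_nonneg_right hδp hSj0.le) hm0
      have h2 : (2 * Λ + g) * m ≤ (δ / 2 * Sj) * m := by
        refine mul_le_mul_of_nonneg_right ?_ hm0
        linarith
      linarith
    exact fin_alg hδ0 hc10 hCN0 hm0 hΞ0 hJr hgN hSj2 hg0 hmain hC

end

end Pool.Agent.TH996.Park
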