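import Pool.Agent.TH996.Rec.Defs

/-!
Total variation of the truncated Green function along the edges.
-/

set_option autoImplicit false

namespace Pool.Agent.TH996.Park

open Finset
open scoped ENNReal

variable {V : Type*} [DecidableEq V]

section grad

variable (S : Tri V)

lemma grad_Q_nonneg {f : V → ℝ} (h : ∀ x, 0 ≤ f x) (x : V) : 0 ≤ S.Q f x :=
  sum_nonneg fun _ _ => mul_nonneg (S.nonneg _ _) (h _)

lemma grad_hn_nonneg (o : V) (n : ℕ) (x : V) : 0 ≤ S.hn o n x := by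
  induction n generalizing x with
  | zero => unfold Tri.hn; split_ifs <;> norm_num
  | succ n ih =>
    unfold Tri.hn
    split_ifs
    · exact le_rfl
    · exact grad_Q_nonneg S ih x

lemma grad_hn_le_one (o : V) (n : ℕ) (x : V) : S.hn o n x ≤ 1 := by
  induction n generalizing x with
  | zero => unfold Tri.hn; split_ifs <;> norm_num
  | succ n ih =>
    unfold Tri.hn
    split_ifs
    · norm_num
    · exact S.Q_le_const ih x

lemma grad_hn_self (o : V) (n : ℕ) : S.hn o n o = 0 := by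
  cases n <;> simp [Tri.hn]

lemma grad_hn_succ_ne {o x : V} (n : ℕ) (h : x ≠ o) : S.hn o (n + 1) x = S.Q (S.hn o n) x := by
  simp [Tri.hn, h]

lemma grad_hn_succ_le (o : V) (n : ℕ) (x : V) : S.hn o (n + 1) x ≤ S.hn o n x := by
  induction n generalizing x with
  | zero =>
    by_cases h : x = o
    · subst h; rw [grad_hn_self, grad_hn_self]
    · have : S.hn o 0 x = 1 := by simp [Tri.hn, h]
      rw [this]
      exact grad_hn_le_one S o 1 x
  | succ n ih =>
    by_cases h : x = o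
    · subst h; rw [grad_hn_self, grad_hn_self]
    · rw [grad_hn_succ_ne S _ h, grad_hn_succ_ne S _ h]
      exact S.Q_mono ih x

lemma grad_hn_anti (o : V) {m n : ℕ} (h : m ≤ n) (x : V) : S.hn o n x ≤ S.hn o m x := by
  induction n, h using Nat.le_induction with
  | base => exact le_rfl
  | succ n _ ih => exact (grad_hn_succ_le S o n x).trans ih

lemma grad_Q_lin (c : ℝ) (f g : V → ℝ) (x : V) :
    S.Q (fun y => f y * c + g y) x = S.Q f x * c + S.Q g x := by
  unfold Tri.Q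
  rw [sum_mul, ← sum_add_distrib]
  exact sum_congr rfl fun y _ => by ring

lemma grad_first (o : V) (N J : ℕ) (hJ : J ≤ N + 1) (x : V) :
    S.U 1 o J x * S.Q (S.hn o N) o + S.hn o J x ≤ 1 := by
  set c := S.Q (S.hn o N) o with hc
  induction J generalizing x with
  | zero =>
    have : S.U 1 o 0 x = 0 := rfl
    rw [this, zero_mul, zero_add]
    exact grad_hn_le_one S o 0 x
  | succ J ih =>
    have ih' := ih (by omega)
    have h1 : S.Q (S.U 1 o J) x * c + S.Q (S.hn o J) x ≤ 1 := by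
      rw [← grad_Q_lin]
      exact S.Q_le_const ih' x
    by_cases h : x = o
    · subst h
      rw [grad_hn_self, add_zero, Tri.U_succ, if_pos rfl, one_mul, add_mul, one_mul]
      have h2 : c ≤ S.Q (S.hn x J) x := S.Q_mono (fun y => grad_hn_anti S x (by omega) y) x
      linarith
    · rw [grad_hn_succ_ne S _ h, Tri.U_succ, if_neg h, zero_add, one_mul]
      exact h1

end grad

theorem U_mul_hn_le (S : Tri V) (o : V) (N J : ℕ) (hJ : J ≤ N + 1) :
    S.U 1 o J o * S.Q (S.hn o N) o ≤ 1 := by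
  have h := grad_first S o N J hJ o
  have h2 := grad_hn_nonneg S o J o
  linarith

section grad

variable (S : Tri V)

lemma grad_U_inv {γ : Equiv.Perm V} (hγ : γ ∈ S.Γ) (a : ℝ) (o : V) (J : ℕ) (x : V) :
    S.U a (γ o) J (γ x) = S.U a o J x := by
  induction J generalizing x with
  | zero => rfl
  | succ J ih =>
    rw [Tri.U_succ, Tri.U_succ]
    congr 1
    · simp [γ.injective.eq_iff]
    · congr 1
      unfold Tri.Q
      rw [S.inv_nb γ hγ, sum_image (fun a _ b _ h => γ.injective h)]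
      exact sum_congr rfl fun y _ => by rw [S.inv_K γ hγ, ih]

lemma grad_lam_inv {γ : Equiv.Perm V} (hγ : γ ∈ S.Γ) (a : ℝ) (o : V) (J : ℕ) (y : V) :
    S.lam a (γ o) J (γ y) = S.lam a o J y := by
  unfold Tri.lam
  rw [S.inv_nb γ hγ, sum_filter, sum_filter, sum_image (fun a _ b _ h => γ.injective h)]
  refine sum_congr rfl fun v _ => ?_
  rw [S.inv_K γ hγ, grad_U_inv S hγ, grad_U_inv S hγ]

lemma grad_lam_nonneg (a : ℝ) (o : V) (J : ℕ) (y : V) : 0 ≤ S.lam a o J y :=
  sum_nonneg fun _ _ => abs_nonneg _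

lemma grad_ball_nb {v w : V} (h : v ∈ S.nb w) (J : ℕ) : S.ball v J ⊆ S.ball w (J + 1) := by
  induction J with
  | zero =>
    intro x hx
    have hx' : x = v := by simpa [Tri.ball] using hx
    rw [hx']
    exact S.nb_subset_ball w 0 (S.mem_ball w 0) h
  | succ J ih =>
    intro x hx
    have hx' : x ∈ S.ball v J ∪ (S.ball v J).biUnion S.nb := hx
    rcases mem_union.1 hx' with hx' | hx'
    · exact S.ball_succ w _ (ih hx')
    · obtain ⟨y, hy, hxy⟩ := mem_biUnion.1 hx'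
      exact S.nb_subset_ball w _ (ih hy) hxy

/-- the sum over all targets -/
lemma grad_sum_target (a : ℝ) (J : ℕ) (w : V) (L : Finset V) (hL : S.ball w J ⊆ L) :
    ∑ x ∈ L, S.U a x J w = Tri.SJ a J := by
  induction J generalizing w L with
  | zero =>
    have : ∀ x, S.U a x 0 w = 0 := fun _ => rfl
    simp [this, Tri.SJ]
  | succ J ih =>
    simp_rw [Tri.U_succ, sum_add_distrib]
    rw [Tri.SJ_succ]
    congr 1
    · rw [sum_ite_eq, if_pos (hL (S.mem_ball w _))]
    · rw [← mul_sum]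
      congr 1
      unfold Tri.Q
      rw [sum_comm]
      calc ∑ v ∈ S.nb w, ∑ x ∈ L, S.K w v * S.U a x J v
          = ∑ v ∈ S.nb w, S.K w v * Tri.SJ a J := by
            refine sum_congr rfl fun v hv => ?_
            rw [← mul_sum, ih v L ((grad_ball_nb S hv J).trans hL)]
        _ = Tri.SJ a J := by rw [← sum_mul, S.sum_one, one_mul]

lemma grad_U_mono {a : ℝ} (ha : 0 ≤ a) (o : V) {m n : ℕ} (h : m ≤ n) (x : V) :
    S.U a o m x ≤ S.U a o n x := by
  induction n, h using Nat.le_induction with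
  | base => exact le_rfl
  | succ n _ ih => exact ih.trans (S.U_le_succ ha o n x)

/-- hitting estimate -/
lemma grad_hit {a : ℝ} (ha : 0 ≤ a) (ha1 : a ≤ 1) (o x : V) (I J : ℕ) (hIJ : I ≤ J) (v : V) :
    a ^ I * (1 - S.hn o I v) * S.U a x (J - I) o ≤ S.U a x J v := by
  induction I generalizing J v with
  | zero =>
    by_cases h : v = o
    · subst h
      rw [grad_hn_self]
      simp
    · have : S.hn o 0 v = 1 := by simp [Tri.hn, h]
      rw [this]
      simp only [sub_self, mul_zero, zero_mul]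
      exact S.U_nonneg ha x J v
  | succ I ih =>
    obtain ⟨J', rfl⟩ : ∃ J', J = J' + 1 := ⟨J - 1, by omega⟩
    have e : J' + 1 - (I + 1) = J' - I := by omega
    rw [e]
    by_cases h : v = o
    · subst h
      rw [grad_hn_self, sub_zero, mul_one]
      have h1 : a ^ (I + 1) ≤ 1 := pow_le_one₀ ha ha1
      have h2 := S.U_nonneg ha x (J' - I) v
      calc a ^ (I + 1) * S.U a x (J' - I) v ≤ 1 * S.U a x (J' - I) v :=
            mul_le_mul_of_nonneg_right h1 h2
        _ = S.U a x (J' - I) v := one_mul _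
        _ ≤ S.U a x (J' + 1) v := grad_U_mono S ha x (by omega) v
    · rw [grad_hn_succ_ne S _ h, Tri.U_succ]
      have h1 : a ^ (I + 1) * (1 - S.Q (S.hn o I) v) * S.U a x (J' - I) o =
          a * ∑ w ∈ S.nb v, S.K v w * (a ^ I * (1 - S.hn o I w) * S.U a x (J' - I) o) := by
        have e1 : (1 : ℝ) - S.Q (S.hn o I) v = ∑ w ∈ S.nb v, S.K v w * (1 - S.hn o I w) := by
          unfold Tri.Q
          simp_rw [mul_sub, mul_one, sum_sub_distrib, S.sum_one]
        rw [e1, mul_sum, mul_sum, sum_mul]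
        exact sum_congr rfl fun w _ => by ring
      rw [h1]
      have h2 : ∑ w ∈ S.nb v, S.K v w * (a ^ I * (1 - S.hn o I w) * S.U a x (J' - I) o) ≤
          S.Q (S.U a x J') v :=
        sum_le_sum fun w _ => mul_le_mul_of_nonneg_left (ih J' (by omega) w) (S.nonneg _ _)
      have h3 := mul_le_mul_of_nonneg_left h2 ha
      have h4 : (0 : ℝ) ≤ if v = x then 1 else 0 := by split_ifs <;> norm_num
      linarith

lemma grad_SJ_nonneg {a : ℝ} (ha : 0 ≤ a) (J : ℕ) : 0 ≤ Tri.SJ a J :=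
  sum_nonneg fun _ _ => pow_nonneg ha _

lemma grad_SJ_sub {a : ℝ} (ha : 0 ≤ a) (ha1 : a ≤ 1) (I J : ℕ) (hIJ : I ≤ J) :
    Tri.SJ a J ≤ Tri.SJ a (J - I) + I := by
  obtain ⟨m, rfl⟩ : ∃ m, J = m + I := ⟨J - I, by omega⟩
  rw [Nat.add_sub_cancel]
  unfold Tri.SJ
  rw [sum_range_add]
  have : ∑ j ∈ range I, a ^ (m + j) ≤ ∑ _j ∈ range I, (1 : ℝ) :=
    sum_le_sum fun j _ => pow_le_one₀ ha ha1
  simp only [sum_const, card_range, nsmul_eq_mul, mul_one] at this
  linarith

/-- the variation across one edge -/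
lemma grad_edge {a : ℝ} (ha : 0 ≤ a) (ha1 : a ≤ 1) (o v : V) (I J : ℕ) (hIJ : I ≤ J)
    (L : Finset V) :
    ∑ x ∈ L, |S.U a x J v - S.U a x J o| ≤
      2 * ((1 - a ^ I) * Tri.SJ a J + I) + 2 * S.hn o I v * Tri.SJ a J := by
  set M := L ∪ (S.ball v J ∪ (S.ball o J ∪ S.ball o (J - I))) with hM
  have hLM : L ⊆ M := subset_union_left
  have hM1 : S.ball v J ⊆ M := subset_union_left.trans subset_union_right
  have hM2 : S.ball o J ⊆ M :=
    (subset_union_left.trans subset_union_right).trans subset_union_right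
  have hM3 : S.ball o (J - I) ⊆ M :=
    (subset_union_right.trans subset_union_right).trans subset_union_right
  set c := a ^ I * (1 - S.hn o I v) with hc
  have hn0 := grad_hn_nonneg S o I v
  have hn1 := grad_hn_le_one S o I v
  have haI0 : 0 ≤ a ^ I := pow_nonneg ha _
  have haI1 : a ^ I ≤ 1 := pow_le_one₀ ha ha1
  have hc0 : 0 ≤ c := mul_nonneg haI0 (by linarith)
  have hc1 : c ≤ 1 := by
    calc c ≤ 1 * 1 := mul_le_mul haI1 (by linarith) (by linarith) (by norm_num)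
      _ = 1 := one_mul 1
  have hpt : ∀ x, |S.U a x J v - S.U a x J o| ≤
      (S.U a x J v - S.U a x J o) + 2 * (S.U a x J o - c * S.U a x (J - I) o) := by
    intro x
    have h1 : c * S.U a x (J - I) o ≤ S.U a x J v := grad_hit S ha ha1 o x I J hIJ v
    have h2 : S.U a x (J - I) o ≤ S.U a x J o := grad_U_mono S ha x (by omega) o
    have h3 : 0 ≤ S.U a x (J - I) o := S.U_nonneg ha x _ o
    have h4 : c * S.U a x (J - I) o ≤ S.U a x J o := by
      calc c * S.U a x (J - I) o ≤ 1 * S.U a x (J - I) o := mul_le_mul_of_nonneg_right hc1 h3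
        _ ≤ _ := by rw [one_mul]; exact h2
    rcases abs_cases (S.U a x J v - S.U a x J o) with ⟨h, _⟩ | ⟨h, _⟩ <;> rw [h] <;> linarith
  have hsum : ∑ x ∈ M, |S.U a x J v - S.U a x J o| ≤
      2 * (Tri.SJ a J - c * Tri.SJ a (J - I)) := by
    calc ∑ x ∈ M, |S.U a x J v - S.U a x J o| ≤ ∑ x ∈ M,
        ((S.U a x J v - S.U a x J o) + 2 * (S.U a x J o - c * S.U a x (J - I) o)) :=
          sum_le_sum fun x _ => hpt x
      _ = 2 * (Tri.SJ a J - c * Tri.SJ a (J - I)) := by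
          rw [sum_add_distrib, sum_sub_distrib, ← mul_sum, sum_sub_distrib, ← mul_sum,
            grad_sum_target S a J v M hM1, grad_sum_target S a J o M hM2,
            grad_sum_target S a (J - I) o M hM3]
          ring
  have hSJ := grad_SJ_sub ha ha1 I J hIJ
  have hSJ0 := grad_SJ_nonneg ha J
  have hI0 : (0 : ℝ) ≤ I := Nat.cast_nonneg _
  have h5 : c * (Tri.SJ a J - I) ≤ c * Tri.SJ a (J - I) :=
    mul_le_mul_of_nonneg_left (by linarith) hc0
  have h6 : c * (I : ℝ) ≤ I := by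
    calc c * (I : ℝ) ≤ 1 * I := mul_le_mul_of_nonneg_right hc1 hI0
      _ = I := one_mul _
  have h7 : (1 - c) * Tri.SJ a J ≤ ((1 - a ^ I) + S.hn o I v) * Tri.SJ a J := by
    refine mul_le_mul_of_nonneg_right ?_ hSJ0
    rw [hc]
    nlinarith
  calc ∑ x ∈ L, |S.U a x J v - S.U a x J o| ≤ ∑ x ∈ M, |S.U a x J v - S.U a x J o| :=
        sum_le_sum_of_subset_of_nonneg hLM fun _ _ _ => abs_nonneg _
    _ ≤ 2 * (Tri.SJ a J - c * Tri.SJ a (J - I)) := hsum
    _ ≤ _ := by nlinarith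

lemma grad_U_one_pos (o : V) (I : ℕ) (hI : 1 ≤ I) : 1 ≤ S.U 1 o I o := by
  obtain ⟨n, rfl⟩ : ∃ n, I = n + 1 := ⟨I - 1, by omega⟩
  rw [Tri.U_succ, if_pos rfl, one_mul]
  have := grad_Q_nonneg S (fun x => S.U_nonneg zero_le_one o n x) o
  linarith

/-- the bound for the sum over the targets -/
lemma grad_sum_dual (o : V) {k : ℝ} (hk : 0 < k)
    (hk1 : ∀ x y, 0 < S.K x y → k ≤ S.K x y) {a : ℝ} (ha : 0 ≤ a) (ha1 : a ≤ 1) (I J : ℕ)
    (hI : 1 ≤ I) (hIJ : I ≤ J) (L : Finset V) :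
    ∑ x ∈ L, S.lam a x J o ≤ 2 * (S.nb o).card * ((1 - a ^ I) * Tri.SJ a J + I) +
      2 / (k * S.U 1 o I o) * Tri.SJ a J := by
  set A := (S.nb o).filter (fun v => 0 < S.K o v) with hA
  have hSJ0 := grad_SJ_nonneg ha J
  have hU := grad_U_one_pos S o I hI
  have haI1 : a ^ I ≤ 1 := pow_le_one₀ ha ha1
  have h1 : ∑ x ∈ L, S.lam a x J o ≤
      ∑ v ∈ A, (2 * ((1 - a ^ I) * Tri.SJ a J + I) + 2 * S.hn o I v * Tri.SJ a J) := by
    unfold Tri.lam
    rw [sum_comm]
    exact sum_le_sum fun v _ => grad_edge S ha ha1 o v I J hIJ L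
  have h2 : ∑ v ∈ A, (2 * ((1 - a ^ I) * Tri.SJ a J + I) + 2 * S.hn o I v * Tri.SJ a J) =
      A.card * (2 * ((1 - a ^ I) * Tri.SJ a J + I)) + 2 * Tri.SJ a J * ∑ v ∈ A, S.hn o I v := by
    rw [sum_add_distrib, sum_const, nsmul_eq_mul, mul_sum]
    congr 1
    exact sum_congr rfl fun v _ => by ring
  have h3 : ∑ v ∈ A, S.hn o I v ≤ 1 / (k * S.U 1 o I o) := by
    have h4 : k * ∑ v ∈ A, S.hn o I v ≤ S.Q (S.hn o I) o := by
      rw [mul_sum]
      calc ∑ v ∈ A, k * S.hn o I v ≤ ∑ v ∈ A, S.K o v * S.hn o I v :=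
            sum_le_sum fun v hv => mul_le_mul_of_nonneg_right
              (hk1 o v (mem_filter.1 hv).2) (grad_hn_nonneg S o I v)
        _ ≤ ∑ v ∈ S.nb o, S.K o v * S.hn o I v :=
            sum_le_sum_of_subset_of_nonneg (filter_subset _ _) fun v _ _ =>
              mul_nonneg (S.nonneg _ _) (grad_hn_nonneg S o I v)
    have h5 := U_mul_hn_le S o I I (by omega)
    rw [le_div_iff₀ (by positivity)]
    have h6 : S.U 1 o I o * (k * ∑ v ∈ A, S.hn o I v) ≤ S.U 1 o I o * S.Q (S.hn o I) o :=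
      mul_le_mul_of_nonneg_left h4 (by linarith)
    calc (∑ v ∈ A, S.hn o I v) * (k * S.U 1 o I o) = S.U 1 o I o * (k * ∑ v ∈ A, S.hn o I v) := by
          ring
      _ ≤ 1 := h6.trans h5
  have h7 : (A.card : ℝ) * (2 * ((1 - a ^ I) * Tri.SJ a J + I)) ≤
      (S.nb o).card * (2 * ((1 - a ^ I) * Tri.SJ a J + I)) := by
    refine mul_le_mul_of_nonneg_right ?_ ?_
    · exact_mod_cast card_le_card (filter_subset _ _)
    · have : 0 ≤ (1 - a ^ I) * Tri.SJ a J := mul_nonneg (by linarith) hSJ0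
      positivity
  have h8 : 2 * Tri.SJ a J * ∑ v ∈ A, S.hn o I v ≤ 2 * Tri.SJ a J * (1 / (k * S.U 1 o I o)) :=
    mul_le_mul_of_nonneg_left h3 (by positivity)
  calc ∑ x ∈ L, S.lam a x J o ≤ _ := h1
    _ = _ := h2
    _ ≤ (S.nb o).card * (2 * ((1 - a ^ I) * Tri.SJ a J + I)) +
        2 * Tri.SJ a J * (1 / (k * S.U 1 o I o)) := add_le_add h7 h8
    _ = _ := by ring

end grad

theorem sum_lam_le (S : Tri V) (o : V) {k : ℝ} (hk : 0 < k)
    (hk1 : ∀ x y, 0 < S.K x y → k ≤ S.K x y) {a : ℝ} (ha : 0 ≤ a) (ha1 : a ≤ 1) (I J : ℕ)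
    (hI : 1 ≤ I) (hIJ : I ≤ J) (L : Finset V) :
    ∑ y ∈ L, S.lam a o J y ≤ 2 * (S.nb o).card * ((1 - a ^ I) * Tri.SJ a J + I) +
      2 / (k * S.U 1 o I o) * Tri.SJ a J := by
  set B := 2 * (S.nb o).card * ((1 - a ^ I) * Tri.SJ a J + I) +
      2 / (k * S.U 1 o I o) * Tri.SJ a J with hB
  have hB0 : 0 ≤ B := by
    have := grad_sum_dual S o hk hk1 ha ha1 I J hI hIJ ∅
    simpa using this
  have h := mtp S.trans S.fin S.unimod (fun x y => ENNReal.ofReal (S.lam a x J y))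
    (fun γ hγ x y => by rw [grad_lam_inv S hγ]) o
  have h2 : ∑' y, ENNReal.ofReal (S.lam a y J o) ≤ ENNReal.ofReal B := by
    rw [ENNReal.tsum_eq_iSup_sum]
    refine iSup_le fun M => ?_
    rw [← ENNReal.ofReal_sum_of_nonneg fun _ _ => grad_lam_nonneg S _ _ _ _]
    exact ENNReal.ofReal_le_ofReal (grad_sum_dual S o hk hk1 ha ha1 I J hI hIJ M)
  rw [← h] at h2
  have h3 : ∑ x ∈ L, ENNReal.ofReal (S.lam a o J x) ≤ ENNReal.ofReal B :=
    (ENNReal.sum_le_tsum L).trans h2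
  rw [← ENNReal.ofReal_sum_of_nonneg fun _ _ => grad_lam_nonneg S _ _ _ _] at h3
  exact (ENNReal.ofReal_le_ofReal_iff hB0).1 h3

end Pool.Agent.TH996.Park
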