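import Pool.Agent.TH996.Rec.Defs

/-!
Mass transport identities in L2.
-/

namespace Pool.Agent.TH996.Park
open MeasureTheory Measure Finset
variable {V : Type*} [DecidableEq V] [MeasurableSpace V] [MeasurableSingletonClass V] [Countable V]

omit [MeasurableSpace V] [MeasurableSingletonClass V] [Countable V] in
/-- mass transport for real functions supported on neighbours -/
lemma l2_mtp_real (S : Tri V) (f : V → V → ℝ) (hf : ∀ γ ∈ S.Γ, ∀ x y, f (γ x) (γ y) = f x y)
    (hs : ∀ x y, y ∉ S.nb x → f x y = 0) (o : V) :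
    ∑ y ∈ S.nb o, f o y = ∑ y ∈ S.nb o, f y o := by
  have key : ∀ g : V → V → ℝ, (∀ γ ∈ S.Γ, ∀ x y, g (γ x) (γ y) = g x y) →
      (∀ x y, y ∉ S.nb x → g x y = 0) →
      ∑ y ∈ S.nb o, max (g o y) 0 = ∑ y ∈ S.nb o, max (g y o) 0 := by
    intro g hg hgs
    have h := mtp S.trans S.fin S.unimod (fun x y => ENNReal.ofReal (g x y))
      (fun γ hγ x y => by rw [hg γ hγ]) o
    rw [tsum_eq_sum (s := S.nb o), tsum_eq_sum (s := S.nb o)] at h
    · have h2 := congrArg ENNReal.toReal h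
      rw [ENNReal.toReal_sum (fun _ _ => ENNReal.ofReal_ne_top),
        ENNReal.toReal_sum (fun _ _ => ENNReal.ofReal_ne_top)] at h2
      simpa only [ENNReal.toReal_ofReal_eq_iff, ENNReal.toReal_ofReal'] using h2
    · intro y hy
      rw [hgs y o fun h' => hy (S.symm _ _ h'), ENNReal.ofReal_zero]
    · intro y hy
      rw [hgs o y hy, ENNReal.ofReal_zero]
  have h1 := key f hf hs
  have h2 := key (fun x y => -f x y) (fun γ hγ x y => by simp only [hf γ hγ])
    (fun x y h => by simp only [hs x y h, neg_zero])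
  have e : ∀ r : ℝ, r = max r 0 - max (-r) 0 := by
    intro r
    rcases le_total 0 r with h | h
    · rw [max_eq_left h, max_eq_right (by linarith)]; ring
    · rw [max_eq_right h, max_eq_left (by linarith)]; ring
  calc ∑ y ∈ S.nb o, f o y = ∑ y ∈ S.nb o, (max (f o y) 0 - max (-f o y) 0) :=
        sum_congr rfl fun y _ => e _
    _ = ∑ y ∈ S.nb o, (max (f y o) 0 - max (-f y o) 0) := by
        rw [sum_sub_distrib, sum_sub_distrib, h1, h2]
    _ = _ := sum_congr rfl fun y _ => (e _).symm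

theorem integral_adj (S : Tri V) {p κ : ℝ} (hp : 0 ≤ p ∧ p ≤ 1) (hκ : 0 ≤ κ ∧ κ ≤ 1)
    {X Y : V → Om V → ℝ} (hX : ∀ x, BM (X x)) (hY : ∀ x, BM (Y x))
    (hXs : ∀ γ ∈ S.Γ, ∀ x ω, X (γ x) (shift γ ω) = X x ω)
    (hYs : ∀ γ ∈ S.Γ, ∀ x ω, Y (γ x) (shift γ ω) = Y x ω) (o : V) :
    ∫ ω, Y o ω * S.P (fun y => X y ω) o ∂(S.law p κ) =
      ∫ ω, S.Q (fun y => Y y ω) o * X o ω ∂(S.law p κ) := by
  have := law_prob S hp hκ
  have h := l2_mtp_real S (fun x y => S.K y x * ∫ ω, Y x ω * X y ω ∂(S.law p κ))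
    (fun γ hγ x y => by
      rw [S.inv_K γ hγ, ← integral_shift S hγ hp.1 hp.2 hκ.1 hκ.2 ((hY (γ x)).mul (hX (γ y)))]
      simp_rw [hXs γ hγ, hYs γ hγ])
    (fun x y hy => by
      rw [S.supp y x fun h' => hy (S.symm _ _ h'), zero_mul]) o
  have e1 : ∫ ω, Y o ω * S.P (fun y => X y ω) o ∂(S.law p κ) =
      ∑ y ∈ S.nb o, S.K y o * ∫ ω, Y o ω * X y ω ∂(S.law p κ) := by
    have : ∀ ω : Om V, Y o ω * S.P (fun y => X y ω) o =
        ∑ y ∈ S.nb o, S.K y o * (Y o ω * X y ω) := by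
      intro ω
      unfold Tri.P
      rw [mul_sum]
      exact sum_congr rfl fun y _ => by ring
    simp_rw [this]
    rw [integral_finsetSum _ fun y _ => (((hY o).mul (hX y)).smul _).integrable _]
    simp_rw [integral_const_mul]
  have e2 : ∫ ω, S.Q (fun y => Y y ω) o * X o ω ∂(S.law p κ) =
      ∑ y ∈ S.nb o, S.K o y * ∫ ω, Y y ω * X o ω ∂(S.law p κ) := by
    have : ∀ ω : Om V, S.Q (fun y => Y y ω) o * X o ω =
        ∑ y ∈ S.nb o, S.K o y * (Y y ω * X o ω) := by
      intro ω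
      unfold Tri.Q
      rw [sum_mul]
      exact sum_congr rfl fun y _ => by ring
    simp_rw [this]
    rw [integral_finsetSum _ fun y _ => (((hY y).mul (hX o)).smul _).integrable _]
    simp_rw [integral_const_mul]
  rw [e1, e2]
  exact h

theorem integral_adjR (S : Tri V) {p κ : ℝ} (hp : 0 ≤ p ∧ p ≤ 1) (hκ : 0 ≤ κ ∧ κ ≤ 1) (a : ℝ)
    (J : ℕ) {X Y : V → Om V → ℝ} (hX : ∀ x, BM (X x)) (hY : ∀ x, BM (Y x))
    (hXs : ∀ γ ∈ S.Γ, ∀ x ω, X (γ x) (shift γ ω) = X x ω)
    (hYs : ∀ γ ∈ S.Γ, ∀ x ω, Y (γ x) (shift γ ω) = Y x ω) (o : V) :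
    ∫ ω, Y o ω * S.R a J (fun y => X y ω) o ∂(S.law p κ) =
      ∫ ω, S.rev.R a J (fun y => Y y ω) o * X o ω ∂(S.law p κ) := by
  have := law_prob S hp hκ
  induction J generalizing Y o with
  | zero => simp [Tri.R]
  | succ J ih =>
    have hR := bm_R S a J hX
    have hQ : ∀ x, BM (fun ω => S.rev.P (fun y => Y y ω) x) := bm_P S.rev hY
    have hQs : ∀ γ ∈ S.Γ, ∀ x ω, (fun x ω => S.rev.P (fun y => Y y ω) x) (γ x) (shift γ ω) =
        (fun x ω => S.rev.P (fun y => Y y ω) x) x ω := fun γ hγ x ω =>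
      P_shift S.rev hγ (hYs γ hγ) x ω
    have e1 : ∫ ω, Y o ω * S.R a (J + 1) (fun y => X y ω) o ∂(S.law p κ) =
        ∫ ω, Y o ω * X o ω ∂(S.law p κ) +
          a * ∫ ω, Y o ω * S.P (fun y => S.R a J (fun y => X y ω) y) o ∂(S.law p κ) := by
      have : ∀ ω : Om V, Y o ω * S.R a (J + 1) (fun y => X y ω) o =
          Y o ω * X o ω + a * (Y o ω * S.P (fun y => S.R a J (fun y => X y ω) y) o) := by
        intro ω
        rw [Tri.R_succ]
        ring
      simp_rw [this]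
      rw [integral_add (((hY o).mul (hX o)).integrable _)
        ((((hY o).mul (bm_P S hR o)).smul a).integrable _), integral_const_mul]
    have e2 : ∫ ω, Y o ω * S.P (fun y => S.R a J (fun y => X y ω) y) o ∂(S.law p κ) =
        ∫ ω, S.rev.P (fun y => Y y ω) o * S.R a J (fun y => X y ω) o ∂(S.law p κ) :=
      integral_adj S hp hκ (X := fun x ω => S.R a J (fun y => X y ω) x) hR hY
        (fun γ hγ x ω => R_shift S a J hγ (hXs γ hγ) x ω) hYs o
    have e3 := ih (Y := fun x ω => S.rev.P (fun y => Y y ω) x) hQ hQs o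
    have hR' := bm_R S.rev a J (X := fun x ω => S.rev.P (fun y => Y y ω) x) hQ
    have e4 : ∫ ω, S.rev.R a (J + 1) (fun y => Y y ω) o * X o ω ∂(S.law p κ) =
        ∫ ω, Y o ω * X o ω ∂(S.law p κ) +
          a * ∫ ω, S.rev.R a J (fun y => S.rev.P (fun z => Y z ω) y) o * X o ω
            ∂(S.law p κ) := by
      have : ∀ ω : Om V, S.rev.R a (J + 1) (fun y => Y y ω) o * X o ω =
          Y o ω * X o ω + a * (S.rev.R a J (fun y => S.rev.P (fun z => Y z ω) y) o * X o ω) := by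
        intro ω
        rw [Tri.R_succ, ← S.rev.R_P a J (fun y => Y y ω) o]
        ring
      simp_rw [this]
      rw [integral_add (((hY o).mul (hX o)).integrable _)
        ((((hR' o).mul (hX o)).smul a).integrable _), integral_const_mul]
    rw [e1, e2, e3, e4]

omit [MeasurableSpace V] [MeasurableSingletonClass V] [Countable V] in
lemma l2_P_sub (S : Tri V) (f g : V → ℝ) (x : V) :
    S.P (fun y => f y - g y) x = S.P f x - S.P g x := by
  simp only [Tri.P, mul_sub, sum_sub_distrib]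

omit [MeasurableSpace V] [MeasurableSingletonClass V] [Countable V] in
lemma l2_R_sub (S : Tri V) (a : ℝ) (J : ℕ) (f : V → ℝ) (x : V) :
    S.R a J (fun y => f y - a * S.P f y) x = f x - a ^ J * (S.P^[J]) f x := by
  induction J generalizing x with
  | zero => simp [Tri.R]
  | succ J ih =>
    rw [Tri.R_succ]
    have e : S.R a J (fun y => f y - a * S.P f y) = fun y => f y - a ^ J * (S.P^[J]) f y :=
      funext ih
    rw [e, l2_P_sub, S.P_smul, Function.iterate_succ_apply']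
    ring

omit [MeasurableSpace V] [MeasurableSingletonClass V] [Countable V] in
/-- Jensen for the averaging operator -/
lemma l2_P_sq_le (S : Tri V) (f : V → ℝ) (x : V) : (S.P f x) ^ 2 ≤ S.P (fun y => f y ^ 2) x := by
  have h1 : 0 ≤ ∑ y ∈ S.nb x, S.K y x * (f y - S.P f x) ^ 2 :=
    sum_nonneg fun y _ => mul_nonneg (S.nonneg _ _) (sq_nonneg _)
  have h2 : ∑ y ∈ S.nb x, S.K y x * (f y - S.P f x) ^ 2 =
      S.P (fun y => f y ^ 2) x - 2 * S.P f x * S.P f x + (S.P f x) ^ 2 := by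
    have : ∀ y ∈ S.nb x, S.K y x * (f y - S.P f x) ^ 2 =
        S.K y x * f y ^ 2 - (2 * S.P f x) * (S.K y x * f y) + S.K y x * (S.P f x) ^ 2 := by
      intro y _; ring
    rw [sum_congr rfl this, sum_add_distrib, sum_sub_distrib, ← mul_sum, ← sum_mul, S.col_one,
      one_mul]
    rfl
  rw [h2] at h1
  nlinarith

omit [MeasurableSingletonClass V] [Countable V] in
lemma l2_bm_iter (S : Tri V) (J : ℕ) {X : V → Om V → ℝ} (hX : ∀ x, BM (X x)) (x : V) :
    BM (fun ω => (S.P^[J]) (fun y => X y ω) x) := by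
  induction J generalizing x with
  | zero => exact hX x
  | succ J ih =>
    simp_rw [Function.iterate_succ_apply']
    exact bm_P S ih x

omit [MeasurableSpace V] [MeasurableSingletonClass V] [Countable V] in
lemma l2_iter_shift (S : Tri V) (J : ℕ) {X : V → Om V → ℝ} {γ : Equiv.Perm V} (hγ : γ ∈ S.Γ)
    (h : ∀ x ω, X (γ x) (shift γ ω) = X x ω) (x : V) (ω : Om V) :
    (S.P^[J]) (fun y => X y (shift γ ω)) (γ x) = (S.P^[J]) (fun y => X y ω) x := by
  induction J generalizing x ω with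
  | zero => exact h x ω
  | succ J ih =>
    simp_rw [Function.iterate_succ_apply']
    exact P_shift S (X := fun x ω => (S.P^[J]) (fun y => X y ω) x) hγ ih x ω

lemma l2_iter_sq (S : Tri V) {p κ : ℝ} (hp : 0 ≤ p ∧ p ≤ 1) (hκ : 0 ≤ κ ∧ κ ≤ 1) (J : ℕ)
    {X : V → Om V → ℝ} (hX : ∀ x, BM (X x))
    (hXs : ∀ γ ∈ S.Γ, ∀ x ω, X (γ x) (shift γ ω) = X x ω) (o : V) :
    ∫ ω, ((S.P^[J]) (fun y => X y ω) o) ^ 2 ∂(S.law p κ) ≤ ∫ ω, X o ω ^ 2 ∂(S.law p κ) := by
  have := law_prob S hp hκ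
  induction J with
  | zero => exact le_rfl
  | succ J ih =>
    refine le_trans ?_ ih
    have hb : ∀ x, BM (fun ω => ((S.P^[J]) (fun y => X y ω) x) ^ 2) := fun x =>
      (l2_bm_iter S J hX x).pow 2
    have e1 := integral_P S hp hκ hb (fun γ hγ x ω => by
      simp only [l2_iter_shift S J hγ (hXs γ hγ) x ω]) o
    rw [← e1]
    refine integral_mono (((l2_bm_iter S (J + 1) hX o).pow 2).integrable _)
      ((bm_P S hb o).integrable _) fun ω => ?_
    simp only
    rw [Function.iterate_succ_apply']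
    exact l2_P_sq_le S _ o

lemma l2_sq_integral_le (S : Tri V) {p κ : ℝ} (hp : 0 ≤ p ∧ p ≤ 1) (hκ : 0 ≤ κ ∧ κ ≤ 1)
    {F : Om V → ℝ} (hF : BM F) :
    (∫ ω, F ω ∂(S.law p κ)) ^ 2 ≤ ∫ ω, F ω ^ 2 ∂(S.law p κ) := by
  have := law_prob S hp hκ
  set c := ∫ ω, F ω ∂(S.law p κ) with hc
  have h1 : 0 ≤ ∫ ω, (F ω - c) ^ 2 ∂(S.law p κ) := integral_nonneg fun ω => sq_nonneg _
  have h2 : ∫ ω, (F ω - c) ^ 2 ∂(S.law p κ) = ∫ ω, F ω ^ 2 ∂(S.law p κ) - c ^ 2 := by
    have : ∀ ω, (F ω - c) ^ 2 = F ω ^ 2 - (2 * c) * F ω + c ^ 2 := fun ω => by ring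
    simp_rw [this]
    rw [integral_add (((hF.pow 2).sub (hF.smul (2 * c))).integrable _) (integrable_const _),
      integral_sub ((hF.pow 2).integrable _) ((hF.smul (2 * c)).integrable _),
      integral_const_mul, ← hc, integral_const]
    simp only [probReal_univ, smul_eq_mul, one_mul]
    ring
  linarith

theorem form_nonneg (S : Tri V) {p κ : ℝ} (hp : 0 ≤ p ∧ p ≤ 1) (hκ : 0 ≤ κ ∧ κ ≤ 1) {a : ℝ}
    (ha : 0 ≤ a) (ha1 : a ≤ 1) (J : ℕ) {X : V → Om V → ℝ} (hX : ∀ x, BM (X x))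
    (hXs : ∀ γ ∈ S.Γ, ∀ x ω, X (γ x) (shift γ ω) = X x ω) (o : V) :
    (1 - a ^ J) * (∫ ω, X o ω ∂(S.law p κ)) ^ 2 ≤
      ∫ ω, (X o ω - a * S.P (fun y => X y ω) o) * S.rev.R a J (fun y => X y ω) o
        ∂(S.law p κ) := by
  have := law_prob S hp hκ
  have hD : ∀ x, BM (fun ω => X x ω - a * S.P (fun y => X y ω) x) := fun x =>
    (hX x).sub ((bm_P S hX x).smul a)
  have hDs : ∀ γ ∈ S.Γ, ∀ x ω, (fun x ω => X x ω - a * S.P (fun y => X y ω) x) (γ x) (shift γ ω) =
      (fun x ω => X x ω - a * S.P (fun y => X y ω) x) x ω := by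
    intro γ hγ x ω
    simp only
    rw [hXs γ hγ, P_shift S hγ (hXs γ hγ)]
  have e1 := integral_adjR S hp hκ a J (X := fun x ω => X x ω - a * S.P (fun y => X y ω) x)
    (Y := X) hD hX hDs hXs o
  have e2 : ∫ ω, (X o ω - a * S.P (fun y => X y ω) o) * S.rev.R a J (fun y => X y ω) o
        ∂(S.law p κ) = ∫ ω, X o ω * S.R a J (fun y => X y ω - a * S.P (fun z => X z ω) y) o
        ∂(S.law p κ) := by
    rw [e1]
    exact integral_congr_ae (ae_of_all _ fun ω => mul_comm _ _)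
  rw [e2]
  have hb := l2_bm_iter S J hX o
  have e3 : ∫ ω, X o ω * S.R a J (fun y => X y ω - a * S.P (fun z => X z ω) y) o ∂(S.law p κ) =
      ∫ ω, X o ω ^ 2 ∂(S.law p κ) -
        a ^ J * ∫ ω, X o ω * (S.P^[J]) (fun y => X y ω) o ∂(S.law p κ) := by
    have : ∀ ω : Om V, X o ω * S.R a J (fun y => X y ω - a * S.P (fun z => X z ω) y) o =
        X o ω ^ 2 - a ^ J * (X o ω * (S.P^[J]) (fun y => X y ω) o) := by
      intro ω
      rw [l2_R_sub S a J (fun y => X y ω) o]
      ring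
    simp_rw [this]
    rw [integral_sub (((hX o).pow 2).integrable _) ((((hX o).mul hb).smul (a ^ J)).integrable _),
      integral_const_mul]
  rw [e3]
  have e4 : ∫ ω, X o ω * (S.P^[J]) (fun y => X y ω) o ∂(S.law p κ) ≤
      ∫ ω, X o ω ^ 2 ∂(S.law p κ) := by
    have h1 : ∫ ω, X o ω * (S.P^[J]) (fun y => X y ω) o ∂(S.law p κ) ≤
        ∫ ω, ((1 / 2 : ℝ) * X o ω ^ 2 + (1 / 2 : ℝ) * ((S.P^[J]) (fun y => X y ω) o) ^ 2)
          ∂(S.law p κ) := by
      refine integral_mono (((hX o).mul hb).integrable _)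
        (((((hX o).pow 2).smul _).add ((hb.pow 2).smul _)).integrable _) fun ω => ?_
      simp only
      nlinarith [sq_nonneg (X o ω - (S.P^[J]) (fun y => X y ω) o)]
    rw [integral_add ((((hX o).pow 2).smul _).integrable _) (((hb.pow 2).smul _).integrable _),
      integral_const_mul, integral_const_mul] at h1
    have h2 := l2_iter_sq S hp hκ J hX hXs o
    linarith
  have e5 := l2_sq_integral_le S hp hκ (hX o)
  have e6 : 0 ≤ a ^ J := pow_nonneg ha J
  have e7 : a ^ J ≤ 1 := pow_le_one₀ ha ha1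
  have e8 := mul_le_mul_of_nonneg_left e4 e6
  have e9 := mul_le_mul_of_nonneg_left e5 (sub_nonneg.2 e7)
  linarith

lemma l2_SJ_le {a : ℝ} (ha : 0 ≤ a) (ha1 : a ≤ 1) (J : ℕ) : Tri.SJ a J ≤ J := by
  unfold Tri.SJ
  calc ∑ j ∈ range J, a ^ j ≤ ∑ _j ∈ range J, (1 : ℝ) :=
        sum_le_sum fun j _ => pow_le_one₀ ha ha1
    _ = J := by simp

omit [MeasurableSpace V] [MeasurableSingletonClass V] [Countable V] in
lemma l2_P_abs (S : Tri V) (f : V → ℝ) (x : V) : |S.P f x| ≤ S.P (fun y => |f y|) x := by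
  unfold Tri.P
  refine (abs_sum_le_sum_abs _ _).trans (sum_le_sum fun y _ => ?_)
  rw [abs_mul, abs_of_nonneg (S.nonneg _ _)]

omit [MeasurableSpace V] in
lemma l2_bm_abs {Ω : Type*} [MeasurableSpace Ω] {F : Ω → ℝ} (hF : BM F) :
    BM (fun ω => |F ω|) := by
  obtain ⟨C, hC⟩ := hF.bdd
  exact ⟨continuous_abs.measurable.comp hF.meas, C, fun ω => by rw [abs_abs]; exact hC ω⟩

theorem avg_sub_le (S : Tri V) {p κ : ℝ} (hp : 0 ≤ p ∧ p ≤ 1) (hκ : 0 ≤ κ ∧ κ ≤ 1) {a : ℝ}
    (ha : 0 ≤ a) (ha1 : a ≤ 1) (J : ℕ) {X : V → Om V → ℝ} (hX : ∀ x, BM (X x))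
    (hXs : ∀ γ ∈ S.Γ, ∀ x ω, X (γ x) (shift γ ω) = X x ω) (o : V) :
    ∫ ω, |S.rev.R a J (fun y => X y ω) o - Tri.SJ a J * X o ω| ∂(S.law p κ) ≤
      J ^ 2 * √(2 * (∫ ω, X o ω ^ 2 ∂(S.law p κ) -
        ∫ ω, X o ω * S.P (fun y => X y ω) o ∂(S.law p κ))) := by
  have := law_prob S hp hκ
  have hQ : ∀ x, BM (fun ω => S.rev.P (fun y => X y ω) x) := bm_P S.rev hX
  -- the defect
  set e : ℝ := ∫ ω, |S.rev.P (fun y => X y ω) o - X o ω| ∂(S.law p κ) with he
  have he0 : 0 ≤ e := integral_nonneg fun ω => abs_nonneg _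
  have hdiff : ∀ x, BM (fun ω => S.rev.P (fun y => X y ω) x - X x ω) := fun x =>
    (hQ x).sub (hX x)
  have he1 : e ≤ √(2 * (∫ ω, X o ω ^ 2 ∂(S.law p κ) -
        ∫ ω, X o ω * S.P (fun y => X y ω) o ∂(S.law p κ))) := by
    apply Real.le_sqrt_of_sq_le
    have h1 : e ^ 2 ≤ ∫ ω, |S.rev.P (fun y => X y ω) o - X o ω| ^ 2 ∂(S.law p κ) :=
      l2_sq_integral_le S hp hκ (l2_bm_abs (hdiff o))
    refine h1.trans ?_
    simp_rw [sq_abs]
    have h2 : ∫ ω, (S.rev.P (fun y => X y ω) o - X o ω) ^ 2 ∂(S.law p κ) =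
        ∫ ω, (S.rev.P (fun y => X y ω) o) ^ 2 ∂(S.law p κ) -
          2 * ∫ ω, S.rev.P (fun y => X y ω) o * X o ω ∂(S.law p κ) +
          ∫ ω, X o ω ^ 2 ∂(S.law p κ) := by
      have : ∀ ω : Om V, (S.rev.P (fun y => X y ω) o - X o ω) ^ 2 =
          (S.rev.P (fun y => X y ω) o) ^ 2 - 2 * (S.rev.P (fun y => X y ω) o * X o ω) +
            X o ω ^ 2 := fun ω => by ring
      simp_rw [this]
      rw [integral_add ((((hQ o).pow 2).sub (((hQ o).mul (hX o)).smul 2)).integrable _)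
          (((hX o).pow 2).integrable _),
        integral_sub (((hQ o).pow 2).integrable _) ((((hQ o).mul (hX o)).smul 2).integrable _),
        integral_const_mul]
    have h3 : ∫ ω, (S.rev.P (fun y => X y ω) o) ^ 2 ∂(S.law p κ) ≤
        ∫ ω, X o ω ^ 2 ∂(S.law p κ) := by
      have hb : ∀ x, BM (fun ω => X x ω ^ 2) := fun x => (hX x).pow 2
      have h4 : ∫ ω, S.rev.P (fun y => X y ω ^ 2) o ∂(S.law p κ) =
          ∫ ω, X o ω ^ 2 ∂(S.law p κ) := by
        simp_rw [Tri.P]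
        rw [integral_finsetSum _ fun y _ => ((hb y).smul _).integrable _]
        simp_rw [integral_const_mul, integral_inv S hp hκ hb
          (fun γ hγ x ω => by simp only [hXs γ hγ]) _ o]
        rw [← sum_mul, S.rev.col_one, one_mul]
      rw [← h4]
      exact integral_mono (((hQ o).pow 2).integrable _) ((bm_P S.rev hb o).integrable _)
        fun ω => l2_P_sq_le S.rev _ o
    have h5 : ∫ ω, X o ω * S.P (fun y => X y ω) o ∂(S.law p κ) =
        ∫ ω, S.rev.P (fun y => X y ω) o * X o ω ∂(S.law p κ) :=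
      integral_adj S hp hκ hX hX hXs hXs o
    rw [h2, h5]
    linarith
  -- main induction
  have hZ : ∀ J : ℕ, ∀ x, BM (fun ω => S.rev.R a J (fun y => X y ω) x - Tri.SJ a J * X x ω) :=
    fun J x => (bm_R S.rev a J hX x).sub ((hX x).smul _)
  have hZs : ∀ J : ℕ, ∀ γ ∈ S.Γ, ∀ x ω,
      (fun x ω => S.rev.R a J (fun y => X y ω) x - Tri.SJ a J * X x ω) (γ x) (shift γ ω) =
      (fun x ω => S.rev.R a J (fun y => X y ω) x - Tri.SJ a J * X x ω) x ω := by
    intro J γ hγ x ω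
    simp only
    rw [R_shift S.rev a J hγ (hXs γ hγ), hXs γ hγ]
  have hmain : ∀ J : ℕ,
      ∫ ω, |S.rev.R a J (fun y => X y ω) o - Tri.SJ a J * X o ω| ∂(S.law p κ) ≤ J ^ 2 * e := by
    intro J
    induction J with
    | zero => simp [Tri.R, Tri.SJ]
    | succ J ih =>
      have h1 : ∀ ω : Om V, |S.rev.R a (J + 1) (fun y => X y ω) o - Tri.SJ a (J + 1) * X o ω| ≤
          S.rev.P (fun y => |S.rev.R a J (fun y => X y ω) y - Tri.SJ a J * X y ω|) o +
            J * |S.rev.P (fun y => X y ω) o - X o ω| := by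
        intro ω
        rw [Tri.R_succ, Tri.SJ_succ]
        have h2 : X o ω + a * S.rev.P (S.rev.R a J fun y => X y ω) o -
            (1 + a * Tri.SJ a J) * X o ω =
            a * S.rev.P (fun y => S.rev.R a J (fun y => X y ω) y - Tri.SJ a J * X y ω) o +
            a * Tri.SJ a J * (S.rev.P (fun y => X y ω) o - X o ω) := by
          rw [l2_P_sub, Tri.P_smul]
          ring
        rw [h2]
        refine (abs_add_le _ _).trans (add_le_add ?_ ?_)
        · rw [abs_mul, abs_of_nonneg ha]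
          have h3 := l2_P_abs S.rev (fun y => S.rev.R a J (fun y => X y ω) y -
            Tri.SJ a J * X y ω) o
          calc a * |S.rev.P (fun y => S.rev.R a J (fun y => X y ω) y - Tri.SJ a J * X y ω) o|
              ≤ 1 * |S.rev.P (fun y => S.rev.R a J (fun y => X y ω) y - Tri.SJ a J * X y ω) o| :=
                mul_le_mul_of_nonneg_right ha1 (abs_nonneg _)
            _ ≤ _ := by rw [one_mul]; exact h3
        · rw [abs_mul]
          refine mul_le_mul_of_nonneg_right ?_ (abs_nonneg _)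
          have h4 := SJ_nonneg ha J
          have h5 := l2_SJ_le ha ha1 J
          rw [abs_of_nonneg (mul_nonneg ha h4)]
          calc a * Tri.SJ a J ≤ 1 * Tri.SJ a J := mul_le_mul_of_nonneg_right ha1 h4
            _ ≤ J := by rw [one_mul]; exact h5
      have hZa : ∀ x, BM (fun ω => |S.rev.R a J (fun y => X y ω) x - Tri.SJ a J * X x ω|) :=
        fun x => l2_bm_abs (hZ J x)
      have h6 : ∫ ω, S.rev.P (fun y => |S.rev.R a J (fun y => X y ω) y - Tri.SJ a J * X y ω|) o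
          ∂(S.law p κ) =
          ∫ ω, |S.rev.R a J (fun y => X y ω) o - Tri.SJ a J * X o ω| ∂(S.law p κ) := by
        have hs : ∀ γ ∈ S.Γ, ∀ x ω,
            (fun x ω => |S.rev.R a J (fun y => X y ω) x - Tri.SJ a J * X x ω|) (γ x)
              (shift γ ω) =
            (fun x ω => |S.rev.R a J (fun y => X y ω) x - Tri.SJ a J * X x ω|) x ω := by
          intro γ hγ x ω
          have := hZs J γ hγ x ω
          simp only at this ⊢
          rw [this]
        simp_rw [Tri.P]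
        rw [integral_finsetSum _ fun y _ => ((hZa y).smul _).integrable _]
        simp_rw [integral_const_mul]
        have h7 : ∀ y ∈ S.rev.nb o, S.rev.K y o *
            ∫ ω, |S.rev.R a J (fun y => X y ω) y - Tri.SJ a J * X y ω| ∂(S.law p κ) =
            S.rev.K y o *
            ∫ ω, |S.rev.R a J (fun y => X y ω) o - Tri.SJ a J * X o ω| ∂(S.law p κ) := by
          intro y _
          rw [integral_inv S hp hκ hZa hs y o]
        rw [sum_congr rfl h7, ← sum_mul, S.rev.col_one, one_mul]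
      calc ∫ ω, |S.rev.R a (J + 1) (fun y => X y ω) o - Tri.SJ a (J + 1) * X o ω| ∂(S.law p κ)
          ≤ ∫ ω, (S.rev.P (fun y => |S.rev.R a J (fun y => X y ω) y - Tri.SJ a J * X y ω|) o +
            J * |S.rev.P (fun y => X y ω) o - X o ω|) ∂(S.law p κ) :=
            integral_mono ((l2_bm_abs (hZ (J + 1) o)).integrable _)
              (((bm_P S.rev hZa o).add ((l2_bm_abs (hdiff o)).smul J)).integrable _) h1
        _ = ∫ ω, |S.rev.R a J (fun y => X y ω) o - Tri.SJ a J * X o ω| ∂(S.law p κ) + J * e := by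
            rw [integral_add ((bm_P S.rev hZa o).integrable _)
              (((l2_bm_abs (hdiff o)).smul J).integrable _), integral_const_mul, h6]
        _ ≤ J ^ 2 * e + J * e := by linarith
        _ ≤ ((J + 1 : ℕ) : ℝ) ^ 2 * e := by
            push_cast
            have : (0 : ℝ) ≤ J * e := mul_nonneg (Nat.cast_nonneg J) he0
            nlinarith
  exact (hmain J).trans (mul_le_mul_of_nonneg_left he1 (by positivity))

end Pool.Agent.TH996.Park
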