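import Pool.Agent.TH996.Rec.Defs

/-!
Adding one car: the discrepancy performs a walk.
-/

namespace Pool.Agent.TH996.Park

open Finset

variable {V : Type*} [DecidableEq V]

/-- one step of the dynamics at time `s` -/
def stp (nb : V → Finset V) (ξ : ℕ × V × ℕ → V) (b : ℕ × V × ℕ → Bool) (s : ℕ)
    (σ : (V → ℕ) × (V → ℕ)) : (V → ℕ) × (V → ℕ) :=
  (fun x => arr nb ξ b σ.1 s x - σ.2 x, fun x => σ.2 x - arr nb ξ b σ.1 s x)

/-- number of departures from `x` at the times `s, ..., s + k - 1` -/
def dpk (nb : V → Finset V) (ξ : ℕ × V × ℕ → V) (b : ℕ × V × ℕ → Bool) :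
    ℕ → ℕ → (V → ℕ) × (V → ℕ) → V → ℕ
  | 0, _, _, _ => 0
  | k + 1, s, σ, x => σ.1 x + dpk nb ξ b k (s + 1) (stp nb ξ b s σ) x

/-- one more car arrives at `v` -/
def pert (v : V) (σ : (V → ℕ) × (V → ℕ)) : (V → ℕ) × (V → ℕ) :=
  if 0 < σ.2 v then (σ.1, Function.update σ.2 v (σ.2 v - 1))
  else (Function.update σ.1 v (σ.1 v + 1), σ.2)

variable (nb : V → Finset V) (ξ : ℕ × V × ℕ → V) (b : ℕ × V × ℕ → Bool)

lemma st_succ (c0 f0 : V → ℕ) (s : ℕ) :
    st nb ξ b c0 f0 (s + 1) = stp nb ξ b s (st nb ξ b c0 f0 s) := rfl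

/-- one more arrival at `w` -/
lemma pert_of_arr {A f : V → ℕ} {A' : V → ℕ} (w : V) (hA : ∀ x, A' x = A x + if x = w then 1 else 0) :
    ((fun x => A' x - f x, fun x => f x - A' x) : (V → ℕ) × (V → ℕ)) =
      pert w (fun x => A x - f x, fun x => f x - A x) := by
  unfold pert
  have hw : A' w = A w + 1 := by rw [hA]; simp
  split_ifs with h
  · simp only at h
    refine Prod.ext ?_ ?_
    · funext x
      simp only
      by_cases hx : x = w
      · subst hx; omega
      · rw [hA]; simp [hx]
    · funext x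
      simp only
      by_cases hx : x = w
      · subst hx; rw [Function.update_self]; omega
      · rw [Function.update_of_ne hx, hA]; simp [hx]
  · simp only at h
    refine Prod.ext ?_ ?_
    · funext x
      simp only
      by_cases hx : x = w
      · subst hx; rw [Function.update_self]; omega
      · rw [Function.update_of_ne hx, hA]; simp [hx]
    · funext x
      simp only
      by_cases hx : x = w
      · subst hx; omega
      · rw [hA]; simp [hx]

lemma stp_pert_pos (s : ℕ) (v : V) (σ : (V → ℕ) × (V → ℕ)) (h : 0 < σ.2 v) :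
    stp nb ξ b s (pert v σ) = pert v (stp nb ξ b s σ) := by
  have e1 : pert v σ = (σ.1, Function.update σ.2 v (σ.2 v - 1)) := by
    unfold pert; rw [if_pos h]
  rw [e1]
  unfold stp pert
  simp only
  set A := fun x => arr nb ξ b σ.1 s x with hA
  have hA' : ∀ x, arr nb ξ b σ.1 s x = A x := fun x => rfl
  simp only [hA']
  split_ifs with h1
  · refine Prod.ext ?_ ?_
    · funext x
      simp only
      by_cases hx : x = v
      · subst hx; rw [Function.update_self]; omega
      · rw [Function.update_of_ne hx]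
    · funext x
      simp only
      by_cases hx : x = v
      · subst hx; rw [Function.update_self, Function.update_self]; omega
      · rw [Function.update_of_ne hx, Function.update_of_ne hx]
  · refine Prod.ext ?_ ?_
    · funext x
      simp only
      by_cases hx : x = v
      · subst hx; rw [Function.update_self, Function.update_self]; omega
      · rw [Function.update_of_ne hx, Function.update_of_ne hx]
    · funext x
      simp only
      by_cases hx : x = v
      · subst hx; rw [Function.update_self]; omega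
      · rw [Function.update_of_ne hx]

lemma arr_update (s : ℕ) (v : V) (c : V → ℕ) (x : V) :
    arr nb ξ b (Function.update c v (c v + 1)) s x = arr nb ξ b c s x +
      if v ∈ nb x ∧ b (s, v, c v) = false ∧ ξ (s, v, c v) = x then 1 else 0 := by
  unfold arr
  by_cases hv : v ∈ nb x
  · rw [← add_sum_erase _ _ hv, ← add_sum_erase (nb x) (fun y => ((range (c y)).filter
      fun i => b (s, y, i) = false ∧ ξ (s, y, i) = x).card) hv]
    have e1 : ∑ y ∈ (nb x).erase v, ((range (Function.update c v (c v + 1) y)).filter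
        fun i => b (s, y, i) = false ∧ ξ (s, y, i) = x).card =
        ∑ y ∈ (nb x).erase v, ((range (c y)).filter
        fun i => b (s, y, i) = false ∧ ξ (s, y, i) = x).card := by
      refine sum_congr rfl fun y hy => ?_
      rw [Function.update_of_ne (ne_of_mem_erase hy)]
    rw [e1, Function.update_self, range_add_one, filter_insert]
    split_ifs with h1 h2 h2
    · rw [card_insert_of_notMem (by simp)]; ring
    · exact absurd ⟨hv, h1⟩ h2
    · exact absurd h2.2 h1
    · ring
  · have e1 : ∑ y ∈ nb x, ((range (Function.update c v (c v + 1) y)).filter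
        fun i => b (s, y, i) = false ∧ ξ (s, y, i) = x).card =
        ∑ y ∈ nb x, ((range (c y)).filter
        fun i => b (s, y, i) = false ∧ ξ (s, y, i) = x).card := by
      refine sum_congr rfl fun y hy => ?_
      rw [Function.update_of_ne (fun e : y = v => hv (by rw [← e]; exact hy))]
    rw [e1]
    simp [hv]

lemma stp_pert_zero (hnb : ∀ x y, y ∈ nb x → x ∈ nb y) (s : ℕ) (v : V)
    (σ : (V → ℕ) × (V → ℕ)) (h : ¬ 0 < σ.2 v) :
    stp nb ξ b s (pert v σ) =
      if b (s, v, σ.1 v) = false ∧ ξ (s, v, σ.1 v) ∈ nb v then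
        pert (ξ (s, v, σ.1 v)) (stp nb ξ b s σ) else stp nb ξ b s σ := by
  have e1 : pert v σ = (Function.update σ.1 v (σ.1 v + 1), σ.2) := by
    unfold pert; rw [if_neg h]
  rw [e1]
  split_ifs with h1
  · unfold stp
    simp only
    refine pert_of_arr (ξ (s, v, σ.1 v)) fun x => ?_
    rw [arr_update]
    congr 1
    by_cases hx : x = ξ (s, v, σ.1 v)
    · rw [if_pos hx, if_pos ⟨hnb _ _ (by rw [hx]; exact h1.2), h1.1, hx.symm⟩]
    · rw [if_neg hx, if_neg fun h2 => hx h2.2.2.symm]
  · unfold stp
    simp only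
    have e2 : ∀ x, arr nb ξ b (Function.update σ.1 v (σ.1 v + 1)) s x = arr nb ξ b σ.1 s x := by
      intro x
      rw [arr_update, if_neg, add_zero]
      rintro ⟨h2, h3, h4⟩
      exact h1 ⟨h3, by rw [h4]; exact hnb _ _ h2⟩
    simp only [e2]

lemma pert_fst (v : V) (σ : (V → ℕ) × (V → ℕ)) (x : V) :
    (pert v σ).1 x = σ.1 x + if ¬ 0 < σ.2 v ∧ v = x then 1 else 0 := by
  unfold pert
  by_cases h : 0 < σ.2 v
  · simp [h]
  · simp only [h, if_false, not_false_eq_true, true_and]
    by_cases hx : v = x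
    · subst hx; simp
    · rw [Function.update_of_ne (fun e => hx e.symm)]; simp [hx]

/-- The walk of the additional car: number of departures from `x` at the times
`s, ..., s + k - 1` when it arrives at `v` at time `s`. -/
noncomputable def Nv (nb : V → Finset V) : ℕ → ℕ → V → V → Om V → ℝ
  | 0, _, _, _, _ => 0
  | k + 1, s, v, x, ω =>
    if 0 < Fn nb s v ω then Nv nb k (s + 1) v x ω
    else (if v = x then 1 else 0) +
      if ω.2.2 (s, v, Cn nb s v ω) = false ∧ ω.2.1 (s, v, Cn nb s v ω) ∈ nb v then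
        Nv nb k (s + 1) (ω.2.1 (s, v, Cn nb s v ω)) x ω else 0

/-- state at time `s` -/
def stt (nb : V → Finset V) (s : ℕ) (ω : Om V) : (V → ℕ) × (V → ℕ) :=
  st nb ω.2.1 ω.2.2 (c0 ω.1) (f0 ω.1) s

lemma Nv_eq (hnb : ∀ x y, y ∈ nb x → x ∈ nb y) (k s : ℕ) (v x : V) (ω : Om V) :
    (dpk nb ω.2.1 ω.2.2 k s (pert v (stt nb s ω)) x : ℝ) =
      dpk nb ω.2.1 ω.2.2 k s (stt nb s ω) x + Nv nb k s v x ω := by
  induction k generalizing s v with
  | zero => simp [dpk, Nv]
  | succ k ih =>
    have e0 : stt nb (s + 1) ω = stp nb ω.2.1 ω.2.2 s (stt nb s ω) := rfl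
    have hF : Fn nb s v ω = (stt nb s ω).2 v := rfl
    have hC : Cn nb s v ω = (stt nb s ω).1 v := rfl
    unfold dpk Nv
    rw [hF, hC]
    by_cases h : 0 < (stt nb s ω).2 v
    · rw [if_pos h, stp_pert_pos _ _ _ _ _ _ h, ← e0, pert_fst]
      have := ih (s + 1) v
      push_cast
      rw [this]
      simp [h]
      ring
    · have hc : (((pert v (stt nb s ω)).1 x : ℕ) : ℝ) =
          (stt nb s ω).1 x + if v = x then (1 : ℝ) else 0 := by
        rw [pert_fst]
        by_cases hv : v = x
        · rw [if_pos ⟨h, hv⟩, if_pos hv]; push_cast; ring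
        · rw [if_neg fun e => hv e.2, if_neg hv]; push_cast; ring
      rw [if_neg h, stp_pert_zero nb _ _ hnb _ _ _ h, ← e0]
      push_cast
      rw [hc]
      by_cases h2 : ω.2.2 (s, v, (stt nb s ω).1 v) = false ∧ ω.2.1 (s, v, (stt nb s ω).1 v) ∈ nb v
      · rw [if_pos h2, if_pos h2, ih (s + 1) (ω.2.1 (s, v, (stt nb s ω).1 v))]
        ring
      · rw [if_neg h2, if_neg h2]
        ring

end Pool.Agent.TH996.Park
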