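import Pool.Agent.TH996.Rec.Pert

/-!
Mean values of the walk of the additional car.
-/

namespace Pool.Agent.TH996.Park

open MeasureTheory Measure Finset

variable {V : Type*} [DecidableEq V]

lemma Nv_succ (nb : V → Finset V) (k s : ℕ) (v x : V) (ω : Om V) : Nv nb (k + 1) s v x ω =
    if 0 < Fn nb s v ω then Nv nb k (s + 1) v x ω
    else (if v = x then 1 else 0) +
      if ω.2.2 (s, v, Cn nb s v ω) = false ∧ ω.2.1 (s, v, Cn nb s v ω) ∈ nb v then
        Nv nb k (s + 1) (ω.2.1 (s, v, Cn nb s v ω)) x ω else 0 := rfl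

lemma Nv_nonneg (nb : V → Finset V) (k s : ℕ) (v x : V) (ω : Om V) : 0 ≤ Nv nb k s v x ω := by
  induction k generalizing s v with
  | zero => exact le_rfl
  | succ k ih =>
    unfold Nv
    split_ifs
    · exact ih _ _
    all_goals first | exact add_nonneg zero_le_one (ih _ _) | exact add_nonneg le_rfl (ih _ _) | norm_num

lemma Nv_le (nb : V → Finset V) (k s : ℕ) (v x : V) (ω : Om V) : Nv nb k s v x ω ≤ k := by
  induction k generalizing s v with
  | zero => simp [Nv]
  | succ k ih =>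
    unfold Nv
    push_cast
    have h0 : (0 : ℝ) ≤ k := Nat.cast_nonneg _
    split_ifs
    · linarith [ih (s + 1) v]
    · linarith [ih (s + 1) (ω.2.1 (s, v, Cn nb s v ω))]
    · linarith
    · linarith [ih (s + 1) (ω.2.1 (s, v, Cn nb s v ω))]
    · linarith

/-- changing unused variables does not change the process -/
lemma st_unused (nb : V → Finset V) (α : ℕ × V × ℕ) (ω : Om V) (q : V × Bool)
    (h : Cn nb α.1 α.2.1 ω ≤ α.2.2) (t : ℕ) :
    stt nb t (upd α ω q) = stt nb t ω := by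
  induction t with
  | zero => rfl
  | succ t ih =>
    have e0 : stt nb (t + 1) ω = stp nb ω.2.1 ω.2.2 t (stt nb t ω) := rfl
    have e1 : stt nb (t + 1) (upd α ω q) =
      stp nb (upd α ω q).2.1 (upd α ω q).2.2 t (stt nb t (upd α ω q)) := rfl
    rw [e0, e1, ih]
    have e2 : ∀ x, arr nb (upd α ω q).2.1 (upd α ω q).2.2 (stt nb t ω).1 t x =
        arr nb ω.2.1 ω.2.2 (stt nb t ω).1 t x := by
      intro x
      unfold arr
      refine sum_congr rfl fun y _ => ?_
      congr 1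
      refine filter_congr fun i hi => ?_
      have hne : ((t, y, i) : ℕ × V × ℕ) ≠ α := by
        rintro rfl
        rw [mem_range] at hi
        exact absurd hi (not_lt.2 h)
      simp [upd, Function.update_of_ne hne]
    unfold stp
    simp only [e2]

lemma Cn_unused (nb : V → Finset V) (α : ℕ × V × ℕ) (ω : Om V) (q : V × Bool)
    (h : Cn nb α.1 α.2.1 ω ≤ α.2.2) (t : ℕ) (x : V) : Cn nb t x (upd α ω q) = Cn nb t x ω :=
  congrFun (congrArg Prod.fst (st_unused nb α ω q h t)) x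

lemma Fn_unused (nb : V → Finset V) (α : ℕ × V × ℕ) (ω : Om V) (q : V × Bool)
    (h : Cn nb α.1 α.2.1 ω ≤ α.2.2) (t : ℕ) (x : V) : Fn nb t x (upd α ω q) = Fn nb t x ω :=
  congrFun (congrArg Prod.snd (st_unused nb α ω q h t)) x

lemma Nv_unused (nb : V → Finset V) (α : ℕ × V × ℕ) (ω : Om V) (q : V × Bool)
    (h : Cn nb α.1 α.2.1 ω ≤ α.2.2) (k s : ℕ) (hs : α.1 < s) (v x : V) :
    Nv nb k s v x (upd α ω q) = Nv nb k s v x ω := by
  induction k generalizing s v with
  | zero => rfl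
  | succ k ih =>
    have hne : ((s, v, Cn nb s v ω) : ℕ × V × ℕ) ≠ α := by
      rintro rfl
      exact absurd hs (lt_irrefl _)
    unfold Nv
    rw [Cn_unused nb α ω q h, Fn_unused nb α ω q h, ih (s + 1) (by omega) v]
    have e1 : (upd α ω q).2.2 (s, v, Cn nb s v ω) = ω.2.2 (s, v, Cn nb s v ω) := by
      simp [upd, Function.update_of_ne hne]
    have e2 : (upd α ω q).2.1 (s, v, Cn nb s v ω) = ω.2.1 (s, v, Cn nb s v ω) := by
      simp [upd, Function.update_of_ne hne]
    rw [e1, e2, ih (s + 1) (by omega)]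

/-- `Y` depends on used variables only -/
def Ad (nb : V → Finset V) (Y : Om V → ℝ) : Prop :=
  ∀ α ω q, Cn nb α.1 α.2.1 ω ≤ α.2.2 → Y (upd α ω q) = Y ω

variable [MeasurableSpace V] [MeasurableSingletonClass V] [Countable V]

omit [Countable V] in
lemma measurable_xi_Cn (nb : V → Finset V) (s : ℕ) (v : V) :
    Measurable fun ω : Om V => ω.2.1 (s, v, Cn nb s v ω) := by
  have h : Measurable fun q : ℕ × Om V => q.2.2.1 (s, v, q.1) :=
    measurable_from_prod_countable_right fun n => meas_xi (s, v, n)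
  exact h.comp (((measurable_CF nb s).1 v).prodMk measurable_id)

omit [Countable V] in
lemma measurable_b_Cn (nb : V → Finset V) (s : ℕ) (v : V) :
    Measurable fun ω : Om V => ω.2.2 (s, v, Cn nb s v ω) := by
  have h : Measurable fun q : ℕ × Om V => q.2.2.2 (s, v, q.1) :=
    measurable_from_prod_countable_right fun n => meas_b (s, v, n)
  exact h.comp (((measurable_CF nb s).1 v).prodMk measurable_id)

lemma measurable_Nv (nb : V → Finset V) (k s : ℕ) (v x : V) : Measurable (Nv nb k s v x) := by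
  induction k generalizing s v with
  | zero => exact measurable_const
  | succ k ih =>
    have h1 : Measurable fun ω : Om V => Nv nb k (s + 1) (ω.2.1 (s, v, Cn nb s v ω)) x ω := by
      have h : Measurable fun q : V × Om V => Nv nb k (s + 1) q.1 x q.2 :=
        measurable_from_prod_countable_right fun w => ih (s + 1) w
      exact h.comp ((measurable_xi_Cn nb s v).prodMk measurable_id)
    have e : Nv nb (k + 1) s v x = fun ω => if 0 < Fn nb s v ω then Nv nb k (s + 1) v x ω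
      else (if v = x then 1 else 0) +
        if ω.2.2 (s, v, Cn nb s v ω) = false ∧ ω.2.1 (s, v, Cn nb s v ω) ∈ nb v then
          Nv nb k (s + 1) (ω.2.1 (s, v, Cn nb s v ω)) x ω else 0 := by
      funext ω; exact Nv_succ nb k s v x ω
    rw [e]
    refine Measurable.ite ?_ (ih _ _) ?_
    · exact (measurable_CF nb s).2.1 v (measurableSet_Ioi (a := 0))
    · refine measurable_const.add (Measurable.ite ?_ h1 measurable_const)
      refine MeasurableSet.inter ?_ ?_
      · exact measurable_b_Cn nb s v (measurableSet_singleton false)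
      · exact measurable_xi_Cn nb s v (Set.to_countable {w : V | w ∈ nb v}).measurableSet

lemma bm_Nv (nb : V → Finset V) (k s : ℕ) (v x : V) : BM (Nv nb k s v x) :=
  ⟨measurable_Nv nb k s v x, k, fun ω => by
    rw [abs_of_nonneg (Nv_nonneg nb k s v x ω)]; exact Nv_le nb k s v x ω⟩

omit [DecidableEq V] [MeasurableSingletonClass V] [Countable V] in
lemma measurable_upd' [DecidableEq V] (α : ℕ × V × ℕ) (q : V × Bool) :
    Measurable fun ω : Om V => upd α ω q := by
  refine measurable_fst.prodMk (Measurable.prodMk ?_ ?_)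
  · exact (measurable_upd α).comp ((measurable_fst.comp measurable_snd).prodMk measurable_const)
  · exact (measurable_upd α).comp ((measurable_snd.comp measurable_snd).prodMk measurable_const)

omit [MeasurableSingletonClass V] [Countable V] in
lemma bm_upd {G : Om V → ℝ} (hG : BM G) (α : ℕ × V × ℕ) (q : V × Bool) :
    BM (fun ω => G (upd α ω q)) := hG.comp (measurable_upd' α q)

omit [Countable V] in
lemma bm_updC {G : Om V → ℝ} (hG : BM G) (nb : V → Finset V) (s : ℕ) (v : V) (q : V × Bool) :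
    BM (fun ω => G (upd (s, v, Cn nb s v ω) ω q)) := by
  have h : Measurable fun r : ℕ × Om V => G (upd (s, v, r.1) r.2 q) :=
    measurable_from_prod_countable_right fun n => (bm_upd hG (s, v, n) q).meas
  obtain ⟨C, hC⟩ := hG.bdd
  exact ⟨h.comp (((measurable_CF nb s).1 v).prodMk measurable_id), C, fun ω => hC _⟩

section

variable (S : Tri V) {p κ : ℝ} (hp : 0 ≤ p ∧ p ≤ 1) (hκ : 0 ≤ κ ∧ κ ≤ 1)

include hp hκ in
/-- resampling of the variables at `α` -/
lemma integral_avg {G : Om V → ℝ} (hG : BM G) (α : ℕ × V × ℕ) :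
    ∫ ω, G ω ∂(S.law p κ) = ∫ ω, ∑ w ∈ S.nb α.2.1, S.K α.2.1 w *
      (κ * G (upd α ω (w, true)) + (1 - κ) * G (upd α ω (w, false))) ∂(S.law p κ) := by
  have := law_prob S hp hκ
  have := bern_prob hκ.1 hκ.2
  rw [(resamp_upd S hp hκ α).integral hG]
  congr 1
  funext ω
  have hb : BM (fun q : V × Bool => G (upd α ω q)) := by
    obtain ⟨C, hC⟩ := hG.bdd
    exact ⟨measurable_of_countable _, C, fun q => hC _⟩
  exact integral_step S hκ α.2.1 _ hb

include hp hκ in
/-- resampling of the first unused variables at `v` -/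
lemma integral_ri {G : Om V → ℝ} (hG : BM G) (s : ℕ) (v : V) :
    ∫ ω, G ω ∂(S.law p κ) = ∫ ω, ∑ w ∈ S.nb v, S.K v w *
      (κ * G (upd (s, v, Cn S.nb s v ω) ω (w, true)) +
        (1 - κ) * G (upd (s, v, Cn S.nb s v ω) ω (w, false))) ∂(S.law p κ) := by
  have := law_prob S hp hκ
  have hbI : ∀ i : ℕ, BM (fun ω : Om V => if Cn S.nb s v ω = i then (1 : ℝ) else 0) := by
    intro i
    refine ⟨Measurable.ite ((measurable_CF S.nb s).1 v (measurableSet_singleton i))
      measurable_const measurable_const, 1, fun ω => ?_⟩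
    split_ifs <;> simp
  have hsplit : ∀ (H : Om V → ℝ), BM H → ∫ ω, H ω ∂(S.law p κ) =
      ∑ i ∈ range (bd S.nb s v + 1),
        ∫ ω, (if Cn S.nb s v ω = i then (1 : ℝ) else 0) * H ω ∂(S.law p κ) := by
    intro H hH
    rw [← integral_finsetSum _ fun i _ => ((hbI i).mul hH).integrable _]
    congr 1
    funext ω
    rw [← sum_mul, sum_ite_eq, if_pos, one_mul]
    rw [mem_range]
    exact Nat.lt_succ_of_le (cs_le_bd S.nb _ _ _ _ (c0_le ω.1) s v)
  have hR : BM (fun ω => ∑ w ∈ S.nb v, S.K v w *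
      (κ * G (upd (s, v, Cn S.nb s v ω) ω (w, true)) +
        (1 - κ) * G (upd (s, v, Cn S.nb s v ω) ω (w, false)))) :=
    BM.sum _ fun w _ => (((bm_updC hG S.nb s v (w, true)).smul _).add
      ((bm_updC hG S.nb s v (w, false)).smul _)).smul _
  rw [hsplit G hG, hsplit _ hR]
  refine sum_congr rfl fun i _ => ?_
  rw [integral_avg S hp hκ ((hbI i).mul hG) (s, v, i)]
  congr 1
  funext ω
  rw [mul_sum]
  refine sum_congr rfl fun w _ => ?_
  rw [Cn_upd S.nb le_rfl, Cn_upd S.nb le_rfl]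
  by_cases h : Cn S.nb s v ω = i
  · rw [h]; simp
  · simp [h]

variable {x : V}

include hp hκ in
/-- one step of the additional car -/
lemma integral_Nv_succ {Y : Om V → ℝ} (hY : BM Y) (hA : Ad S.nb Y) (k s : ℕ) (v : V)
    (hF : ∀ ω, Y ω ≠ 0 → Fn S.nb s v ω = 0) :
    ∫ ω, Y ω * Nv S.nb (k + 1) s v x ω ∂(S.law p κ) =
      (if v = x then 1 else 0) * ∫ ω, Y ω ∂(S.law p κ) +
      (1 - κ) * S.Q (fun w => ∫ ω, Y ω * Nv S.nb k (s + 1) w x ω ∂(S.law p κ)) v := by
  have := law_prob S hp hκ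
  have hN : ∀ w, BM (fun ω => Y ω * Nv S.nb k (s + 1) w x ω) := fun w =>
    hY.mul (bm_Nv S.nb k (s + 1) w x)
  rw [integral_ri S hp hκ (hY.mul (bm_Nv S.nb (k + 1) s v x)) s v]
  have e : ∀ ω : Om V, ∑ w ∈ S.nb v, S.K v w *
      (κ * (Y (upd (s, v, Cn S.nb s v ω) ω (w, true)) *
        Nv S.nb (k + 1) s v x (upd (s, v, Cn S.nb s v ω) ω (w, true))) +
      (1 - κ) * (Y (upd (s, v, Cn S.nb s v ω) ω (w, false)) *
        Nv S.nb (k + 1) s v x (upd (s, v, Cn S.nb s v ω) ω (w, false)))) =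
      (if v = x then 1 else 0) * Y ω +
        (1 - κ) * ∑ w ∈ S.nb v, S.K v w * (Y ω * Nv S.nb k (s + 1) w x ω) := by
    intro ω
    have hu : Cn S.nb s v ω ≤ Cn S.nb s v ω := le_rfl
    have e1 : ∀ w ∈ S.nb v, S.K v w *
      (κ * (Y (upd (s, v, Cn S.nb s v ω) ω (w, true)) *
        Nv S.nb (k + 1) s v x (upd (s, v, Cn S.nb s v ω) ω (w, true))) +
      (1 - κ) * (Y (upd (s, v, Cn S.nb s v ω) ω (w, false)) *
        Nv S.nb (k + 1) s v x (upd (s, v, Cn S.nb s v ω) ω (w, false)))) =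
        S.K v w * ((if v = x then 1 else 0) * Y ω) +
        (1 - κ) * (S.K v w * (Y ω * Nv S.nb k (s + 1) w x ω)) := by
      intro w hw
      have hA1 := fun q => hA (s, v, Cn S.nb s v ω) ω q hu
      rw [hA1, hA1]
      by_cases hY0 : Y ω = 0
      · simp [hY0]
      · have hF0 := hF ω hY0
        have e2 : ∀ q : V × Bool, Nv S.nb (k + 1) s v x (upd (s, v, Cn S.nb s v ω) ω q) =
            (if v = x then 1 else 0) + if q.2 = false ∧ q.1 ∈ S.nb v then
              Nv S.nb k (s + 1) q.1 x ω else 0 := by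
          intro q
          rw [Nv_succ, Fn_unused S.nb (s, v, Cn S.nb s v ω) ω q hu, hF0,
            Cn_unused S.nb (s, v, Cn S.nb s v ω) ω q hu]
          have e3 : (upd (s, v, Cn S.nb s v ω) ω q).2.2 (s, v, Cn S.nb s v ω) = q.2 := by
            simp [upd]
          have e4 : (upd (s, v, Cn S.nb s v ω) ω q).2.1 (s, v, Cn S.nb s v ω) = q.1 := by
            simp [upd]
          rw [if_neg (lt_irrefl 0), e3, e4,
            Nv_unused S.nb (s, v, Cn S.nb s v ω) ω q hu k (s + 1) (Nat.lt_succ_self s)]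
        rw [e2, e2]
        simp only [Bool.true_eq_false, false_and, if_false, true_and, hw, if_true]
        ring
    rw [sum_congr rfl e1, sum_add_distrib, ← sum_mul, S.sum_one, one_mul, ← mul_sum]
  simp_rw [e]
  rw [integral_add ((hY.smul _).integrable _)
    (((BM.sum _ fun w _ => (hN w).smul _).smul _).integrable _), integral_const_mul,
    integral_const_mul, integral_finsetSum _ fun w _ => ((hN w).smul _).integrable _]
  simp_rw [integral_const_mul]
  rfl

omit [Countable V] in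
lemma bm_indF (nb : V → Finset V) (s : ℕ) (v : V) :
    BM (fun ω : Om V => if 0 < Fn nb s v ω then (1 : ℝ) else 0) := by
  refine ⟨Measurable.ite ((measurable_CF nb s).2.1 v (measurableSet_Ioi (a := 0)))
    measurable_const measurable_const, 1, fun ω => ?_⟩
  split_ifs <;> simp

omit [Countable V] in
lemma bm_indF' (nb : V → Finset V) (s : ℕ) (v : V) :
    BM (fun ω : Om V => if 0 < Fn nb s v ω then (0 : ℝ) else 1) := by
  refine ⟨Measurable.ite ((measurable_CF nb s).2.1 v (measurableSet_Ioi (a := 0)))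
    measurable_const measurable_const, 1, fun ω => ?_⟩
  split_ifs <;> simp

omit [MeasurableSpace V] [MeasurableSingletonClass V] [Countable V] in
lemma ad_indF (nb : V → Finset V) {Y : Om V → ℝ} (hA : Ad nb Y) (s : ℕ) (v : V) :
    Ad nb (fun ω => Y ω * if 0 < Fn nb s v ω then (1 : ℝ) else 0) := by
  intro α ω q h
  simp only
  rw [hA α ω q h, Fn_unused nb α ω q h]

omit [MeasurableSpace V] [MeasurableSingletonClass V] [Countable V] in
lemma ad_indF' (nb : V → Finset V) {Y : Om V → ℝ} (hA : Ad nb Y) (s : ℕ) (v : V) :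
    Ad nb (fun ω => Y ω * if 0 < Fn nb s v ω then (0 : ℝ) else 1) := by
  intro α ω q h
  simp only
  rw [hA α ω q h, Fn_unused nb α ω q h]

omit [MeasurableSpace V] [MeasurableSingletonClass V] [Countable V] in
lemma split_ind (nb : V → Finset V) (s : ℕ) (v : V) (y : ℝ) (ω : Om V) :
    y = y * (if 0 < Fn nb s v ω then (1 : ℝ) else 0) +
      y * (if 0 < Fn nb s v ω then (0 : ℝ) else 1) := by
  split_ifs <;> simp

include hp hκ in
/-- split an integral according to whether the spot at `v` is free at time `s` -/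
lemma integral_split (s : ℕ) (v : V) {Y G : Om V → ℝ} (hY : BM Y) (hG : BM G) :
    ∫ ω, Y ω * G ω ∂(S.law p κ) =
      ∫ ω, (Y ω * if 0 < Fn S.nb s v ω then (1 : ℝ) else 0) * G ω ∂(S.law p κ) +
      ∫ ω, (Y ω * if 0 < Fn S.nb s v ω then (0 : ℝ) else 1) * G ω ∂(S.law p κ) := by
  have := law_prob S hp hκ
  rw [← integral_add (((hY.mul (bm_indF S.nb s v)).mul hG).integrable _)
    (((hY.mul (bm_indF' S.nb s v)).mul hG).integrable _)]
  congr 1
  funext ω
  rw [← add_mul, ← split_ind]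

include hp hκ in
lemma integral_split1 (s : ℕ) (v : V) {Y : Om V → ℝ} (hY : BM Y) :
    ∫ ω, Y ω ∂(S.law p κ) =
      ∫ ω, (Y ω * if 0 < Fn S.nb s v ω then (1 : ℝ) else 0) ∂(S.law p κ) +
      ∫ ω, (Y ω * if 0 < Fn S.nb s v ω then (0 : ℝ) else 1) ∂(S.law p κ) := by
  have := law_prob S hp hκ
  rw [← integral_add ((hY.mul (bm_indF S.nb s v)).integrable _)
    ((hY.mul (bm_indF' S.nb s v)).integrable _)]
  congr 1
  funext ω
  rw [← split_ind]

omit [MeasurableSpace V] [MeasurableSingletonClass V] [Countable V] in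
lemma Nv_free (nb : V → Finset V) (k s : ℕ) (v x : V) (ω : Om V) (y : ℝ) :
    (y * if 0 < Fn nb s v ω then (1 : ℝ) else 0) * Nv nb (k + 1) s v x ω =
      (y * if 0 < Fn nb s v ω then (1 : ℝ) else 0) * Nv nb k (s + 1) v x ω := by
  by_cases h : 0 < Fn nb s v ω
  · simp [Nv, h]
  · simp [h]

omit [MeasurableSpace V] [MeasurableSingletonClass V] [Countable V] in
lemma Fn_anti (nb : V → Finset V) {s t : ℕ} (h : s ≤ t) (v : V) (ω : Om V) :
    Fn nb t v ω ≤ Fn nb s v ω := fr_anti nb _ _ _ _ h v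

include hp hκ in
/-- starting later gives less -/
lemma Nv_later (k : ℕ) : ∀ (s : ℕ) (v : V) (Y : Om V → ℝ), BM Y → Ad S.nb Y →
    (∀ ω, 0 ≤ Y ω) →
    ∫ ω, Y ω * Nv S.nb k (s + 1) v x ω ∂(S.law p κ) ≤
      ∫ ω, Y ω * Nv S.nb (k + 1) s v x ω ∂(S.law p κ) := by
  have := law_prob S hp hκ
  induction k with
  | zero =>
    intro s v Y hY _ h0
    simp only [Nv, mul_zero, integral_zero]
    exact integral_nonneg fun ω => mul_nonneg (h0 ω) (Nv_nonneg S.nb 1 s v x ω)
  | succ k ih =>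
    intro s v Y hY hA h0
    rw [integral_split S hp hκ s v hY (bm_Nv S.nb (k + 1) (s + 1) v x),
      integral_split S hp hκ s v hY (bm_Nv S.nb (k + 1 + 1) s v x)]
    simp_rw [Nv_free S.nb (k + 1) s v x]
    refine add_le_add le_rfl ?_
    have hY0 : BM (fun ω => Y ω * if 0 < Fn S.nb s v ω then (0 : ℝ) else 1) :=
      hY.mul (bm_indF' S.nb s v)
    have hA0 := ad_indF' S.nb hA s v
    have hn0 : ∀ ω, 0 ≤ Y ω * if 0 < Fn S.nb s v ω then (0 : ℝ) else 1 := fun ω =>
      mul_nonneg (h0 ω) (by split_ifs <;> norm_num)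
    have hF0 : ∀ ω, (Y ω * if 0 < Fn S.nb s v ω then (0 : ℝ) else 1) ≠ 0 →
        Fn S.nb s v ω = 0 := by
      intro ω h
      by_contra hne
      exact h (by rw [if_pos (Nat.pos_of_ne_zero hne), mul_zero])
    have hF1 : ∀ ω, (Y ω * if 0 < Fn S.nb s v ω then (0 : ℝ) else 1) ≠ 0 →
        Fn S.nb (s + 1) v ω = 0 := fun ω h =>
      Nat.le_zero.1 ((Fn_anti S.nb (Nat.le_succ s) v ω).trans (hF0 ω h).le)
    rw [integral_Nv_succ S hp hκ hY0 hA0 k (s + 1) v hF1,
      integral_Nv_succ S hp hκ hY0 hA0 (k + 1) s v hF0]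
    refine add_le_add le_rfl (mul_le_mul_of_nonneg_left ?_ (by linarith [hκ.2]))
    exact S.Q_mono (fun w => ih (s + 1) w _ hY0 hA0 hn0) v

/-- mean number of visits to `x` before `z` is hit -/
noncomputable def gk (S : Tri V) (z x : V) : ℕ → V → ℝ
  | 0, _ => 0
  | k + 1, v => if v = z then 0 else (if v = x then 1 else 0) + S.Q (gk S z x k) v

omit [MeasurableSpace V] [MeasurableSingletonClass V] [Countable V] in
lemma gk_nonneg (z : V) (k : ℕ) (v : V) : 0 ≤ gk S z x k v := by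
  induction k generalizing v with
  | zero => exact le_rfl
  | succ k ih =>
    unfold gk
    split_ifs
    · exact le_rfl
    · have := S.Q_mono (f := fun _ => 0) ih v
      rw [S.Q_zero] at this; linarith
    · have := S.Q_mono (f := fun _ => 0) ih v
      rw [S.Q_zero] at this; linarith

omit [MeasurableSpace V] [MeasurableSingletonClass V] [Countable V] in
lemma gk_mono (z : V) (k : ℕ) (v : V) : gk S z x k v ≤ gk S z x (k + 1) v := by
  induction k generalizing v with
  | zero => exact gk_nonneg S z 1 v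
  | succ k ih =>
    rw [gk, gk]
    split_ifs
    · exact le_rfl
    · have := S.Q_mono ih v; linarith
    · have := S.Q_mono ih v; linarith

omit [MeasurableSpace V] [MeasurableSingletonClass V] [Countable V] in
lemma Q_add (f g : V → ℝ) (v : V) : S.Q (fun w => f w + g w) v = S.Q f v + S.Q g v := by
  simp only [Tri.Q, mul_add, sum_add_distrib]

omit [MeasurableSpace V] [MeasurableSingletonClass V] [Countable V] in
lemma Q_smul (c : ℝ) (f : V → ℝ) (v : V) : S.Q (fun w => c * f w) v = c * S.Q f v := by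
  simp only [Tri.Q, mul_sum]
  exact sum_congr rfl fun y _ => by ring

omit [MeasurableSpace V] [MeasurableSingletonClass V] [Countable V] in
lemma Q_const (c : ℝ) (v : V) : S.Q (fun _ => c) v = c := by
  simp only [Tri.Q, ← sum_mul, S.sum_one, one_mul]

include hp hκ in
/-- comparison of starting points -/
lemma Nv_start (z : V) (k : ℕ) : ∀ (s : ℕ) (v : V) (Y : Om V → ℝ), BM Y → Ad S.nb Y →
    (∀ ω, 0 ≤ Y ω) →
    ∫ ω, Y ω * Nv S.nb k s v x ω ∂(S.law p κ) ≤
      ∫ ω, Y ω * Nv S.nb k s z x ω ∂(S.law p κ) + gk S z x k v * ∫ ω, Y ω ∂(S.law p κ) := by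
  have := law_prob S hp hκ
  induction k with
  | zero => intro s v Y _ _ _; simp [Nv, gk]
  | succ k ih =>
    intro s v Y hY hA h0
    have hI0 : 0 ≤ ∫ ω, Y ω ∂(S.law p κ) := integral_nonneg h0
    by_cases hvz : v = z
    · rw [hvz]
      have := mul_nonneg (gk_nonneg S (x := x) z (k + 1) z) hI0
      linarith
    set Y1 := fun ω => Y ω * if 0 < Fn S.nb s v ω then (1 : ℝ) else 0 with hY1d
    set Y0 := fun ω => Y ω * if 0 < Fn S.nb s v ω then (0 : ℝ) else 1 with hY0d
    have hY1 : BM Y1 := hY.mul (bm_indF S.nb s v)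
    have hY0 : BM Y0 := hY.mul (bm_indF' S.nb s v)
    have hA1 : Ad S.nb Y1 := ad_indF S.nb hA s v
    have hA0 : Ad S.nb Y0 := ad_indF' S.nb hA s v
    have hn1 : ∀ ω, 0 ≤ Y1 ω := fun ω => mul_nonneg (h0 ω) (by split_ifs <;> norm_num)
    have hn0 : ∀ ω, 0 ≤ Y0 ω := fun ω => mul_nonneg (h0 ω) (by split_ifs <;> norm_num)
    have hF0 : ∀ ω, Y0 ω ≠ 0 → Fn S.nb s v ω = 0 := by
      intro ω h
      by_contra hne
      exact h (by simp only [hY0d]; rw [if_pos (Nat.pos_of_ne_zero hne), mul_zero])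
    have i1 : 0 ≤ ∫ ω, Y1 ω ∂(S.law p κ) := integral_nonneg hn1
    have i0 : 0 ≤ ∫ ω, Y0 ω ∂(S.law p κ) := integral_nonneg hn0
    have eL := integral_split S hp hκ s v hY (bm_Nv S.nb (k + 1) s v x)
    have eR := integral_split S hp hκ s v hY (bm_Nv S.nb (k + 1) s z x)
    have eY := integral_split1 S hp hκ s v hY
    simp_rw [Nv_free S.nb k s v x] at eL
    rw [eL, eR, eY]
    -- the two parts
    have h1 : ∫ ω, Y1 ω * Nv S.nb k (s + 1) v x ω ∂(S.law p κ) ≤
        ∫ ω, Y1 ω * Nv S.nb (k + 1) s z x ω ∂(S.law p κ) +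
          gk S z x (k + 1) v * ∫ ω, Y1 ω ∂(S.law p κ) := by
      refine (ih (s + 1) v Y1 hY1 hA1 hn1).trans (add_le_add
        (Nv_later S hp hκ k s z Y1 hY1 hA1 hn1) ?_)
      exact mul_le_mul_of_nonneg_right (gk_mono S z k v) i1
    have h2 : ∫ ω, Y0 ω * Nv S.nb (k + 1) s v x ω ∂(S.law p κ) ≤
        ∫ ω, Y0 ω * Nv S.nb (k + 1) s z x ω ∂(S.law p κ) +
          gk S z x (k + 1) v * ∫ ω, Y0 ω ∂(S.law p κ) := by
      rw [integral_Nv_succ S hp hκ hY0 hA0 k s v hF0]
      have h3 := S.Q_mono (fun w => ih (s + 1) w Y0 hY0 hA0 hn0) v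
      rw [Q_add, Q_const] at h3
      have e3 : S.Q (fun w => gk S z x k w * ∫ ω, Y0 ω ∂(S.law p κ)) v =
          (∫ ω, Y0 ω ∂(S.law p κ)) * S.Q (gk S z x k) v := by
        rw [← Q_smul]; congr 1; funext w; ring
      rw [e3] at h3
      have h4 := Nv_later S (x := x) hp hκ k s z Y0 hY0 hA0 hn0
      have h5 : 0 ≤ S.Q (fun w => ∫ ω, Y0 ω * Nv S.nb k (s + 1) w x ω ∂(S.law p κ)) v := by
        have := S.Q_mono (f := fun _ => 0) (g := fun w => ∫ ω, Y0 ω * Nv S.nb k (s + 1) w x ω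
          ∂(S.law p κ)) (fun w => integral_nonneg fun ω =>
            mul_nonneg (hn0 ω) (Nv_nonneg S.nb k (s + 1) w x ω)) v
        rwa [S.Q_zero] at this
      have h6 : (1 - κ) * S.Q (fun w => ∫ ω, Y0 ω * Nv S.nb k (s + 1) w x ω ∂(S.law p κ)) v ≤
          S.Q (fun w => ∫ ω, Y0 ω * Nv S.nb k (s + 1) w x ω ∂(S.law p κ)) v := by
        nlinarith [hκ.1]
      have e4 : gk S z x (k + 1) v = (if v = x then 1 else 0) + S.Q (gk S z x k) v := by
        rw [gk, if_neg hvz]
      rw [e4]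
      nlinarith
    linarith

include hp in
/-- total number of departures -/
lemma Nv_total (hκ0 : 0 ≤ κ) (hκ1 : κ ≤ 1) (L : Finset V) (k : ℕ) : ∀ (s : ℕ) (v : V)
    (Y : Om V → ℝ), BM Y → Ad S.nb Y → (∀ ω, 0 ≤ Y ω) →
    κ * ∑ x ∈ L, ∫ ω, Y ω * Nv S.nb k s v x ω ∂(S.law p κ) ≤ ∫ ω, Y ω ∂(S.law p κ) := by
  have hκ : 0 ≤ κ ∧ κ ≤ 1 := ⟨hκ0, hκ1⟩
  have := law_prob S hp hκ
  induction k with
  | zero =>
    intro s v Y _ _ h0
    simp only [Nv, mul_zero, integral_zero, sum_const_zero]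
    exact integral_nonneg h0
  | succ k ih =>
    intro s v Y hY hA h0
    set Y1 := fun ω => Y ω * if 0 < Fn S.nb s v ω then (1 : ℝ) else 0 with hY1d
    set Y0 := fun ω => Y ω * if 0 < Fn S.nb s v ω then (0 : ℝ) else 1 with hY0d
    have hY1 : BM Y1 := hY.mul (bm_indF S.nb s v)
    have hY0 : BM Y0 := hY.mul (bm_indF' S.nb s v)
    have hA1 : Ad S.nb Y1 := ad_indF S.nb hA s v
    have hA0 : Ad S.nb Y0 := ad_indF' S.nb hA s v
    have hn1 : ∀ ω, 0 ≤ Y1 ω := fun ω => mul_nonneg (h0 ω) (by split_ifs <;> norm_num)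
    have hn0 : ∀ ω, 0 ≤ Y0 ω := fun ω => mul_nonneg (h0 ω) (by split_ifs <;> norm_num)
    have hF0 : ∀ ω, Y0 ω ≠ 0 → Fn S.nb s v ω = 0 := by
      intro ω h
      by_contra hne
      exact h (by simp only [hY0d]; rw [if_pos (Nat.pos_of_ne_zero hne), mul_zero])
    have i0 : 0 ≤ ∫ ω, Y0 ω ∂(S.law p κ) := integral_nonneg hn0
    have eL : ∀ x, ∫ ω, Y ω * Nv S.nb (k + 1) s v x ω ∂(S.law p κ) =
        ∫ ω, Y1 ω * Nv S.nb k (s + 1) v x ω ∂(S.law p κ) +
        ((if v = x then 1 else 0) * ∫ ω, Y0 ω ∂(S.law p κ) +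
        (1 - κ) * S.Q (fun w => ∫ ω, Y0 ω * Nv S.nb k (s + 1) w x ω ∂(S.law p κ)) v) := by
      intro x
      rw [← integral_Nv_succ S hp hκ hY0 hA0 k s v hF0,
        integral_split S hp hκ s v hY (bm_Nv S.nb (k + 1) s v x)]
      simp_rw [Nv_free S.nb k s v x]
      rfl
    simp_rw [eL]
    rw [integral_split1 S hp hκ s v hY, sum_add_distrib, sum_add_distrib, mul_add, mul_add]
    refine add_le_add (ih (s + 1) v Y1 hY1 hA1 hn1) ?_
    have h1 : κ * ∑ x ∈ L, ((if v = x then (1 : ℝ) else 0) * ∫ ω, Y0 ω ∂(S.law p κ)) ≤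
        κ * ∫ ω, Y0 ω ∂(S.law p κ) := by
      refine mul_le_mul_of_nonneg_left ?_ hκ0
      rw [← sum_mul, sum_ite_eq]
      split_ifs <;> nlinarith
    have h2 : κ * ∑ x ∈ L, ((1 - κ) *
        S.Q (fun w => ∫ ω, Y0 ω * Nv S.nb k (s + 1) w x ω ∂(S.law p κ)) v) ≤
        (1 - κ) * ∫ ω, Y0 ω ∂(S.law p κ) := by
      rw [← mul_sum]
      have e : ∑ x ∈ L, S.Q (fun w => ∫ ω, Y0 ω * Nv S.nb k (s + 1) w x ω ∂(S.law p κ)) v =
          S.Q (fun w => ∑ x ∈ L, ∫ ω, Y0 ω * Nv S.nb k (s + 1) w x ω ∂(S.law p κ)) v := by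
        unfold Tri.Q
        rw [Finset.sum_comm]
        exact sum_congr rfl fun w _ => by rw [mul_sum]
      rw [e]
      have h3 := S.Q_le_const (fun w => ih (s + 1) w Y0 hY0 hA0 hn0) v
      rw [Q_smul] at h3
      have h4 : 0 ≤ 1 - κ := by linarith
      calc _ = (1 - κ) * (κ * S.Q (fun w => ∑ x ∈ L,
            ∫ ω, Y0 ω * Nv S.nb k (s + 1) w x ω ∂(S.law p κ)) v) := by ring
        _ ≤ _ := mul_le_mul_of_nonneg_left h3 h4
    have e5 : ∫ ω, Y ω * (if 0 < Fn S.nb s v ω then (0 : ℝ) else 1) ∂(S.law p κ) =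
      ∫ ω, Y0 ω ∂(S.law p κ) := rfl
    rw [e5]
    linarith

end

end Pool.Agent.TH996.Park
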