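import Pool.Agent.TH996.Rec.Corr2
import Pool.Agent.TH996.Rec.L2
import Pool.Agent.TH996.Rec.Grad

/-!
The main inequality of the recurrent case.
-/

namespace Pool.Agent.TH996.Park

open MeasureTheory Measure Finset
open scoped ENNReal

variable {V : Type*} [DecidableEq V]

lemma rev_U (S : Tri V) (a : ℝ) (J : ℕ) : ∀ o z : V, S.rev.U a z J o = S.U a o J z := by
  induction J with
  | zero => intro o z; rfl
  | succ J ih =>
    intro o z
    -- the value at `z` of the Green function as a resolvent applied to a point mass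
    have h1 : ∀ (n : ℕ) (y : V), S.R a n (fun x => if x = z then 1 else 0) y = S.U a y n z := by
      intro n y
      rw [S.R_eq_sum a y n _ (insert z (S.ball y n)) (subset_insert _ _)]
      simp
    have h2 := h1 (J + 1) o
    rw [S.R_succ] at h2
    rw [← h2, Tri.U_succ]
    congr 2
    have h3 : S.R a J (fun x => if x = z then 1 else 0) = fun y => S.U a y J z := by
      funext y; exact h1 J y
    rw [h3]
    unfold Tri.Q Tri.P
    exact sum_congr rfl fun y _ => by rw [ih y z]; rfl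

variable [MeasurableSpace V] [MeasurableSingletonClass V] [Countable V]

section

variable (S : Tri V) {p κ : ℝ}

omit [MeasurableSpace V] [MeasurableSingletonClass V] [Countable V] in
lemma Dn_shift {γ : Equiv.Perm V} (hγ : γ ∈ S.Γ) (T : ℕ) (x : V) (ω : Om V) :
    Dn S T (γ x) (shift γ ω) = Dn S T x ω := by
  unfold Dn
  exact sum_congr rfl fun t _ => by rw [Cn_shift S hγ]

omit [Countable V] in
lemma bm_Dn (T : ℕ) (x : V) : BM (Dn S T x) := BM.sum _ fun t _ => bm_C S.nb t x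

omit [MeasurableSpace V] [MeasurableSingletonClass V] [Countable V] in
lemma Nz_shift (a : ℝ) {γ : Equiv.Perm V} (hγ : γ ∈ S.Γ) (T : ℕ) (x : V) (ω : Om V) :
    Nz S a T (γ x) (shift γ ω) = Nz S a T x ω := by
  unfold Nz
  refine sum_congr rfl fun t _ => ?_
  rw [An_shift S hγ, P_shift S (X := fun y ω => (Cn S.nb t y ω : ℝ)) hγ
    (fun x ω => by simp only [Cn_shift S hγ])]

omit [MeasurableSpace V] [MeasurableSingletonClass V] [Countable V] [DecidableEq V] in
lemma eta_le (x : V) (ω : Om V) : |eta x ω| ≤ 1 := by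
  unfold eta c0 f0
  split_ifs <;> simp

variable (hp : 0 ≤ p ∧ p ≤ 1) (hκ : 0 ≤ κ ∧ κ ≤ 1)

include hp hκ in
lemma integral_Dn (T : ℕ) (x o : V) : ∫ ω, Dn S T x ω ∂(S.law p κ) = mT S p κ o T := by
  have := law_prob S hp hκ
  unfold Dn mT aT
  rw [integral_finsetSum _ fun t _ => (bm_C S.nb t x).integrable _]
  exact sum_congr rfl fun t _ => mean_inv S hp hκ t x o

include hp hκ in
lemma integral_eta_Dn (T : ℕ) (x z : V) :
    ∫ ω, eta x ω * Dn S T z ω ∂(S.law p κ) =
      (2 * p - 1) * ∫ ω, Dn S T z ω ∂(S.law p κ) + 2 * p * (1 - p) * inflD S p κ T x z := by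
  have := law_prob S hp hκ
  have := bern_prob hp.1 hp.2
  have hF := bm_Dn S T z
  have b1 := (bm_upe hF x true).integrable (S.law p κ)
  have b0 := (bm_upe hF x false).integrable (S.law p κ)
  have e1 : ∫ ω, eta x ω * Dn S T z ω ∂(S.law p κ) =
      p * ∫ ω, Dn S T z (upe x ω true) ∂(S.law p κ) -
      (1 - p) * ∫ ω, Dn S T z (upe x ω false) ∂(S.law p κ) := by
    rw [(resamp_upe S hp hκ x).integral ((bm_eta x).mul hF)]
    simp_rw [integral_bern hp.1 hp.2, eta_upe]
    simp only [if_true, Bool.false_eq_true, if_false, one_mul, neg_mul, mul_neg,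
      ← sub_eq_add_neg]
    rw [integral_sub (b1.const_mul _) (b0.const_mul _), integral_const_mul, integral_const_mul]
  have e2 : ∫ ω, Dn S T z ω ∂(S.law p κ) =
      p * ∫ ω, Dn S T z (upe x ω true) ∂(S.law p κ) +
      (1 - p) * ∫ ω, Dn S T z (upe x ω false) ∂(S.law p κ) := by
    rw [(resamp_upe S hp hκ x).integral hF]
    simp_rw [integral_bern hp.1 hp.2]
    rw [integral_add (b1.const_mul _) (b0.const_mul _), integral_const_mul, integral_const_mul]
  unfold inflD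
  rw [integral_sub b1 b0, e1, e2]
  ring

omit [MeasurableSingletonClass V] [Countable V] in
lemma inflD_nonneg (T : ℕ) (x z : V) : 0 ≤ inflD S p κ T x z := by
  refine integral_nonneg fun ω => ?_
  simp only [Pi.zero_apply, sub_nonneg]
  unfold Dn
  refine sum_le_sum fun t _ => ?_
  exact_mod_cast Cn_upe_mono S t x z ω

include hp hκ in
/-- Energy bound. -/
lemma energy_le (hp2 : p ≤ 1 / 2) (T : ℕ) (o : V) {c1 Ξ : ℝ}
    (hN : ∫ ω, Nz S (1 - κ) T o ω * Dn S T o ω ∂(S.law p κ) ≤ c1 * mT S p κ o T)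
    (hΞ : inflD S p κ T o o ≤ Ξ) :
    ∫ ω, Dn S T o ω ^ 2 ∂(S.law p κ) -
      ∫ ω, Dn S T o ω * S.P (fun y => Dn S T y ω) o ∂(S.law p κ) ≤
      c1 * mT S p κ o T + 1 / 2 * Ξ := by
  have := law_prob S hp hκ
  have bD := bm_Dn S T o
  have bP := bm_P S (fun y => bm_Dn S T y) o
  have bN := bm_Nz S (1 - κ) T o
  have bE : BM (eta o) := bm_eta o
  have bC := bm_C S.nb T o
  have hm0 := mT_nonneg S (p := p) (κ := κ) o T
  have hI0 := inflD_nonneg S (p := p) (κ := κ) T o o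
  have hDP : 0 ≤ ∫ ω, Dn S T o ω * S.P (fun y => Dn S T y ω) o ∂(S.law p κ) := by
    refine integral_nonneg fun ω => mul_nonneg (Dn_nonneg S T o ω) ?_
    exact sum_nonneg fun y _ => mul_nonneg (S.nonneg _ _) (Dn_nonneg S T y ω)
  have e1 : ∀ ω : Om V, Dn S T o ω ^ 2 - (1 - κ) * (Dn S T o ω * S.P (fun y => Dn S T y ω) o) =
      (Nz S (1 - κ) T o ω * Dn S T o ω + eta o ω * Dn S T o ω) - Cn S.nb T o ω * Dn S T o ω := by
    intro ω
    have h1 := Dn_sub S (1 - κ) T o ω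
    have h2 := Fn_mul_Dn S T o ω
    calc _ = (Dn S T o ω - (1 - κ) * S.P (fun y => Dn S T y ω) o) * Dn S T o ω := by ring
      _ = (Nz S (1 - κ) T o ω * Dn S T o ω + eta o ω * Dn S T o ω) - Cn S.nb T o ω * Dn S T o ω
          + (Fn S.nb T o ω : ℝ) * Dn S T o ω := by rw [h1]; ring
      _ = _ := by rw [h2, add_zero]
  have h3 : ∫ ω, (Dn S T o ω ^ 2 - (1 - κ) * (Dn S T o ω * S.P (fun y => Dn S T y ω) o))
      ∂(S.law p κ) = ∫ ω, ((Nz S (1 - κ) T o ω * Dn S T o ω + eta o ω * Dn S T o ω) -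
        Cn S.nb T o ω * Dn S T o ω) ∂(S.law p κ) := by simp_rw [e1]
  rw [integral_sub ((bD.pow 2).integrable _) (((bD.mul bP).smul _).integrable _),
    integral_const_mul, integral_sub (((bN.mul bD).add (bE.mul bD)).integrable _)
      ((bC.mul bD).integrable _), integral_add ((bN.mul bD).integrable _)
      ((bE.mul bD).integrable _), integral_eta_Dn S hp hκ, integral_Dn S hp hκ T o o] at h3
  have h4 : 0 ≤ ∫ ω, (Cn S.nb T o ω : ℝ) * Dn S T o ω ∂(S.law p κ) :=
    integral_nonneg fun ω => mul_nonneg (Nat.cast_nonneg _) (Dn_nonneg S T o ω)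
  have h5 : (1 - κ) * ∫ ω, Dn S T o ω * S.P (fun y => Dn S T y ω) o ∂(S.law p κ) ≤
      ∫ ω, Dn S T o ω * S.P (fun y => Dn S T y ω) o ∂(S.law p κ) := by nlinarith [hκ.1]
  have h6 : (2 * p - 1) * mT S p κ o T ≤ 0 := by nlinarith
  have h7 : 2 * p * (1 - p) * inflD S p κ T o o ≤ 1 / 2 * Ξ := by
    have h8 : 2 * p * (1 - p) ≤ 1 / 2 := by nlinarith [sq_nonneg (2 * p - 1)]
    have h9 : 2 * p * (1 - p) * inflD S p κ T o o ≤ 1 / 2 * inflD S p κ T o o :=
      mul_le_mul_of_nonneg_right h8 hI0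
    linarith
  linarith

include hp in
/-- **The main inequality.** -/
theorem star (hp2 : p ≤ 1 / 2) (hκ0 : 0 < κ) (hκ1 : κ ≤ 1) (o : V) (T J : ℕ) {g Λ c1 Ξ : ℝ}
    (hg : ∀ y, S.U (1 - κ) o J y ≤ g) (hΛ : ∀ L : Finset V, ∑ y ∈ L, S.lam (1 - κ) o J y ≤ Λ)
    (hN : ∫ ω, Nz S (1 - κ) T o ω * Dn S T o ω ∂(S.law p κ) ≤ c1 * mT S p κ o T)
    (hΞ : ∀ L : Finset V, ∑ z ∈ L, inflD S p κ T o z ≤ Ξ) :
    (1 - 2 * p) * Tri.SJ (1 - κ) J * mT S p κ o T ≤
      J ^ 2 * √(2 * (c1 * mT S p κ o T + 1 / 2 * Ξ)) + (2 * Λ + g) * mT S p κ o T +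
        1 / 2 * g * Ξ := by
  have hκ : 0 ≤ κ ∧ κ ≤ 1 := ⟨hκ0.le, hκ1⟩
  have ha : 0 ≤ 1 - κ := by linarith
  have ha1 : 1 - κ ≤ 1 := by linarith
  have := law_prob S hp hκ
  have bD := fun y => bm_Dn S T y
  have hDs : ∀ γ ∈ S.Γ, ∀ x ω, Dn S T (γ x) (shift γ ω) = Dn S T x ω :=
    fun γ hγ x ω => Dn_shift S hγ T x ω
  have hNs : ∀ γ ∈ S.Γ, ∀ x ω, Nz S (1 - κ) T (γ x) (shift γ ω) = Nz S (1 - κ) T x ω :=
    fun γ hγ x ω => Nz_shift S (1 - κ) hγ T x ω
  set W : Om V → ℝ := fun ω => S.rev.R (1 - κ) J (fun y => Dn S T y ω) o with hW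
  set m := mT S p κ o T with hm
  have hm0 : 0 ≤ m := mT_nonneg S o T
  have bW : BM W := bm_R S.rev (1 - κ) J bD o
  have bP := bm_P S bD o
  have bN := bm_Nz S (1 - κ) T o
  have bE : BM (eta o) := bm_eta o
  have bC := bm_C S.nb T o
  have bF := bm_F S.nb T o
  have hg0 : 0 ≤ g := (S.U_nonneg ha o J o).trans (hg o)
  have hW0 : ∀ ω, 0 ≤ W ω := by
    intro ω
    have := S.rev.R_mono ha J (f := fun _ => 0) (g := fun y => Dn S T y ω)
      (fun x => Dn_nonneg S T x ω) o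
    rwa [S.rev.R_const, zero_mul] at this
  have hΞ0 : 0 ≤ Ξ := by simpa using hΞ ∅
  have hΞo : inflD S p κ T o o ≤ Ξ := by simpa using hΞ {o}
  -- positivity of the form
  have h1 := form_nonneg S hp hκ ha ha1 J bD hDs o
  have h1' : 0 ≤ ∫ ω, (Dn S T o ω - (1 - κ) * S.P (fun y => Dn S T y ω) o) * W ω
      ∂(S.law p κ) := by
    refine le_trans (mul_nonneg ?_ (sq_nonneg _)) h1
    have := pow_le_one₀ ha ha1 (n := J)
    linarith
  have e1 : ∀ ω : Om V, (Dn S T o ω - (1 - κ) * S.P (fun y => Dn S T y ω) o) * W ω =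
      (Nz S (1 - κ) T o ω * W ω + eta o ω * W ω + Fn S.nb T o ω * W ω) -
        Cn S.nb T o ω * W ω := by
    intro ω
    rw [Dn_sub]; ring
  simp_rw [e1] at h1'
  rw [integral_sub ((((bN.mul bW).add (bE.mul bW)).add (bF.mul bW)).integrable _)
      ((bC.mul bW).integrable _),
    integral_add (((bN.mul bW).add (bE.mul bW)).integrable _) ((bF.mul bW).integrable _),
    integral_add ((bN.mul bW).integrable _) ((bE.mul bW).integrable _)] at h1'
  -- noise term
  have h2 : ∫ ω, Nz S (1 - κ) T o ω * W ω ∂(S.law p κ) ≤ (2 * Λ + g) * m := by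
    have h3 := integral_adjR S hp hκ (1 - κ) J (X := fun x ω => Nz S (1 - κ) T x ω)
      (Y := fun x ω => Dn S T x ω) (fun x => bm_Nz S (1 - κ) T x) bD hNs hDs o
    have h4 := noise_Dn_le S hp hκ0 hκ1 o J T hg hΛ
    have e2 : ∫ ω, Nz S (1 - κ) T o ω * W ω ∂(S.law p κ) =
        ∫ ω, S.R (1 - κ) J (fun x => Nz S (1 - κ) T x ω) o * Dn S T o ω ∂(S.law p κ) := by
      have e3 : ∀ ω : Om V, Nz S (1 - κ) T o ω * W ω = W ω * Nz S (1 - κ) T o ω := fun ω =>
        mul_comm _ _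
      have e4 : ∀ ω : Om V, S.R (1 - κ) J (fun x => Nz S (1 - κ) T x ω) o * Dn S T o ω =
        Dn S T o ω * S.R (1 - κ) J (fun x => Nz S (1 - κ) T x ω) o := fun ω => mul_comm _ _
      simp_rw [e3, e4]
      exact h3.symm
    rw [e2]
    exact h4
  -- initial term
  have h5 : ∫ ω, eta o ω * W ω ∂(S.law p κ) ≤
      (2 * p - 1) * m * Tri.SJ (1 - κ) J + 1 / 2 * g * Ξ := by
    have e2 : ∀ ω : Om V, eta o ω * W ω = ∑ x ∈ S.ball o J, S.rev.U (1 - κ) o J x *
        (eta o ω * Dn S T x ω) := by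
      intro ω
      have e3 : W ω = ∑ x ∈ S.ball o J, S.rev.U (1 - κ) o J x * Dn S T x ω :=
        S.rev.R_eq_sum (1 - κ) o J _ (S.ball o J) (fun x hx => by
          have : ∀ n, S.rev.ball o n = S.ball o n := by
            intro n
            induction n with
            | zero => rfl
            | succ n ih => unfold Tri.ball; rw [ih]; rfl
          rwa [this] at hx)
      rw [e3, mul_sum]
      exact sum_congr rfl fun x _ => by ring
    simp_rw [e2]
    rw [integral_finsetSum _ fun x _ => ((bE.mul (bD x)).smul _).integrable _]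
    simp_rw [integral_const_mul, integral_eta_Dn S hp hκ, integral_Dn S hp hκ T _ o]
    rw [← hm]
    simp_rw [mul_add]
    rw [sum_add_distrib, ← sum_mul]
    have hb : ∀ n, S.rev.ball o n = S.ball o n := by
      intro n
      induction n with
      | zero => rfl
      | succ n ih => unfold Tri.ball; rw [ih]; rfl
    have e4 : ∑ x ∈ S.ball o J, S.rev.U (1 - κ) o J x = Tri.SJ (1 - κ) J :=
      S.rev.sum_U (1 - κ) o J _ (by rw [hb])
    rw [e4]
    have e5 : ∑ x ∈ S.ball o J, S.rev.U (1 - κ) o J x *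
        (2 * p * (1 - p) * inflD S p κ T o x) ≤ 1 / 2 * g * Ξ := by
      have h8 : 2 * p * (1 - p) ≤ 1 / 2 := by nlinarith [sq_nonneg (2 * p - 1)]
      have h80 : 0 ≤ 2 * p * (1 - p) := by
        have := hp.1
        have : 0 ≤ 1 - p := by linarith [hp.2]
        positivity
      calc _ ≤ ∑ x ∈ S.ball o J, g * (1 / 2 * inflD S p κ T o x) := by
            refine sum_le_sum fun x _ => ?_
            have hU : S.rev.U (1 - κ) o J x ≤ g := by
              have := S.rev.U_le_diag ha ha1 o J x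
              rw [rev_U S (1 - κ) J o o] at this
              exact this.trans (hg o)
            have hI := inflD_nonneg S (p := p) (κ := κ) T o x
            refine mul_le_mul hU (mul_le_mul_of_nonneg_right h8 hI)
              (mul_nonneg h80 hI) hg0
        _ = 1 / 2 * g * ∑ x ∈ S.ball o J, inflD S p κ T o x := by
            rw [mul_sum]; exact sum_congr rfl fun x _ => by ring
        _ ≤ _ := mul_le_mul_of_nonneg_left (hΞ _) (by linarith)
    linarith
  -- free spots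
  have h6 : ∫ ω, (Fn S.nb T o ω : ℝ) * W ω ∂(S.law p κ) ≤
      J ^ 2 * √(2 * (c1 * m + 1 / 2 * Ξ)) := by
    have h7 := avg_sub_le S hp hκ ha ha1 J bD hDs o
    have h8 : ∫ ω, (Fn S.nb T o ω : ℝ) * W ω ∂(S.law p κ) ≤
        ∫ ω, |W ω - Tri.SJ (1 - κ) J * Dn S T o ω| ∂(S.law p κ) := by
      have bA : BM (fun ω => |W ω - Tri.SJ (1 - κ) J * Dn S T o ω|) := by
        obtain ⟨C, hC⟩ := (bW.sub ((bD o).smul (Tri.SJ (1 - κ) J))).bdd
        exact ⟨(bW.sub ((bD o).smul (Tri.SJ (1 - κ) J))).meas.abs, C, fun ω => by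
          rw [abs_abs]; exact hC ω⟩
      refine integral_mono ((bF.mul bW).integrable _) (bA.integrable _) fun ω => ?_
      simp only
      have hF1 : (Fn S.nb T o ω : ℝ) ≤ 1 := by exact_mod_cast Fn_le S.nb T o ω
      have hF0 : (0 : ℝ) ≤ Fn S.nb T o ω := Nat.cast_nonneg _
      have h9 := Fn_mul_Dn S T o ω
      calc (Fn S.nb T o ω : ℝ) * W ω =
          (Fn S.nb T o ω : ℝ) * (W ω - Tri.SJ (1 - κ) J * Dn S T o ω) +
            Tri.SJ (1 - κ) J * ((Fn S.nb T o ω : ℝ) * Dn S T o ω) := by ring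
        _ = (Fn S.nb T o ω : ℝ) * (W ω - Tri.SJ (1 - κ) J * Dn S T o ω) := by
            rw [h9]; ring
        _ ≤ (Fn S.nb T o ω : ℝ) * |W ω - Tri.SJ (1 - κ) J * Dn S T o ω| :=
            mul_le_mul_of_nonneg_left (le_abs_self _) hF0
        _ ≤ 1 * |W ω - Tri.SJ (1 - κ) J * Dn S T o ω| :=
            mul_le_mul_of_nonneg_right hF1 (abs_nonneg _)
        _ = _ := one_mul _
    refine h8.trans (h7.trans ?_)
    refine mul_le_mul_of_nonneg_left (Real.sqrt_le_sqrt ?_) (by positivity)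
    have := energy_le S hp hκ hp2 T o hN hΞo
    linarith
  have h10 : 0 ≤ ∫ ω, (Cn S.nb T o ω : ℝ) * W ω ∂(S.law p κ) :=
    integral_nonneg fun ω => mul_nonneg (Nat.cast_nonneg _) (hW0 ω)
  linarith

end

end Pool.Agent.TH996.Park
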